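import Pool.Agent.BGV.SWpB

/-! Siegel-Walfisz for convolutions with the von Mangoldt function (helper45). -/

set_option autoImplicit false

namespace Pool.Agent.BGV

open Finset Pool.Agent.BGG

/-- The estimate of `SWLam` with fixed constant. -/
def LamB (C : ℝ) (A : ℕ) : Prop :=
  ∀ y : ℝ, 2 ≤ y → ∀ (r : ℕ) (b : ℤ), 1 ≤ r → IsCoprime b (r : ℤ) →
    |(∑ n ∈ Icc 1 ⌊y⌋₊, if (r : ℤ) ∣ (n : ℤ) - b then vM n else 0) - y / (r.totient : ℝ)| ≤
      C * y / (Real.log y) ^ A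

theorem SWpC_lamB (h : SWLam) (A : ℕ) : ∃ C : ℝ, 0 ≤ C ∧ LamB C A := by
  obtain ⟨C, hC⟩ := h A
  refine ⟨|C|, abs_nonneg _, ?_⟩
  intro y hy r b hr hb
  refine (hC y hy r b hr hb).trans ?_
  have : 0 < Real.log y := Real.log_pos (by linarith)
  have h2 : C ≤ |C| := le_abs_self C
  gcongr

/-- Inverting a factor modulo `r`. -/
theorem SWpC_inv (l r : ℕ) (hl : Nat.Coprime l r) (c : ℤ) (hc : IsCoprime c (r : ℤ)) :
    ∃ v : ℤ, IsCoprime v (r : ℤ) ∧ ∀ n : ℕ, (r : ℤ) ∣ ((l * n : ℕ) : ℤ) - c ↔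
      (r : ℤ) ∣ (n : ℤ) - v := by
  have hco : IsCoprime (l : ℤ) (r : ℤ) := Nat.isCoprime_iff_coprime.mpr hl
  obtain ⟨x, y, hxy⟩ := hco
  refine ⟨c * x, ?_, ?_⟩
  · apply IsCoprime.mul_left hc
    exact ⟨l, y, by linarith⟩
  · intro n
    push_cast
    constructor
    · rintro ⟨k, hk⟩
      refine ⟨x * k + y * n, ?_⟩
      have : (n : ℤ) = (x * l + y * r) * n := by rw [hxy]; ring
      linear_combination x * hk + this
    · rintro ⟨k, hk⟩
      refine ⟨l * k - y * c, ?_⟩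
      linear_combination (l : ℤ) * hk + c * hxy

theorem SWpC_inner (C : ℝ) (A : ℕ) (hC0 : 0 ≤ C) (h : LamB C A) (r s l : ℕ) (hr : 1 ≤ r)
    (hs : 1 ≤ s) (hl : Nat.Coprime l r) (c : ℤ) (hc : IsCoprime c (r : ℤ)) (a b : ℕ)
    (ha : 2 ≤ a) (hab : a ≤ b) (Ly : ℝ) (hLy : 0 < Ly) (hLa : Ly ≤ Real.log a) :
    |(∑ n ∈ Ioc a b, if (r : ℤ) ∣ ((l * n : ℕ) : ℤ) - c ∧ Nat.Coprime n s then vM n else 0) -
      ((b : ℝ) - a) / (r.totient : ℝ)| ≤
      2 * C * b / Ly ^ A + (s.divisors.card : ℝ) * Real.log b := by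
  obtain ⟨v, hv, hv2⟩ := SWpC_inv l r hl c hc
  have ha2 : (2 : ℝ) ≤ a := by exact_mod_cast ha
  have hab' : (a : ℝ) ≤ b := by exact_mod_cast hab
  have hb2 : (2 : ℝ) ≤ b := ha2.trans hab'
  have h1 : (∑ n ∈ Ioc a b, if (r : ℤ) ∣ ((l * n : ℕ) : ℤ) - c ∧ Nat.Coprime n s then vM n else 0) =
      (∑ n ∈ Ioc a b, if (r : ℤ) ∣ (n : ℤ) - v then vM n else 0) -
      ∑ n ∈ Ioc a b, if (r : ℤ) ∣ (n : ℤ) - v ∧ ¬ Nat.Coprime n s then vM n else 0 := by
    rw [← Finset.sum_sub_distrib]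
    apply Finset.sum_congr rfl
    intro n _
    simp only [hv2 n]
    by_cases h2 : (r : ℤ) ∣ (n : ℤ) - v <;> by_cases h3 : Nat.Coprime n s <;> simp [h2, h3]
  have hI : ∀ N : ℕ, Icc 1 N = Ioc 0 N := fun N => by ext n; simp [Nat.succ_le_iff]
  have h2 : (∑ n ∈ Ioc a b, if (r : ℤ) ∣ (n : ℤ) - v then vM n else 0) =
      (∑ n ∈ Icc 1 b, if (r : ℤ) ∣ (n : ℤ) - v then vM n else 0) -
      (∑ n ∈ Icc 1 a, if (r : ℤ) ∣ (n : ℤ) - v then vM n else 0) := by
    rw [hI, hI, ← Finset.sum_Ioc_consecutive _ (Nat.zero_le a) hab]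
    ring
  have h3 : 0 ≤ ∑ n ∈ Ioc a b, (if (r : ℤ) ∣ (n : ℤ) - v ∧ ¬ Nat.Coprime n s then vM n else 0) :=
    Finset.sum_nonneg fun n _ => by split_ifs; exacts [vM_nonneg _, le_rfl]
  have h4 : ∑ n ∈ Ioc a b, (if (r : ℤ) ∣ (n : ℤ) - v ∧ ¬ Nat.Coprime n s then vM n else 0) ≤
      (s.divisors.card : ℝ) * Real.log b := by
    refine le_trans ?_ (SWpA_nc s hs b (by omega))
    rw [Finset.sum_filter]
    calc ∑ n ∈ Ioc a b, (if (r : ℤ) ∣ (n : ℤ) - v ∧ ¬ Nat.Coprime n s then vM n else 0)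
        ≤ ∑ n ∈ Ioc a b, (if ¬ Nat.Coprime n s then vM n else 0) := by
          apply Finset.sum_le_sum
          intro n _
          by_cases h5 : Nat.Coprime n s
          · simp [h5]
          · by_cases h6 : (r : ℤ) ∣ (n : ℤ) - v <;> simp [h5, h6, vM_nonneg]
      _ ≤ ∑ n ∈ Icc 1 b, (if ¬ Nat.Coprime n s then vM n else 0) := by
          apply Finset.sum_le_sum_of_subset_of_nonneg
          · intro n hn
            rw [mem_Ioc] at hn
            rw [mem_Icc]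
            omega
          · intro n _ _
            split_ifs
            · exact le_rfl
            · exact vM_nonneg _
  have h5 := h b hb2 r v hr hv
  have h6 := h a ha2 r v hr hv
  rw [Nat.floor_natCast] at h5 h6
  have hlogb : Ly ≤ Real.log b := hLa.trans (Real.log_le_log (by linarith) hab')
  have e1 : C * b / (Real.log b) ^ A ≤ C * b / Ly ^ A := by gcongr
  have e2 : C * a / (Real.log a) ^ A ≤ C * b / Ly ^ A := by gcongr
  have e3 : ((b : ℝ) - a) / (r.totient : ℝ) = b / (r.totient : ℝ) - a / (r.totient : ℝ) := by ring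
  have e4 : 2 * C * b / Ly ^ A = C * b / Ly ^ A + C * b / Ly ^ A := by ring
  rw [h1, h2, e3, e4]
  rw [abs_le] at h5 h6 ⊢
  constructor <;> linarith [h5.1, h5.2, h6.1, h6.2]

/-- The sequence `w * Λ_{(u1,u2]}`. -/
noncomputable def cvl (w : ℕ → ℝ) (u1 u2 : ℕ) (n : ℕ) : ℝ :=
  ∑ p ∈ n.divisorsAntidiagonal, if u1 < p.2 ∧ p.2 ≤ u2 then w p.1 * vM p.2 else 0

theorem SWpC_conv (C : ℝ) (A : ℕ) (hC0 : 0 ≤ C) (h : LamB C A) (r s : ℕ) (hr : 1 ≤ r)
    (hs : 1 ≤ s) (c : ℤ) (hc : IsCoprime c (r : ℤ)) (w : ℕ → ℝ) (hw : ∀ l, |w l| ≤ 1)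
    (G G' u1 u2 : ℕ) (hG1 : 1 ≤ G') (y0 Ly : ℝ) (hy0 : 2 ≤ y0) (hLy : 0 < Ly)
    (hLy0 : Ly ≤ Real.log y0)
    (hy : ∀ l, 1 ≤ l → w l ≠ 0 → max (G / l) u1 < min (G' / l) u2 →
      y0 ≤ ((max (G / l) u1 : ℕ) : ℝ)) :
    |(∑ n ∈ Ioc G G', if (r : ℤ) ∣ (n : ℤ) - c ∧ Nat.Coprime n s then cvl w u1 u2 n else 0) -
      ∑ l ∈ Icc 1 G', (if (Nat.Coprime l r ∧ Nat.Coprime l s) ∧ max (G / l) u1 < min (G' / l) u2 then
        w l * ((((min (G' / l) u2 : ℕ) : ℝ) - ((max (G / l) u1 : ℕ) : ℝ)) / (r.totient : ℝ)) else 0)| ≤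
      2 * C * G' * (1 + Real.log G') / Ly ^ A +
        (G' / y0) * ((s.divisors.card : ℝ) * Real.log G') := by
  have hG0 : (1 : ℝ) ≤ G' := by exact_mod_cast hG1
  have h1 : (∑ n ∈ Ioc G G', if (r : ℤ) ∣ (n : ℤ) - c ∧ Nat.Coprime n s then
      cvl w u1 u2 n else 0) =
      ∑ l ∈ Icc 1 G', ∑ n ∈ Ioc (G / l) (G' / l),
        (if ((r : ℤ) ∣ ((l * n : ℕ) : ℤ) - c ∧ Nat.Coprime (l * n) s) ∧ (u1 < n ∧ n ≤ u2) then
          w l * vM n else 0) := by
    rw [← P2_left, ← sum_anti]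
    apply Finset.sum_congr rfl
    intro n _
    unfold cvl
    by_cases h2 : (r : ℤ) ∣ (n : ℤ) - c ∧ Nat.Coprime n s
    · rw [if_pos h2]
      apply Finset.sum_congr rfl
      intro p hp
      rw [(Nat.mem_divisorsAntidiagonal.mp hp).1]
      by_cases h3 : u1 < p.2 ∧ p.2 ≤ u2
      · rw [if_pos h3, if_pos ⟨h2, h3⟩]
      · rw [if_neg h3, if_neg (fun h => h3 h.2)]
    · rw [if_neg h2]
      symm
      apply Finset.sum_eq_zero
      intro p hp
      rw [(Nat.mem_divisorsAntidiagonal.mp hp).1]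
      rw [if_neg (fun h3 => h2 h3.1)]
  have h2 : ∀ l ∈ Icc 1 G', ∑ n ∈ Ioc (G / l) (G' / l),
        (if ((r : ℤ) ∣ ((l * n : ℕ) : ℤ) - c ∧ Nat.Coprime (l * n) s) ∧ (u1 < n ∧ n ≤ u2) then
          w l * vM n else 0) =
        if (Nat.Coprime l r ∧ Nat.Coprime l s) ∧ max (G / l) u1 < min (G' / l) u2 then
          w l * ∑ n ∈ Ioc (max (G / l) u1) (min (G' / l) u2),
            (if (r : ℤ) ∣ ((l * n : ℕ) : ℤ) - c ∧ Nat.Coprime n s then vM n else 0) else 0 := by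
    intro l _
    by_cases hco : Nat.Coprime l r ∧ Nat.Coprime l s
    · have h3 : ∑ n ∈ Ioc (G / l) (G' / l),
        (if ((r : ℤ) ∣ ((l * n : ℕ) : ℤ) - c ∧ Nat.Coprime (l * n) s) ∧ (u1 < n ∧ n ≤ u2) then
          w l * vM n else 0) =
          w l * ∑ n ∈ Ioc (max (G / l) u1) (min (G' / l) u2),
            (if (r : ℤ) ∣ ((l * n : ℕ) : ℤ) - c ∧ Nat.Coprime n s then vM n else 0) := by
        have h4 : Ioc (max (G / l) u1) (min (G' / l) u2) =
            (Ioc (G / l) (G' / l)).filter (fun n => u1 < n ∧ n ≤ u2) := by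
          ext n
          simp only [mem_Ioc, mem_filter, max_lt_iff, le_min_iff]
          tauto
        rw [h4, Finset.sum_filter, Finset.mul_sum]
        apply Finset.sum_congr rfl
        intro n _
        have h5 : Nat.Coprime (l * n) s ↔ Nat.Coprime n s := by
          rw [Nat.coprime_mul_iff_left]
          exact ⟨fun h => h.2, fun h => ⟨hco.2, h⟩⟩
        simp only [h5]
        by_cases h6 : (r : ℤ) ∣ ((l * n : ℕ) : ℤ) - c ∧ Nat.Coprime n s
        · by_cases h7 : u1 < n ∧ n ≤ u2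
          · rw [if_pos ⟨h6, h7⟩, if_pos h7, if_pos h6]
          · rw [if_neg (fun h => h7 h.2), if_neg h7, mul_zero]
        · by_cases h7 : u1 < n ∧ n ≤ u2
          · rw [if_neg (fun h => h6 h.1), if_pos h7, if_neg h6, mul_zero]
          · rw [if_neg (fun h => h7 h.2), if_neg h7, mul_zero]
      rw [h3]
      by_cases h8 : max (G / l) u1 < min (G' / l) u2
      · rw [if_pos ⟨hco, h8⟩]
      · rw [if_neg (fun h9 => h8 h9.2)]
        rw [Finset.Ioc_eq_empty h8, Finset.sum_empty, mul_zero]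
    · rw [if_neg (fun h9 => hco h9.1)]
      apply Finset.sum_eq_zero
      intro n _
      rw [if_neg]
      rintro ⟨⟨h3, h4⟩, _⟩
      apply hco
      refine ⟨?_, (Nat.coprime_mul_iff_left.mp h4).1⟩
      rw [← Nat.isCoprime_iff_coprime]
      have h5 : IsCoprime ((l * n : ℕ) : ℤ) (r : ℤ) := by
        obtain ⟨e, he⟩ := h3
        obtain ⟨a, a', haa⟩ := hc
        refine ⟨a, a' - a * e, ?_⟩
        have : ((l * n : ℕ) : ℤ) = c + r * e := by linarith
        rw [this]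
        linear_combination haa
      exact h5.of_isCoprime_of_dvd_left (by push_cast; exact dvd_mul_right _ _)
  rw [h1, Finset.sum_congr rfl h2, ← Finset.sum_sub_distrib]
  have h3 : ∀ l ∈ Icc 1 G',
      |(if (Nat.Coprime l r ∧ Nat.Coprime l s) ∧ max (G / l) u1 < min (G' / l) u2 then
          w l * ∑ n ∈ Ioc (max (G / l) u1) (min (G' / l) u2),
            (if (r : ℤ) ∣ ((l * n : ℕ) : ℤ) - c ∧ Nat.Coprime n s then vM n else 0) else 0) -
        (if (Nat.Coprime l r ∧ Nat.Coprime l s) ∧ max (G / l) u1 < min (G' / l) u2 then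
        w l * ((((min (G' / l) u2 : ℕ) : ℝ) - ((max (G / l) u1 : ℕ) : ℝ)) / (r.totient : ℝ)) else 0)| ≤
      2 * C * G' / Ly ^ A * (1 / (l : ℝ)) +
        (if (l : ℝ) ≤ G' / y0 then (s.divisors.card : ℝ) * Real.log G' else 0) := by
    intro l hl
    rw [mem_Icc] at hl
    have hl0 : (0 : ℝ) < l := by exact_mod_cast hl.1
    have hR1 : 0 ≤ 2 * C * G' / Ly ^ A * (1 / (l : ℝ)) := by positivity
    have hlogG : 0 ≤ Real.log G' := Real.log_nonneg hG0
    have hR2 : 0 ≤ (if (l : ℝ) ≤ G' / y0 then (s.divisors.card : ℝ) * Real.log G' else 0) := by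
      split_ifs <;> positivity
    by_cases h4 : (Nat.Coprime l r ∧ Nat.Coprime l s) ∧ max (G / l) u1 < min (G' / l) u2
    · rw [if_pos h4, if_pos h4, ← mul_sub, abs_mul]
      by_cases h5 : w l = 0
      · rw [h5, abs_zero, zero_mul]
        positivity
      · have h6 := hy l hl.1 h5 h4.2
        have ha2 : 2 ≤ max (G / l) u1 := by
          have : (2 : ℝ) ≤ ((max (G / l) u1 : ℕ) : ℝ) := hy0.trans h6
          exact_mod_cast this
        have hb : (((min (G' / l) u2 : ℕ) : ℝ)) ≤ G' / l := by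
          calc (((min (G' / l) u2 : ℕ) : ℝ)) ≤ ((G' / l : ℕ) : ℝ) := by
                exact_mod_cast min_le_left _ _
            _ ≤ _ := Nat.cast_div_le
        have hab : (((max (G / l) u1 : ℕ) : ℝ)) ≤ (((min (G' / l) u2 : ℕ) : ℝ)) := by
          exact_mod_cast h4.2.le
        have h7 : (l : ℝ) ≤ G' / y0 := by
          rw [le_div_iff₀ (by linarith), mul_comm]
          rw [← le_div_iff₀ hl0]
          exact h6.trans (hab.trans hb)
        rw [if_pos h7]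
        have h8 := SWpC_inner C A hC0 h r s l hr hs h4.1.1 c hc (max (G / l) u1)
          (min (G' / l) u2) ha2 h4.2.le Ly hLy
          (hLy0.trans (Real.log_le_log (by linarith) h6))
        have h9 : Real.log ((min (G' / l) u2 : ℕ) : ℝ) ≤ Real.log G' := by
          apply Real.log_le_log
          · linarith
          · refine hb.trans (div_le_self (by linarith) ?_)
            exact_mod_cast hl.1
        calc _ ≤ 1 * (2 * C * ((min (G' / l) u2 : ℕ) : ℝ) / Ly ^ A +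
              (s.divisors.card : ℝ) * Real.log ((min (G' / l) u2 : ℕ) : ℝ)) :=
              mul_le_mul (hw l) h8 (abs_nonneg _) (by norm_num)
          _ ≤ 2 * C * (G' / l) / Ly ^ A + (s.divisors.card : ℝ) * Real.log G' := by
              rw [one_mul]
              gcongr
          _ = _ := by ring
    · rw [if_neg h4, if_neg h4, sub_zero, abs_zero]
      positivity
  refine (Finset.abs_sum_le_sum_abs _ _).trans ((Finset.sum_le_sum h3).trans ?_)
  rw [Finset.sum_add_distrib, ← Finset.mul_sum]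
  have h4 : ∑ l ∈ Icc 1 G', (1 / (l : ℝ)) ≤ 1 + Real.log G' := by
    have := harmonic_le_one_add_log G'
    rw [harmonic_eq_sum_Icc] at this
    push_cast at this
    simpa using this
  have h5 : ∑ l ∈ Icc 1 G', (if (l : ℝ) ≤ G' / y0 then (s.divisors.card : ℝ) * Real.log G' else 0) ≤
      (G' / y0) * ((s.divisors.card : ℝ) * Real.log G') := by
    rw [← Finset.sum_filter, Finset.sum_const, nsmul_eq_mul]
    have hlogG : 0 ≤ Real.log G' := Real.log_nonneg hG0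
    apply mul_le_mul_of_nonneg_right _ (by positivity)
    have h6 : (Icc 1 G').filter (fun l : ℕ => (l : ℝ) ≤ G' / y0) ⊆ Icc 1 ⌊G' / y0⌋₊ := by
      intro l hl
      rw [mem_filter, mem_Icc] at hl
      rw [mem_Icc]
      exact ⟨hl.1.1, Nat.le_floor hl.2⟩
    calc (((Icc 1 G').filter (fun l : ℕ => (l : ℝ) ≤ G' / y0)).card : ℝ)
        ≤ ((Icc 1 ⌊G' / y0⌋₊).card : ℝ) := by exact_mod_cast Finset.card_le_card h6
      _ = (⌊G' / y0⌋₊ : ℝ) := by simp
      _ ≤ _ := Nat.floor_le (by positivity)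
  calc _ ≤ 2 * C * G' / Ly ^ A * (1 + Real.log G') +
        (G' / y0) * ((s.divisors.card : ℝ) * Real.log G') := by
        apply add_le_add _ h5
        apply mul_le_mul_of_nonneg_left h4
        positivity
    _ = _ := by ring

end Pool.Agent.BGV
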