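import Pool.Agent.BGV.Vaughan
import Pool.Agent.BGV.SWpC

/-! Siegel-Walfisz for the four pieces of Vaughan's identity on one interval (section 5 of the text of
helper18, adapted).  `Piece x u G beta` = the sequences that occur. -/

set_option autoImplicit false

namespace Pool.Agent.BGV

open Finset Pool.Agent.BGG

/-- restriction of a sequence to `(G, G']` -/
noncomputable def rst (G G' : ℕ) (β : ℕ → ℝ) (n : ℕ) : ℝ := if G < n ∧ n ≤ G' then β n else 0

/-- the four sequences; `al2` only for long intervals -/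
def Piece (x : ℝ) (u G : ℕ) (β : ℕ → ℝ) : Prop :=
  β = (fun _ => 1) ∨ β = mu ∨ β = al4 u ∨ (β = al2 u ∧ x ^ (9 / 20 : ℝ) ≤ (G : ℝ))

/-- class sums near a number that does not depend on the class -/
def SWpNear (G G' : ℕ) (β : ℕ → ℝ) (r s : ℕ) (E : ℝ) : Prop :=
  ∃ M0 : ℝ, ∀ c : ℤ, IsCoprime c (r : ℤ) →
    |(∑ n ∈ Ioc G G', if (r : ℤ) ∣ (n : ℤ) - c ∧ Nat.Coprime n s then β n else 0) - M0| ≤ E

theorem SWp_of (K : ℕ → ℝ) (x : ℝ) (G G' : ℕ) (hG' : G' ≤ 4 * G) (β : ℕ → ℝ)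
    (h : ∀ j r s : ℕ, 1 ≤ r → 1 ≤ s →
      SWpNear G G' β r s (K j * (s.divisors.card : ℝ) * G / (Real.log x) ^ j)) :
    SW (fun j => 2 * K j) x G (rst G G' β) := by
  intro j r s b hr hs hb
  have hfl : ⌊4 * (G : ℝ)⌋₊ = 4 * G := by
    rw [show 4 * (G : ℝ) = ((4 * G : ℕ) : ℝ) by push_cast; ring, Nat.floor_natCast]
  rw [hfl]
  obtain ⟨M0, hM0⟩ := h j r s hr hs
  have h1 := SWpA_avg (4 * G) r hr (fun n => if Nat.Coprime n s then rst G G' β n else 0) M0
    (K j * (s.divisors.card : ℝ) * G / (Real.log x) ^ j) (by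
      intro c hc
      have e : (∑ n ∈ Icc 1 (4 * G), if (r : ℤ) ∣ (n : ℤ) - c then
          (if Nat.Coprime n s then rst G G' β n else 0) else 0) =
          ∑ n ∈ Ioc G G', if (r : ℤ) ∣ (n : ℤ) - c ∧ Nat.Coprime n s then β n else 0 := by
        symm
        have hsub : Ioc G G' ⊆ Icc 1 (4 * G) := by
          intro n hn
          rw [mem_Ioc] at hn
          rw [mem_Icc]
          omega
        rw [← Finset.sum_subset hsub]
        · apply Finset.sum_congr rfl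
          intro n hn
          rw [mem_Ioc] at hn
          unfold rst
          rw [if_pos hn]
          by_cases h2 : (r : ℤ) ∣ (n : ℤ) - c <;> by_cases h3 : Nat.Coprime n s <;> simp [h2, h3]
        · intro n _ hn
          rw [mem_Ioc] at hn
          unfold rst
          rw [if_neg hn]
          simp
      rw [e]
      exact hM0 c hc) b hb
  have e1 : (∑ n ∈ Icc 1 (4 * G), if (r : ℤ) ∣ (n : ℤ) - b ∧ Nat.Coprime n s then
      rst G G' β n else 0) = ∑ n ∈ Icc 1 (4 * G), if (r : ℤ) ∣ (n : ℤ) - b then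
          (if Nat.Coprime n s then rst G G' β n else 0) else 0 := by
    apply Finset.sum_congr rfl
    intro n _
    by_cases h2 : (r : ℤ) ∣ (n : ℤ) - b <;> by_cases h3 : Nat.Coprime n s <;> simp [h2, h3]
  have e2 : (∑ n ∈ Icc 1 (4 * G), if Nat.Coprime n (r * s) then rst G G' β n else 0) =
      ∑ n ∈ Icc 1 (4 * G), if Nat.Coprime n r then
          (if Nat.Coprime n s then rst G G' β n else 0) else 0 := by
    apply Finset.sum_congr rfl
    intro n _
    have h4 : Nat.Coprime n (r * s) ↔ Nat.Coprime n r ∧ Nat.Coprime n s :=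
      Nat.coprime_mul_iff_right
    by_cases h2 : Nat.Coprime n r
    · by_cases h3 : Nat.Coprime n s
      · rw [if_pos (h4.mpr ⟨h2, h3⟩), if_pos h2, if_pos h3]
      · rw [if_neg (fun h => h3 (h4.mp h).2), if_pos h2, if_neg h3]
    · rw [if_neg (fun h => h2 (h4.mp h).1), if_neg h2]
  rw [e1, e2]
  refine h1.trans (le_of_eq ?_)
  ring

/-- the convolution pieces -/
theorem SWp_conv (hLam : SWLam) (j : ℕ) : ∃ K : ℝ, 0 ≤ K ∧ ∀ (x z : ℝ), 2 ≤ z → x = z ^ 60 →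
    ∀ G G' : ℕ, z ^ 6 ≤ (G : ℝ) → (G : ℝ) ≤ x → G ≤ G' → G' ≤ 4 * G →
    ∀ (w : ℕ → ℝ) (u1 u2 : ℕ), (∀ l, |w l| ≤ 1) →
    (∀ l, 1 ≤ l → w l ≠ 0 → max (G / l) u1 < min (G' / l) u2 →
      z ^ 6 ≤ ((max (G / l) u1 : ℕ) : ℝ)) → ∀ r s : ℕ, 1 ≤ r → 1 ≤ s →
    SWpNear G G' (cvl w u1 u2) r s (K * (s.divisors.card : ℝ) * G / (Real.log x) ^ j) := by
  obtain ⟨C, hC0, hC⟩ := SWpC_lamB hLam (j + 1)
  obtain ⟨K1, hK1, hK1'⟩ := Pool.Agent.SWz.logpow (j + 1) (1 / 10) (by norm_num)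
  refine ⟨24 * C * 10 ^ (j + 1) + 8 * K1, by positivity, ?_⟩
  intro x z hz hx G G' hG hGx hGG hG' w u1 u2 hw hy r s hr hs
  have hz0 : 0 < z := by linarith
  have hlogz : 0 < Real.log z := Real.log_pos (by linarith)
  have hlogx : Real.log x = 60 * Real.log z := by rw [hx, Real.log_pow]; norm_num
  have hlogx0 : 0 < Real.log x := by rw [hlogx]; positivity
  have hlog2 : 1 / 2 < Real.log 2 := by have := Real.log_two_gt_d9; linarith
  have hlogx1 : 1 ≤ Real.log x := by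
    have : Real.log 2 ≤ Real.log z := Real.log_le_log (by norm_num) hz
    rw [hlogx]; linarith
  have hz6 : Real.log (z ^ 6) = Real.log x / 10 := by
    rw [hlogx, Real.log_pow]; push_cast; ring
  have hz64 : (2 : ℝ) ≤ z ^ 6 := by
    calc (2 : ℝ) ≤ 2 ^ 6 := by norm_num
      _ ≤ z ^ 6 := pow_le_pow_left₀ (by norm_num) hz 6
  have hG2 : (2 : ℝ) ≤ G := hz64.trans hG
  have hG'2 : (2 : ℝ) ≤ G' := hG2.trans (by exact_mod_cast hGG)
  have hG'1 : 1 ≤ G' := by
    have : (1 : ℝ) ≤ G' := by linarith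
    exact_mod_cast this
  refine ⟨_, fun c hc => (SWpC_conv C (j + 1) hC0 hC r s hr hs c hc w hw G G' u1 u2 hG'1
    (z ^ 6) (Real.log x / 10) hz64 (by positivity) hz6.ge hy).trans ?_⟩
  have hx4 : 4 ≤ x := by
    rw [hx]
    calc (4 : ℝ) ≤ 2 ^ 60 := by norm_num
      _ ≤ z ^ 60 := pow_le_pow_left₀ (by norm_num) hz 60
  have hG'4 : (G' : ℝ) ≤ 4 * G := by exact_mod_cast hG'
  have hlogG' : Real.log G' ≤ 2 * Real.log x := by
    have h1 : (G' : ℝ) ≤ x ^ 2 := by nlinarith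
    have h2 := Real.log_le_log (by linarith) h1
    rw [Real.log_pow] at h2
    exact_mod_cast h2
  have hs1 : (1 : ℝ) ≤ (s.divisors.card : ℝ) := by
    have : 1 ≤ s.divisors.card := by
      rw [Nat.one_le_iff_ne_zero, ← Nat.pos_iff_ne_zero, Finset.card_pos]
      exact ⟨1, Nat.one_mem_divisors.mpr (by omega)⟩
    exact_mod_cast this
  have hG0 : (0 : ℝ) < G := by linarith
  have hz6x : z ^ 6 = x ^ (1 / 10 : ℝ) := by
    rw [hx, ← Real.rpow_natCast, ← Real.rpow_natCast, ← Real.rpow_mul hz0.le]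
    norm_num
  have h1 : 2 * C * G' * (1 + Real.log G') / (Real.log x / 10) ^ (j + 1) ≤
      24 * C * 10 ^ (j + 1) * (s.divisors.card : ℝ) * G / (Real.log x) ^ j := by
    rw [div_pow, div_div_eq_mul_div, div_le_div_iff₀ (by positivity) (by positivity)]
    calc 2 * C * G' * (1 + Real.log G') * 10 ^ (j + 1) * Real.log x ^ j
        ≤ 2 * C * (4 * G) * (3 * Real.log x) * 10 ^ (j + 1) * Real.log x ^ j := by
          have : 1 + Real.log G' ≤ 3 * Real.log x := by linarith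
          have h0 : 0 ≤ 1 + Real.log G' := by
            have : 0 ≤ Real.log G' := Real.log_nonneg (by linarith)
            linarith
          gcongr
      _ = 24 * C * 10 ^ (j + 1) * 1 * G * Real.log x ^ (j + 1) := by ring
      _ ≤ _ := by gcongr
  have h2 : (G' / z ^ 6) * ((s.divisors.card : ℝ) * Real.log G') ≤
      8 * K1 * (s.divisors.card : ℝ) * G / (Real.log x) ^ j := by
    have h3 := hK1' x (by linarith)
    rw [← hz6x] at h3
    rw [div_mul_eq_mul_div, div_le_div_iff₀ (by positivity) (by positivity)]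
    calc G' * ((s.divisors.card : ℝ) * Real.log G') * Real.log x ^ j
        ≤ (4 * G) * ((s.divisors.card : ℝ) * (2 * Real.log x)) * Real.log x ^ j := by
          have h0 : 0 ≤ Real.log G' := Real.log_nonneg (by linarith)
          gcongr
      _ = 8 * (s.divisors.card : ℝ) * G * Real.log x ^ (j + 1) := by ring
      _ ≤ 8 * (s.divisors.card : ℝ) * G * (K1 * z ^ 6) := by gcongr
      _ = _ := by ring
  calc _ ≤ 24 * C * 10 ^ (j + 1) * (s.divisors.card : ℝ) * G / (Real.log x) ^ j +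
        8 * K1 * (s.divisors.card : ℝ) * G / (Real.log x) ^ j := add_le_add h1 h2
    _ = _ := by ring

theorem SWp_al4 (u n G' : ℕ) (hn : n ≤ G') :
    al4 u n = cvl (fun _ => 1) u G' n := by
  unfold al4 cvl
  have e := Nat.sum_divisorsAntidiagonal' (n := n)
    (fun _ j : ℕ => if u < j then vM j else 0)
  rw [← e]
  apply Finset.sum_congr rfl
  intro p hp
  have h1 : p.2 ≤ G' :=
    (Nat.divisor_le (Nat.snd_mem_divisors_of_mem_antidiagonal hp)).trans hn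
  by_cases h2 : u < p.2
  · simp [h1, h2]
  · simp [h2]

theorem SWp_al2 (u n : ℕ) :
    al2 u n = cvl (fun l => if l ≤ u then mu l else 0) 0 u n := by
  unfold al2 cvl
  apply Finset.sum_congr rfl
  intro p hp
  have h1 : 0 < p.2 := Nat.pos_of_mem_divisors (Nat.snd_mem_divisors_of_mem_antidiagonal hp)
  by_cases h2 : p.1 ≤ u <;> by_cases h3 : p.2 ≤ u <;> simp [h1, h2, h3]

/-- the constant sequence -/
theorem SWp_one (j : ℕ) : ∃ K : ℝ, 0 ≤ K ∧ ∀ (x z : ℝ), 2 ≤ z → x = z ^ 60 →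
    ∀ G G' : ℕ, z ^ 6 ≤ (G : ℝ) → G ≤ G' → ∀ r s : ℕ, 1 ≤ r → 1 ≤ s →
    SWpNear G G' (fun _ => 1) r s (K * (s.divisors.card : ℝ) * G / (Real.log x) ^ j) := by
  obtain ⟨K1, hK1, hK1'⟩ := Pool.Agent.SWz.logpow j (1 / 10) (by norm_num)
  refine ⟨K1, by positivity, ?_⟩
  intro x z hz hx G G' hG hGG r s hr hs
  have hz0 : 0 < z := by linarith
  have hx1 : 1 < x := by rw [hx]; exact one_lt_pow₀ (by linarith) (by norm_num)
  have hlogx0 : 0 < Real.log x := Real.log_pos hx1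
  refine ⟨_, fun c hc => (SWpB_one r s hr hs G G' hGG c hc).trans ?_⟩
  have hz6x : z ^ 6 = x ^ (1 / 10 : ℝ) := by
    rw [hx, ← Real.rpow_natCast, ← Real.rpow_natCast, ← Real.rpow_mul hz0.le]
    norm_num
  have h3 := hK1' x hx1.le
  rw [← hz6x] at h3
  rw [le_div_iff₀ (by positivity)]
  calc (s.divisors.card : ℝ) * Real.log x ^ j ≤ (s.divisors.card : ℝ) * (K1 * z ^ 6) := by gcongr
    _ ≤ (s.divisors.card : ℝ) * (K1 * G) := by gcongr
    _ = _ := by ring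

/-- the Moebius function -/
theorem SWp_mu (hmu : SWmu) (j : ℕ) : ∃ K : ℝ, 0 ≤ K ∧ ∀ (x z : ℝ), 2 ≤ z → x = z ^ 60 →
    ∀ G G' : ℕ, z ^ 6 ≤ (G : ℝ) → G ≤ G' → G' ≤ 4 * G → ∀ r s : ℕ, 1 ≤ r → 1 ≤ s →
    SWpNear G G' mu r s (K * (s.divisors.card : ℝ) * G / (Real.log x) ^ j) := by
  obtain ⟨C, hC⟩ := hmu j
  refine ⟨8 * |C| * 10 ^ j, by positivity, ?_⟩
  intro x z hz hx G G' hG hGG hG' r s hr hs
  have hz0 : 0 < z := by linarith
  have hx1 : 1 < x := by rw [hx]; exact one_lt_pow₀ (by linarith) (by norm_num)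
  have hlogx0 : 0 < Real.log x := Real.log_pos hx1
  have hz6 : Real.log (z ^ 6) = Real.log x / 10 := by
    rw [hx, Real.log_pow, Real.log_pow]; push_cast; ring
  have hz64 : (2 : ℝ) ≤ z ^ 6 := by
    calc (2 : ℝ) ≤ 2 ^ 6 := by norm_num
      _ ≤ z ^ 6 := pow_le_pow_left₀ (by norm_num) hz 6
  have hG2 : (2 : ℝ) ≤ G := hz64.trans hG
  have hGG' : (G : ℝ) ≤ G' := by exact_mod_cast hGG
  have hG'4 : (G' : ℝ) ≤ 4 * G := by exact_mod_cast hG'
  have key : ∀ Y : ℕ, (G : ℝ) ≤ Y → (Y : ℝ) ≤ 4 * G → ∀ c : ℤ, IsCoprime c (r : ℤ) →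
      |∑ n ∈ Icc 1 Y, (if (r : ℤ) ∣ (n : ℤ) - c ∧ Nat.Coprime n s then mu n else 0)| ≤
        4 * |C| * 10 ^ j * (s.divisors.card : ℝ) * G / (Real.log x) ^ j := by
    intro Y hY1 hY2 c hc
    have h1 := hC Y (by linarith) r s c hr hs hc
    rw [Nat.floor_natCast] at h1
    refine h1.trans ?_
    have hlogY : Real.log x / 10 ≤ Real.log Y := by
      rw [← hz6]
      exact Real.log_le_log (by linarith) (by linarith)
    calc C * (s.divisors.card : ℝ) * Y / (Real.log Y) ^ j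
        ≤ |C| * (s.divisors.card : ℝ) * (4 * G) / (Real.log x / 10) ^ j := by
          have h0 := le_abs_self C
          gcongr
      _ = _ := by
          rw [div_pow, div_div_eq_mul_div]
          ring
  refine ⟨0, fun c hc => ?_⟩
  rw [sub_zero]
  have hI : ∀ N : ℕ, Icc 1 N = Ioc 0 N := fun N => by ext n; simp [Nat.succ_le_iff]
  have h2 : (∑ n ∈ Ioc G G', if (r : ℤ) ∣ (n : ℤ) - c ∧ Nat.Coprime n s then mu n else 0) =
      (∑ n ∈ Icc 1 G', if (r : ℤ) ∣ (n : ℤ) - c ∧ Nat.Coprime n s then mu n else 0) -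
      (∑ n ∈ Icc 1 G, if (r : ℤ) ∣ (n : ℤ) - c ∧ Nat.Coprime n s then mu n else 0) := by
    rw [hI, hI, ← Finset.sum_Ioc_consecutive _ (Nat.zero_le G) hGG]
    ring
  rw [h2]
  refine (abs_sub _ _).trans ?_
  have h3 := key G' hGG' hG'4 c hc
  have h4 := key G le_rfl (by linarith) c hc
  calc _ ≤ 4 * |C| * 10 ^ j * (s.divisors.card : ℝ) * G / (Real.log x) ^ j +
      4 * |C| * 10 ^ j * (s.divisors.card : ℝ) * G / (Real.log x) ^ j := add_le_add h3 h4
    _ = _ := by ring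

theorem SWpNear_mono (G G' : ℕ) (β : ℕ → ℝ) (r s : ℕ) (E E' : ℝ) (h : E ≤ E')
    (h1 : SWpNear G G' β r s E) : SWpNear G G' β r s E' := by
  obtain ⟨M0, hM⟩ := h1
  exact ⟨M0, fun c hc => (hM c hc).trans h⟩

theorem SWpNear_congr (G G' : ℕ) (β β' : ℕ → ℝ) (r s : ℕ) (E : ℝ)
    (h : ∀ n, G < n → n ≤ G' → β n = β' n)
    (h1 : SWpNear G G' β' r s E) : SWpNear G G' β r s E := by
  obtain ⟨M0, hM⟩ := h1
  refine ⟨M0, fun c hc => ?_⟩
  have : (∑ n ∈ Ioc G G', if (r : ℤ) ∣ (n : ℤ) - c ∧ Nat.Coprime n s then β n else 0) =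
      ∑ n ∈ Ioc G G', if (r : ℤ) ∣ (n : ℤ) - c ∧ Nat.Coprime n s then β' n else 0 := by
    apply Finset.sum_congr rfl
    intro n hn
    rw [mem_Ioc] at hn
    rw [h n hn.1 hn.2]
  rw [this]
  exact hM c hc

theorem SWp_le (k k' t g L : ℝ) (j : ℕ) (h : k ≤ k') (ht : 0 ≤ t) (hg : 0 ≤ g) (hL : 0 ≤ L) :
    k * t * g / L ^ j ≤ k' * t * g / L ^ j := by
  gcongr

theorem sw_pieces (hmu : SWmu) (hLam : SWLam) : ∃ (K : ℕ → ℝ) (x0 : ℝ), ∀ x : ℝ, x0 ≤ x →
    ∀ u : ℕ, (u : ℝ) ^ 3 ≤ x → x ≤ 8 * (u : ℝ) ^ 3 → ∀ G G' : ℕ, x ^ (1 / 3 : ℝ) / 4 ≤ (G : ℝ) →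
    (G : ℝ) ≤ x → G ≤ G' → G' ≤ 4 * G → ∀ β : ℕ → ℝ, Piece x u G β →
    SW K x G (rst G G' β) := by
  choose K1 hK1 h1 using SWp_one
  choose K2 hK2 h2 using SWp_mu hmu
  choose K3 hK3 h3 using SWp_conv hLam
  refine ⟨fun j => 2 * (K1 j + K2 j + K3 j), 2 ^ 60, ?_⟩
  intro x hx u hu1 hu2 G G' hG hGx hGG hG' β hβ
  have hx0 : 0 < x := lt_of_lt_of_le (by norm_num) hx
  set z : ℝ := x ^ (1 / 60 : ℝ) with hz
  have hz0 : 0 < z := Real.rpow_pos_of_pos hx0 _
  have hxz : x = z ^ 60 := by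
    rw [hz, ← Real.rpow_natCast, ← Real.rpow_mul hx0.le]
    norm_num
  have hz2 : 2 ≤ z := by
    rw [hxz] at hx
    exact le_of_pow_le_pow_left₀ (by norm_num) hz0.le hx
  have h13 : x ^ (1 / 3 : ℝ) = z ^ 20 := by
    rw [hxz, ← Real.rpow_natCast, ← Real.rpow_natCast, ← Real.rpow_mul hz0.le]
    norm_num
  have h920 : x ^ (9 / 20 : ℝ) = z ^ 27 := by
    rw [hxz, ← Real.rpow_natCast, ← Real.rpow_natCast, ← Real.rpow_mul hz0.le]
    norm_num
  have hpow : ∀ m : ℕ, (1 : ℝ) ≤ z ^ m := fun m => one_le_pow₀ (by linarith)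
  have h16 : (16384 : ℝ) ≤ z ^ 14 := by
    calc (16384 : ℝ) = 2 ^ 14 := by norm_num
      _ ≤ z ^ 14 := pow_le_pow_left₀ (by norm_num) hz2 14
  have hz20 : z ^ 20 = z ^ 6 * z ^ 14 := by ring
  have hG6 : z ^ 6 ≤ (G : ℝ) := by
    rw [h13] at hG
    have := hpow 6
    nlinarith
  have hu20 : (u : ℝ) ≤ z ^ 20 := by
    have : (u : ℝ) ^ 3 ≤ (z ^ 20) ^ 3 := by
      rw [← pow_mul, ← hxz]; exact hu1
    exact le_of_pow_le_pow_left₀ (by norm_num) (by positivity) this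
  have hu20' : z ^ 20 ≤ 2 * (u : ℝ) := by
    have : (z ^ 20) ^ 3 ≤ (2 * (u : ℝ)) ^ 3 := by
      rw [← pow_mul, ← hxz]
      calc x ≤ 8 * (u : ℝ) ^ 3 := hu2
        _ = _ := by ring
    exact le_of_pow_le_pow_left₀ (by norm_num) (by positivity) this
  have hu6 : z ^ 6 ≤ (u : ℝ) := by
    have := hpow 6
    nlinarith
  have hlogx0 : 0 < Real.log x := by
    apply Real.log_pos
    calc (1 : ℝ) < 2 ^ 60 := by norm_num
      _ ≤ x := hx
  apply SWp_of (fun j => K1 j + K2 j + K3 j) x G G' hG'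
  intro j r s hr hs
  have hG0 : (0 : ℝ) ≤ G := by positivity
  rcases hβ with rfl | rfl | rfl | ⟨rfl, h9⟩
  · refine SWpNear_mono _ _ _ _ _ _ _ ?_ (h1 j x z hz2 hxz G G' hG6 hGG r s hr hs)
    have := hK2 j
    have := hK3 j
    exact SWp_le _ _ _ _ _ _ (by linarith) (Nat.cast_nonneg _) hG0 hlogx0.le
  · refine SWpNear_mono _ _ _ _ _ _ _ ?_ (h2 j x z hz2 hxz G G' hG6 hGG hG' r s hr hs)
    have := hK1 j
    have := hK3 j
    exact SWp_le _ _ _ _ _ _ (by linarith) (Nat.cast_nonneg _) hG0 hlogx0.le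
  · refine SWpNear_mono _ _ _ _ _ _ _ ?_ (SWpNear_congr _ _ _ _ _ _ _
      (fun n _ hn2 => SWp_al4 u n G' hn2)
      (h3 j x z hz2 hxz G G' hG6 hGx hGG hG' (fun _ => 1) u G' (by simp) ?_ r s hr hs))
    · have := hK1 j
      have := hK2 j
      exact SWp_le _ _ _ _ _ _ (by linarith) (Nat.cast_nonneg _) hG0 hlogx0.le
    · intro l _ _ _
      refine hu6.trans ?_
      exact_mod_cast le_max_right _ _
  · refine SWpNear_mono _ _ _ _ _ _ _ ?_ (SWpNear_congr _ _ _ _ _ _ _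
      (fun n _ _ => SWp_al2 u n)
      (h3 j x z hz2 hxz G G' hG6 hGx hGG hG' (fun l => if l ≤ u then mu l else 0) 0 u ?_ ?_
        r s hr hs))
    · have := hK1 j
      have := hK2 j
      exact SWp_le _ _ _ _ _ _ (by linarith) (Nat.cast_nonneg _) hG0 hlogx0.le
    · intro l
      split_ifs
      · exact abs_mu_le l
      · simp
    · intro l hl hw _
      have hlu : l ≤ u := by
        by_contra h
        exact hw (if_neg h)
      have hl0 : (0 : ℝ) < l := by exact_mod_cast hl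
      have hlz : (l : ℝ) ≤ z ^ 20 := by
        have : (l : ℝ) ≤ u := by exact_mod_cast hlu
        linarith
      rw [h920] at h9
      have h4 : (G : ℝ) < l * (((G / l : ℕ) : ℝ) + 1) := by
        have := Nat.lt_mul_div_succ G (show 0 < l from hl)
        exact_mod_cast this
      have h5 : z ^ 7 * z ^ 20 < z ^ 20 * (((G / l : ℕ) : ℝ) + 1) := by
        have h10 : z ^ 7 * z ^ 20 = z ^ 27 := by rw [← pow_add]
        have h11 : (l : ℝ) * (((G / l : ℕ) : ℝ) + 1) ≤ z ^ 20 * (((G / l : ℕ) : ℝ) + 1) := by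
          gcongr
        rw [h10]
        exact lt_of_le_of_lt h9 (lt_of_lt_of_le h4 h11)
      have h6 : z ^ 7 < ((G / l : ℕ) : ℝ) + 1 := by
        have hz20' : 0 < z ^ 20 := by positivity
        by_contra h7
        push Not at h7
        nlinarith
      have h7 : z ^ 6 ≤ ((G / l : ℕ) : ℝ) := by
        have h8 : z ^ 7 = z ^ 6 * z := by ring
        have := hpow 6
        nlinarith
      refine h7.trans ?_
      exact_mod_cast le_max_left _ _

end Pool.Agent.BGV
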