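import Pool.Agent.BGV.Conv

/-! Boundary terms: divisor function against `|kap|` in short intervals. -/

set_option autoImplicit false

namespace Pool.Agent.BGV

open Finset Pool.Agent.BV

theorem class_rep (q : ℕ) (hq : 1 ≤ q) (a : ℤ) (ha : IsCoprime a (q : ℤ)) :
    ∃ c : ℕ, c.Coprime q ∧ ∀ n : ℕ, ((q : ℤ) ∣ (n : ℤ) - a ↔ n ≡ c [MOD q]) := by
  have hqz : (0 : ℤ) < q := by exact_mod_cast hq
  have hnn : 0 ≤ a % (q : ℤ) := Int.emod_nonneg _ hqz.ne'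
  refine ⟨(a % q).toNat, ?_, fun n => ?_⟩
  · rw [← Nat.isCoprime_iff_coprime, Int.toNat_of_nonneg hnn, Int.emod_def]
    have : a - (q : ℤ) * (a / q) = a + (q : ℤ) * (-(a / q)) := by ring
    rw [this]
    exact IsCoprime.add_mul_left_left ha _
  · rw [← Int.natCast_modEq_iff, Int.toNat_of_nonneg hnn]
    have e1 : ((n : ℤ) ≡ a % q [ZMOD q]) ↔ ((n : ℤ) ≡ a [ZMOD q]) := by
      constructor
      · intro h; exact h.trans (Int.mod_modEq _ _)
      · intro h; exact h.trans (Int.mod_modEq _ _).symm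
    rw [e1, Int.modEq_iff_dvd, ← dvd_neg]
    simp

theorem tau_nonneg (n : ℕ) : 0 ≤ tau n := by unfold tau; positivity

theorem kap_tau : ∃ K : ℕ, ∀ (X Y q : ℕ) (a : ℤ), X ≤ Y → 1 ≤ Y → 1 ≤ q → IsCoprime a (q : ℤ) →
    ∑ k ∈ Ioc X Y, tau k * |kap q a k| ≤
      K * (1 + Real.log Y) ^ K * (((Y : ℝ) - X) / q.totient + (Y : ℝ) ^ (1 / 4 : ℝ)) := by
  obtain ⟨K1, h1⟩ := tau_ap 1 4 (by norm_num)
  obtain ⟨K2, h2⟩ := tau_short 1 4 (by norm_num)
  refine ⟨K1 + K2, fun X Y q a hXY hY hq ha => ?_⟩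
  obtain ⟨c, hc, hcl⟩ := class_rep q hq a ha
  have hφ : (0 : ℝ) < q.totient := by exact_mod_cast Nat.totient_pos.mpr hq
  have hφ1 : (1 : ℝ) ≤ q.totient := by exact_mod_cast Nat.totient_pos.mpr hq
  have hφq : (q.totient : ℝ) ≤ q := by exact_mod_cast Nat.totient_le q
  have hlog : (0 : ℝ) ≤ Real.log Y := Real.log_natCast_nonneg Y
  have hD : (0 : ℝ) ≤ (Y : ℝ) - X := sub_nonneg.mpr (by exact_mod_cast hXY)
  have hR : (0 : ℝ) ≤ (Y : ℝ) ^ (1 / 4 : ℝ) := by positivity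
  have e1 := h1 X Y q c hXY hY hq hc
  have e2 := h2 X Y hXY hY
  simp only [pow_one, Nat.cast_ofNat] at e1 e2
  have hle : ∑ k ∈ Ioc X Y, tau k * |kap q a k| ≤
      ∑ n ∈ Ioc X Y, (if n ≡ c [MOD q] then tau n else 0) +
      (∑ n ∈ Ioc X Y, tau n) * ((q.totient : ℝ))⁻¹ := by
    rw [Finset.sum_mul, ← Finset.sum_add_distrib]
    refine Finset.sum_le_sum fun k _ => ?_
    have hk := kap_abs_le q a k
    have ht := tau_nonneg k
    calc tau k * |kap q a k| ≤ tau k * ((if (q : ℤ) ∣ (k : ℤ) - a then 1 else 0) +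
          (if Nat.Coprime k q then ((q.totient : ℝ))⁻¹ else 0)) :=
          mul_le_mul_of_nonneg_left hk ht
      _ = tau k * (if (q : ℤ) ∣ (k : ℤ) - a then 1 else 0) +
          tau k * (if Nat.Coprime k q then ((q.totient : ℝ))⁻¹ else 0) := by ring
      _ ≤ _ := by
          apply add_le_add
          · by_cases h : k ≡ c [MOD q]
            · rw [if_pos h, if_pos ((hcl k).mpr h), mul_one]
            · rw [if_neg h, if_neg (fun h' => h ((hcl k).mp h')), mul_zero]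
          · split_ifs
            · exact le_rfl
            · rw [mul_zero]; exact mul_nonneg ht (inv_pos.mpr hφ).le
  refine hle.trans ?_
  have hb1 : (1 : ℝ) ≤ 1 + Real.log Y := by linarith
  have p1 : (K1 : ℝ) * (1 + Real.log Y) ^ K1 ≤ K1 * (1 + Real.log Y) ^ (K1 + K2) :=
    mul_le_mul_of_nonneg_left (pow_le_pow_right₀ hb1 (by omega)) (by positivity)
  have p2 : (K2 : ℝ) * (1 + Real.log Y) ^ K2 ≤ K2 * (1 + Real.log Y) ^ (K1 + K2) :=
    mul_le_mul_of_nonneg_left (pow_le_pow_right₀ hb1 (by omega)) (by positivity)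
  have hx1 : ((Y : ℝ) - X) / q ≤ ((Y : ℝ) - X) / q.totient := by
    apply div_le_div_of_nonneg_left hD hφ hφq
  have hx2 : (((Y : ℝ) - X) + (Y : ℝ) ^ (1 / 4 : ℝ)) * ((q.totient : ℝ))⁻¹ ≤
      ((Y : ℝ) - X) / q.totient + (Y : ℝ) ^ (1 / 4 : ℝ) := by
    rw [add_mul, ← div_eq_mul_inv]
    have : (Y : ℝ) ^ (1 / 4 : ℝ) * ((q.totient : ℝ))⁻¹ ≤ (Y : ℝ) ^ (1 / 4 : ℝ) * 1 :=
      mul_le_mul_of_nonneg_left (inv_le_one_of_one_le₀ hφ1) hR
    linarith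
  have hS : (0 : ℝ) ≤ ((Y : ℝ) - X) / q.totient + (Y : ℝ) ^ (1 / 4 : ℝ) := by positivity
  calc _ ≤ (K1 * (1 + Real.log Y) ^ K1 * (((Y : ℝ) - X) / q + (Y : ℝ) ^ (1 / 4 : ℝ))) +
      (K2 * (1 + Real.log Y) ^ K2 * (((Y : ℝ) - X) + (Y : ℝ) ^ (1 / 4 : ℝ))) *
        ((q.totient : ℝ))⁻¹ :=
        add_le_add e1 (mul_le_mul_of_nonneg_right e2 (inv_pos.mpr hφ).le)
    _ ≤ K1 * (1 + Real.log Y) ^ (K1 + K2) * (((Y : ℝ) - X) / q.totient + (Y : ℝ) ^ (1 / 4 : ℝ)) +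
        K2 * (1 + Real.log Y) ^ (K1 + K2) * (((Y : ℝ) - X) / q.totient + (Y : ℝ) ^ (1 / 4 : ℝ)) := by
        apply add_le_add
        · apply mul_le_mul p1 (by linarith) (by positivity) (by positivity)
        · rw [mul_assoc]
          apply mul_le_mul p2 hx2 (by positivity) (by positivity)
    _ = _ := by push_cast; ring

/-- summed over the moduli -/
theorem kap_tau_sum : ∃ K : ℕ, ∀ (Q : Finset ℕ) (X0 : ℕ), (∀ q ∈ Q, 1 ≤ q ∧ q ≤ X0) →
    ∀ (X Y : ℕ) (a : ℕ → ℤ), X ≤ Y → 1 ≤ Y →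
    ∑ q ∈ Q, (if IsCoprime (a q) (q : ℤ) then
      ∑ k ∈ Ioc X Y, tau k * |kap q (a q) k| else 0) ≤
      K * (1 + Real.log Y) ^ K *
        (((Y : ℝ) - X) * (1 + Real.log X0) ^ 2 + X0 * (Y : ℝ) ^ (1 / 4 : ℝ)) := by
  obtain ⟨K, hK⟩ := kap_tau
  refine ⟨K, fun Q X0 hQ X Y a hXY hY => ?_⟩
  have hlog : (0 : ℝ) ≤ Real.log Y := Real.log_natCast_nonneg Y
  have hD : (0 : ℝ) ≤ (Y : ℝ) - X := sub_nonneg.mpr (by exact_mod_cast hXY)
  have hQs : Q ⊆ Icc 1 X0 := fun q hq => Finset.mem_Icc.mpr (hQ q hq)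
  have h1 : ∀ q ∈ Q, (if IsCoprime (a q) (q : ℤ) then
      ∑ k ∈ Ioc X Y, tau k * |kap q (a q) k| else 0) ≤
      K * (1 + Real.log Y) ^ K * (((Y : ℝ) - X) / q.totient + (Y : ℝ) ^ (1 / 4 : ℝ)) := by
    intro q hq
    split_ifs with h
    · exact hK X Y q (a q) hXY hY (hQ q hq).1 h
    · positivity
  refine (Finset.sum_le_sum h1).trans ?_
  rw [← Finset.mul_sum]
  apply mul_le_mul_of_nonneg_left _ (by positivity)
  refine (Finset.sum_le_sum_of_subset_of_nonneg hQs fun q _ _ => by positivity).trans ?_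
  rw [Finset.sum_add_distrib]
  apply add_le_add
  · have h2 := tau_pow_sum_totient 0 X0
    simp only [pow_zero, zero_add, pow_one] at h2
    have h3 : ∑ q ∈ Icc 1 X0, ((Y : ℝ) - X) / q.totient =
        ((Y : ℝ) - X) * ∑ n ∈ Icc 1 X0, 1 / (n.totient : ℝ) := by
      rw [Finset.mul_sum]
      refine Finset.sum_congr rfl fun n _ => by ring
    rw [h3]
    exact mul_le_mul_of_nonneg_left h2 hD
  · rw [Finset.sum_const, nsmul_eq_mul]
    simp

end Pool.Agent.BGV
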