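import Pool.Agent.BGV.Defs
import Pool.Agent.BV.BilBV

/-! MP_3509fd_nt: bridge from the bilinear Bombieri–Vinogradov estimate (`Pool.Agent.BV.bil_bv`,
helper45) to the form of part G-I (helper8): all class maps, all moduli `q <= x ^ theta`,
`theta < 1/2`. -/

set_option autoImplicit false

namespace Pool.Agent.BGV

open Finset

/-- All moduli up to `x ^ theta`, all class maps. -/
theorem bilg_univ (θ : ℝ) (hθ : θ < 1 / 2) :
    BILg Set.univ (fun x => Icc 1 ⌊x ^ θ⌋₊) := by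
  intro A K
  obtain ⟨C, hC⟩ := Pool.Agent.BV.bil_bv θ hθ A K
  refine ⟨C, ?_⟩
  intro x hx a _ M N h1 h2 h3 h4 α β h5 h6 h7 h8 h9
  exact hC x hx a M N h1 h2 h3 h4 α β h5 h6 h7 h8 h9

/-- Any set of class maps, any moduli below `x ^ theta`. -/
theorem bilg_small (Acl : Set (ℕ → ℤ)) (θ : ℝ) (hθ : θ < 1 / 2) (D : ℝ → Finset ℕ)
    (hD : ∀ x : ℝ, 2 ≤ x → ∀ q ∈ D x, 1 ≤ q ∧ (q : ℝ) ≤ x ^ θ) : BILg Acl D := by
  intro A K
  obtain ⟨C, hC⟩ := Pool.Agent.BV.bil_bv θ hθ A K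
  refine ⟨C, ?_⟩
  intro x hx a _ M N h1 h2 h3 h4 α β h5 h6 h7 h8 h9
  refine le_trans ?_ (hC x hx a M N h1 h2 h3 h4 α β h5 h6 h7 h8 h9)
  apply Finset.sum_le_sum_of_subset_of_nonneg
  · intro q hq
    obtain ⟨g1, g2⟩ := hD x hx q hq
    rw [mem_Icc]
    exact ⟨g1, Nat.le_floor g2⟩
  · intro q _ _
    split_ifs
    · exact abs_nonneg _
    · exact le_rfl

end Pool.Agent.BGV
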