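import Pool.Agent.BGV.Bd
import Pool.Agent.BGV.SWp

/-! One-dimensional boxes. -/

set_option autoImplicit false

namespace Pool.Agent.BGV

open Finset Pool.Agent.BV Pool.Agent.BGG

/-- next grid point -/
noncomputable def nx (θ : ℝ) (N2 G : ℕ) : ℕ := min N2 ⌊(1 + θ) * ((G : ℝ) + 1)⌋₊

/-- grid points -/
noncomputable def Gs (θ : ℝ) (N1 N2 : ℕ) (i : ℕ) : ℕ := (nx θ N2)^[i] N1

theorem Gs_zero (θ : ℝ) (N1 N2 : ℕ) : Gs θ N1 N2 0 = N1 := rfl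

theorem Gs_succ (θ : ℝ) (N1 N2 i : ℕ) : Gs θ N1 N2 (i + 1) = nx θ N2 (Gs θ N1 N2 i) := by
  unfold Gs; rw [Function.iterate_succ_apply']

theorem nx_le (θ : ℝ) (N2 G : ℕ) : nx θ N2 G ≤ N2 := min_le_left _ _

theorem le_nx (θ : ℝ) (hθ : 0 ≤ θ) (N2 G : ℕ) (h : G ≤ N2) : G ≤ nx θ N2 G := by
  unfold nx
  refine le_min h (Nat.le_floor ?_)
  nlinarith [Nat.cast_nonneg (α := ℝ) G]

theorem nx_le' (θ : ℝ) (hθ : 0 ≤ θ) (N2 G : ℕ) : (nx θ N2 G : ℝ) ≤ (1 + θ) * ((G : ℝ) + 1) := by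
  unfold nx
  refine le_trans (by exact_mod_cast min_le_right _ _) (Nat.floor_le ?_)
  positivity

theorem Gs_le (θ : ℝ) (N1 N2 : ℕ) (h : N1 ≤ N2) (i : ℕ) : Gs θ N1 N2 i ≤ N2 := by
  cases i with
  | zero => exact h
  | succ i => rw [Gs_succ]; exact nx_le _ _ _

theorem Gs_mono (θ : ℝ) (hθ : 0 ≤ θ) (N1 N2 : ℕ) (h : N1 ≤ N2) (i : ℕ) :
    Gs θ N1 N2 i ≤ Gs θ N1 N2 (i + 1) := by
  rw [Gs_succ]; exact le_nx θ hθ N2 _ (Gs_le θ N1 N2 h i)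

theorem Gs_ge (θ : ℝ) (hθ : 0 ≤ θ) (N1 N2 : ℕ) (h : N1 ≤ N2) (i : ℕ) : N1 ≤ Gs θ N1 N2 i := by
  induction i with
  | zero => exact le_rfl
  | succ i ih => exact ih.trans (Gs_mono θ hθ N1 N2 h i)

theorem Gs_grow (θ : ℝ) (hθ : 0 ≤ θ) (N1 N2 : ℕ) (h : N1 ≤ N2) (i : ℕ) :
    Gs θ N1 N2 i = N2 ∨ (N1 : ℝ) * (1 + θ) ^ i ≤ Gs θ N1 N2 i := by
  induction i with
  | zero => right; simp [Gs_zero]
  | succ i ih =>
    rcases ih with h1 | h1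
    · left
      apply le_antisymm (Gs_le θ N1 N2 h _)
      have := Gs_mono θ hθ N1 N2 h i
      omega
    · rw [Gs_succ]
      unfold nx
      rcases le_total N2 ⌊(1 + θ) * (((Gs θ N1 N2 i : ℕ) : ℝ) + 1)⌋₊ with h2 | h2
      · left; exact min_eq_left h2
      · right
        rw [min_eq_right h2]
        have h3 := Nat.sub_one_lt_floor ((1 + θ) * (((Gs θ N1 N2 i : ℕ) : ℝ) + 1))
        have h4 : (N1 : ℝ) * (1 + θ) ^ (i + 1) = (N1 * (1 + θ) ^ i) * (1 + θ) := by ring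
        rw [h4]
        have h5 : ((N1 : ℝ) * (1 + θ) ^ i) * (1 + θ) ≤ (Gs θ N1 N2 i : ℝ) * (1 + θ) :=
          mul_le_mul_of_nonneg_right h1 (by linarith)
        nlinarith

theorem Gs_end (θ : ℝ) (hθ : 0 ≤ θ) (N1 N2 : ℕ) (h : N1 ≤ N2) (K : ℕ)
    (hK : (N2 : ℝ) ≤ N1 * (1 + θ) ^ K) : Gs θ N1 N2 K = N2 := by
  rcases Gs_grow θ hθ N1 N2 h K with h1 | h1
  · exact h1
  · apply le_antisymm (Gs_le θ N1 N2 h K)
    have : (N2 : ℝ) ≤ Gs θ N1 N2 K := hK.trans h1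
    exact_mod_cast this

theorem sum_split (θ : ℝ) (hθ : 0 ≤ θ) (N1 N2 : ℕ) (h : N1 ≤ N2) (f : ℕ → ℝ) (K : ℕ) :
    ∑ n ∈ Ioc N1 (Gs θ N1 N2 K), f n =
      ∑ i ∈ range K, ∑ n ∈ Ioc (Gs θ N1 N2 i) (Gs θ N1 N2 (i + 1)), f n := by
  induction K with
  | zero => simp [Gs_zero]
  | succ K ih =>
    rw [Finset.sum_range_succ, ← ih]
    exact (Finset.sum_Ioc_consecutive f (Gs_ge θ hθ N1 N2 h K) (Gs_mono θ hθ N1 N2 h K)).symm

/-- the sum over a full box -/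
noncomputable def FS (Y Z G G' : ℕ) (α β : ℕ → ℝ) (W : ℕ → ℝ) : ℝ :=
  ∑ n ∈ Ioc G G', ∑ m ∈ Icc 1 Z,
    (if Y < m * (G + 1) ∧ m * G' ≤ Z then α m else 0) * β n * W (m * n)

/-- the boundary weight -/
noncomputable def bw (Y' Z' : ℕ) (W : ℕ → ℝ) (k : ℕ) : ℝ := if k ≤ Y' ∨ Z' < k then |W k| else 0

theorem bw_nonneg (Y' Z' : ℕ) (W : ℕ → ℝ) (k : ℕ) : 0 ≤ bw Y' Z' W k := by
  unfold bw; split_ifs <;> positivity

theorem box_one (Y Z : ℕ) (G G' : ℕ) (θ : ℝ) (hθ : 0 ≤ θ)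
    (hG : (G' : ℝ) ≤ (1 + θ) * ((G : ℝ) + 1)) (α β : ℕ → ℝ) (W : ℕ → ℝ) (B : ℝ) (hB : 0 ≤ B)
    (hαβ : ∀ m n, G < n → n ≤ G' → m * n ≤ Z → |α m| * |β n| ≤ B) :
    |∑ n ∈ Ioc G G', ∑ m ∈ Ioc (Y / n) (Z / n), α m * β n * W (m * n) - FS Y Z G G' α β W| ≤
      B * ∑ n ∈ Ioc G G', ∑ m ∈ Ioc (Y / n) (Z / n),
        bw ⌊(1 + θ) * (Y : ℝ)⌋₊ ⌊(Z : ℝ) / (1 + θ)⌋₊ W (m * n) := by
  unfold FS
  rw [← Finset.sum_sub_distrib, Finset.mul_sum]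
  refine (Finset.abs_sum_le_sum_abs _ _).trans (Finset.sum_le_sum fun n hn => ?_)
  rw [Finset.mem_Ioc] at hn
  have hn1 : 1 ≤ n := by omega
  have e : ∑ m ∈ Icc 1 Z, (if Y < m * (G + 1) ∧ m * G' ≤ Z then α m else 0) * β n * W (m * n) =
      ∑ m ∈ Ioc (Y / n) (Z / n),
        (if Y < m * (G + 1) ∧ m * G' ≤ Z then α m else 0) * β n * W (m * n) := by
    refine Finset.sum_congr_of_eq_on_inter ?_ ?_ ?_
    · intro m hm hm'
      rw [Finset.mem_Ioc, Nat.div_lt_iff_lt_mul hn1, Nat.le_div_iff_mul_le hn1] at hm'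
      rw [if_neg, zero_mul, zero_mul]
      rintro ⟨h1, h2⟩
      apply hm'
      constructor
      · exact lt_of_lt_of_le h1 (Nat.mul_le_mul_left m (by omega))
      · exact (Nat.mul_le_mul_left m hn.2).trans h2
    · intro m hm hm'
      rw [Finset.mem_Ioc, Nat.div_lt_iff_lt_mul hn1, Nat.le_div_iff_mul_le hn1] at hm
      rw [Finset.mem_Icc] at hm'
      exfalso
      apply hm'
      have hm1 : 1 ≤ m := by
        rcases Nat.eq_zero_or_pos m with h0 | h0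
        · subst h0; simp at hm
        · exact h0
      have : m ≤ m * n := Nat.le_mul_of_pos_right m hn1
      omega
    · intro m _ _; rfl
  rw [e, ← Finset.sum_sub_distrib, Finset.mul_sum]
  refine (Finset.abs_sum_le_sum_abs _ _).trans (Finset.sum_le_sum fun m hm => ?_)
  rw [Finset.mem_Ioc, Nat.div_lt_iff_lt_mul hn1, Nat.le_div_iff_mul_le hn1] at hm
  by_cases hf : Y < m * (G + 1) ∧ m * G' ≤ Z
  · rw [if_pos hf, sub_self, abs_zero]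
    exact mul_nonneg hB (bw_nonneg _ _ _ _)
  · rw [if_neg hf, zero_mul, zero_mul, sub_zero, abs_mul, abs_mul]
    have hb : bw ⌊(1 + θ) * (Y : ℝ)⌋₊ ⌊(Z : ℝ) / (1 + θ)⌋₊ W (m * n) = |W (m * n)| := by
      unfold bw
      rw [if_pos]
      have h1θ : 0 < 1 + θ := by linarith
      have hGn : (G : ℝ) + 1 ≤ n := by exact_mod_cast hn.1
      have hnG : (n : ℝ) ≤ G' := by exact_mod_cast hn.2
      have hm0 : (0 : ℝ) ≤ m := Nat.cast_nonneg m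
      rw [not_and_or, not_lt, not_le] at hf
      rcases hf with hf | hf
      · left
        apply Nat.le_floor
        have h1 : (m : ℝ) * ((G : ℝ) + 1) ≤ Y := by exact_mod_cast hf
        push_cast
        calc (m : ℝ) * n ≤ m * G' := mul_le_mul_of_nonneg_left hnG hm0
          _ ≤ m * ((1 + θ) * ((G : ℝ) + 1)) := mul_le_mul_of_nonneg_left hG hm0
          _ = (1 + θ) * (m * ((G : ℝ) + 1)) := by ring
          _ ≤ (1 + θ) * Y := mul_le_mul_of_nonneg_left h1 h1θ.le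
      · right
        have h1 : (Z : ℝ) < m * G' := by exact_mod_cast hf
        rw [Nat.floor_lt (by positivity), div_lt_iff₀ h1θ]
        push_cast
        calc (Z : ℝ) < m * G' := h1
          _ ≤ m * ((1 + θ) * ((G : ℝ) + 1)) := mul_le_mul_of_nonneg_left hG hm0
          _ = (m * ((G : ℝ) + 1)) * (1 + θ) := by ring
          _ ≤ (m * n) * (1 + θ) := by
              apply mul_le_mul_of_nonneg_right _ h1θ.le
              exact mul_le_mul_of_nonneg_left hGn hm0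
    rw [hb]
    exact mul_le_mul_of_nonneg_right (hαβ m n hn.1 hn.2 hm.2) (abs_nonneg _)

/-- the total boundary weight is a divisor sum -/
theorem bw_total (Y Z N1 N2 : ℕ) (hN : N2 ≤ Z) (Y' Z' : ℕ) (W : ℕ → ℝ) :
    ∑ n ∈ Ioc N1 N2, ∑ m ∈ Ioc (Y / n) (Z / n), bw Y' Z' W (m * n) ≤
      ∑ k ∈ Ioc Y Y', tau k * |W k| + ∑ k ∈ Ioc Z' Z, tau k * |W k| := by
  have h1 : ∑ n ∈ Ioc N1 N2, ∑ m ∈ Ioc (Y / n) (Z / n), bw Y' Z' W (m * n) ≤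
      ∑ n ∈ Icc 1 Z, ∑ m ∈ Ioc (Y / n) (Z / n), bw Y' Z' W (m * n) := by
    apply Finset.sum_le_sum_of_subset_of_nonneg
    · intro n hn
      rw [Finset.mem_Ioc] at hn
      rw [Finset.mem_Icc]; omega
    · intro n _ _
      exact Finset.sum_nonneg fun m _ => bw_nonneg _ _ _ _
  refine h1.trans ?_
  rw [← P2_right Y Z (fun m n => bw Y' Z' W (m * n)), ← sum_anti]
  have h2 : ∀ k ∈ Ioc Y Z, ∑ p ∈ k.divisorsAntidiagonal, bw Y' Z' W (p.1 * p.2) =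
      tau k * bw Y' Z' W k := by
    intro k _
    have : ∀ p ∈ k.divisorsAntidiagonal, bw Y' Z' W (p.1 * p.2) = bw Y' Z' W k := by
      intro p hp
      rw [(Nat.mem_divisorsAntidiagonal.mp hp).1]
    rw [Finset.sum_congr rfl this, Finset.sum_const, nsmul_eq_mul]
    congr 1
    unfold tau
    rw [← Nat.map_div_right_divisors, Finset.card_map]
  rw [Finset.sum_congr rfl h2]
  have h3 : ∀ k ∈ Ioc Y Z, tau k * bw Y' Z' W k ≤
      (if k ∈ Ioc Y Y' then tau k * |W k| else 0) + (if k ∈ Ioc Z' Z then tau k * |W k| else 0) := by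
    intro k hk
    rw [Finset.mem_Ioc] at hk
    have ht : 0 ≤ tau k * |W k| := mul_nonneg (tau_nonneg k) (abs_nonneg _)
    unfold bw
    by_cases h4 : k ≤ Y'
    · rw [if_pos (Or.inl h4), if_pos (Finset.mem_Ioc.mpr ⟨hk.1, h4⟩)]
      have : 0 ≤ (if k ∈ Ioc Z' Z then tau k * |W k| else 0) := by split_ifs <;> [exact ht; exact le_rfl]
      linarith
    · by_cases h5 : Z' < k
      · rw [if_pos (Or.inr h5), if_pos (Finset.mem_Ioc.mpr ⟨h5, hk.2⟩)]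
        have : 0 ≤ (if k ∈ Ioc Y Y' then tau k * |W k| else 0) := by split_ifs <;> [exact ht; exact le_rfl]
        linarith
      · rw [if_neg (by tauto), mul_zero]
        have e1 : 0 ≤ (if k ∈ Ioc Y Y' then tau k * |W k| else 0) := by split_ifs <;> [exact ht; exact le_rfl]
        have e2 : 0 ≤ (if k ∈ Ioc Z' Z then tau k * |W k| else 0) := by split_ifs <;> [exact ht; exact le_rfl]
        linarith
  refine (Finset.sum_le_sum h3).trans ?_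
  rw [Finset.sum_add_distrib]
  apply add_le_add
  · rw [← Finset.sum_filter]
    apply Finset.sum_le_sum_of_subset_of_nonneg
    · intro k hk; exact (Finset.mem_filter.mp hk).2
    · intro k _ _; exact mul_nonneg (tau_nonneg k) (abs_nonneg _)
  · rw [← Finset.sum_filter]
    apply Finset.sum_le_sum_of_subset_of_nonneg
    · intro k hk; exact (Finset.mem_filter.mp hk).2
    · intro k _ _; exact mul_nonneg (tau_nonneg k) (abs_nonneg _)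

/-- the whole box sum -/
theorem BS_le (Y Z N1 N2 K : ℕ) (hN : N2 ≤ Z) (hN12 : N1 ≤ N2) (θ : ℝ) (hθ : 0 ≤ θ)
    (hK : (N2 : ℝ) ≤ N1 * (1 + θ) ^ K) (α β : ℕ → ℝ) (W : ℕ → ℝ) (B : ℝ) (hB : 0 ≤ B)
    (hαβ : ∀ m n, N1 < n → n ≤ N2 → m * n ≤ Z → |α m| * |β n| ≤ B) :
    |BS Y Z N1 N2 α β W| ≤
      ∑ i ∈ range K, |FS Y Z (Gs θ N1 N2 i) (Gs θ N1 N2 (i + 1)) α β W| +
      B * (∑ k ∈ Ioc Y ⌊(1 + θ) * (Y : ℝ)⌋₊, tau k * |W k| +
        ∑ k ∈ Ioc ⌊(Z : ℝ) / (1 + θ)⌋₊ Z, tau k * |W k|) := by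
  have hend := Gs_end θ hθ N1 N2 hN12 K hK
  set g : ℕ → ℝ := fun n => ∑ m ∈ Ioc (Y / n) (Z / n), α m * β n * W (m * n) with hg
  set b : ℕ → ℝ := fun n => ∑ m ∈ Ioc (Y / n) (Z / n),
        bw ⌊(1 + θ) * (Y : ℝ)⌋₊ ⌊(Z : ℝ) / (1 + θ)⌋₊ W (m * n) with hb
  have e1 : BS Y Z N1 N2 α β W =
      ∑ i ∈ range K, ∑ n ∈ Ioc (Gs θ N1 N2 i) (Gs θ N1 N2 (i + 1)), g n := by
    rw [← sum_split θ hθ N1 N2 hN12 g K, hend]; rfl
  have e2 : ∑ n ∈ Ioc N1 N2, b n =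
      ∑ i ∈ range K, ∑ n ∈ Ioc (Gs θ N1 N2 i) (Gs θ N1 N2 (i + 1)), b n := by
    rw [← sum_split θ hθ N1 N2 hN12 b K, hend]
  have h1 : ∀ i ∈ range K, |∑ n ∈ Ioc (Gs θ N1 N2 i) (Gs θ N1 N2 (i + 1)), g n| ≤
      |FS Y Z (Gs θ N1 N2 i) (Gs θ N1 N2 (i + 1)) α β W| +
      B * ∑ n ∈ Ioc (Gs θ N1 N2 i) (Gs θ N1 N2 (i + 1)), b n := by
    intro i _
    have h2 := box_one Y Z (Gs θ N1 N2 i) (Gs θ N1 N2 (i + 1)) θ hθ (by
      rw [Gs_succ]; exact nx_le' θ hθ N2 _) α β W B hB (fun m n h3 h4 h5 =>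
        hαβ m n (lt_of_le_of_lt (Gs_ge θ hθ N1 N2 hN12 i) h3)
          (h4.trans (Gs_le θ N1 N2 hN12 _)) h5)
    have h3 := abs_sub_abs_le_abs_sub (∑ n ∈ Ioc (Gs θ N1 N2 i) (Gs θ N1 N2 (i + 1)), g n)
      (FS Y Z (Gs θ N1 N2 i) (Gs θ N1 N2 (i + 1)) α β W)
    linarith
  rw [e1]
  refine (Finset.abs_sum_le_sum_abs _ _).trans ((Finset.sum_le_sum h1).trans ?_)
  rw [Finset.sum_add_distrib, ← Finset.mul_sum, ← e2]
  have h4 := bw_total Y Z N1 N2 hN ⌊(1 + θ) * (Y : ℝ)⌋₊ ⌊(Z : ℝ) / (1 + θ)⌋₊ W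
  have h5 := mul_le_mul_of_nonneg_left h4 hB
  linarith

end Pool.Agent.BGV
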