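import Pool.Agent.BGV.Box

/-! A full box is a bilinear discrepancy. -/

set_option autoImplicit false

namespace Pool.Agent.BGV

open Finset Pool.Agent.BV Pool.Agent.BGG

theorem Dsc2_eq (X Y : ℕ) (α β : ℕ → ℝ) (q : ℕ) (a : ℤ) :
    Dsc2 X Y α β q a = ∑ m ∈ Icc 1 X, ∑ n ∈ Icc 1 Y, α m * β n * kap q a (m * n) := by
  unfold Dsc2
  rw [Finset.sum_div, ← Finset.sum_sub_distrib]
  refine Finset.sum_congr rfl fun m _ => ?_
  rw [Finset.sum_div, ← Finset.sum_sub_distrib]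
  refine Finset.sum_congr rfl fun n _ => ?_
  unfold kap
  rw [mul_sub]
  congr 1
  · split_ifs <;> simp
  · split_ifs
    · rw [div_eq_mul_inv]
    · simp

theorem FS_empty (Y Z G : ℕ) (α β : ℕ → ℝ) (W : ℕ → ℝ) : FS Y Z G G α β W = 0 := by
  simp [FS]

/-- the restricted first sequence -/
noncomputable def alr (Y Z G G' : ℕ) (α : ℕ → ℝ) (m : ℕ) : ℝ :=
  if Y < m * (G + 1) ∧ m * G' ≤ Z then α m else 0

theorem FS_eq (x : ℝ) (hx : 4 ≤ x) (Y Z G G' : ℕ) (hY : x ≤ (Y : ℝ) + 1) (hZ : (Z : ℝ) ≤ 3 * x)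
    (hG : G < G') (hG4 : G' ≤ 4 * G) (α β : ℕ → ℝ) (q : ℕ) (a : ℤ) :
    FS Y Z G G' α β (kap q a) =
      Dsc2 ⌊4 * ((Y : ℝ) / (G + 1))⌋₊ ⌊4 * (G : ℝ)⌋₊ (alr Y Z G G' α) (rst G G' β) q a := by
  rw [Dsc2_eq]
  unfold FS
  rw [Finset.sum_comm]
  have hf4 : ⌊4 * (G : ℝ)⌋₊ = 4 * G := by
    have : (4 * (G : ℝ)) = ((4 * G : ℕ) : ℝ) := by push_cast; ring
    rw [this, Nat.floor_natCast]
  rw [hf4]
  refine Finset.sum_congr_of_eq_on_inter ?_ ?_ ?_
  · intro m hm hm'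
    rw [Finset.mem_Icc] at hm hm'
    refine Finset.sum_eq_zero fun n _ => ?_
    rw [if_neg, zero_mul, zero_mul]
    rintro ⟨h1, h2⟩
    apply hm'
    refine ⟨hm.1, Nat.le_floor ?_⟩
    rw [mul_div_assoc', le_div_iff₀ (by positivity)]
    have h3 : (m : ℝ) * G' ≤ Z := by exact_mod_cast h2
    have h4 : (G : ℝ) + 1 ≤ G' := by exact_mod_cast hG
    have h5 : (m : ℝ) * ((G : ℝ) + 1) ≤ m * G' := mul_le_mul_of_nonneg_left h4 (Nat.cast_nonneg m)
    linarith
  · intro m hm hm'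
    rw [Finset.mem_Icc] at hm hm'
    refine Finset.sum_eq_zero fun n _ => ?_
    unfold alr
    rw [if_neg, zero_mul, zero_mul]
    rintro ⟨h1, h2⟩
    apply hm'
    refine ⟨hm.1, ?_⟩
    have : m ≤ m * G' := Nat.le_mul_of_pos_right m (by omega)
    omega
  · intro m _ _
    have e : ∀ n, rst G G' β n = if n ∈ Ioc G G' then β n else 0 := by
      intro n; unfold rst; simp [Finset.mem_Ioc]
    have : ∑ n ∈ Icc 1 (4 * G), alr Y Z G G' α m * rst G G' β n * kap q a (m * n) =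
        ∑ n ∈ Ioc G G', alr Y Z G G' α m * β n * kap q a (m * n) := by
      have hsub : Ioc G G' ⊆ Icc 1 (4 * G) := by
        intro n hn
        rw [Finset.mem_Ioc] at hn
        rw [Finset.mem_Icc]; omega
      rw [← Finset.sum_subset hsub]
      · refine Finset.sum_congr rfl fun n hn => ?_
        rw [e, if_pos hn]
      · intro n _ hn
        rw [e, if_neg hn]; ring
    rw [this]
    rfl

theorem FS_bound (Acl : Set (ℕ → ℤ)) (D : ℝ → Finset ℕ) (hB : BILg Acl D) (A : ℕ) (K : ℕ → ℝ) :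
    ∃ C : ℝ, 0 ≤ C ∧ ∀ x : ℝ, 4 ≤ x → ∀ a ∈ Acl, ∀ Y Z G G' : ℕ, x ≤ (Y : ℝ) + 1 →
      (Y : ℝ) ≤ 3 * x → (Z : ℝ) ≤ 3 * x → x ^ (1 / 3 : ℝ) / 4 ≤ G → (G : ℝ) ≤ 4 * x ^ (1 / 2 : ℝ) →
      3 ≤ G' → G ≤ G' → G' ≤ 4 * G → ∀ α β : ℕ → ℝ, (∀ m : ℕ, (m : ℝ) ≤ x → |α m| ≤ Real.log x) →
      (∀ n : ℕ, n ≤ G' → |β n| ≤ Real.log x) → SW K x G (rst G G' β) →
      ∑ q ∈ D x, (if IsCoprime (a q) (q : ℤ) then |FS Y Z G G' α β (kap q (a q))| else 0) ≤
        C * x / (Real.log x) ^ A := by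
  obtain ⟨C, hC⟩ := hB A K
  refine ⟨|C|, abs_nonneg C, fun x hx a ha Y Z G G' hY hY3 hZ hG1 hG2 hG3 hGG hG4 α β hα hβ hSW => ?_⟩
  have hlog : 0 ≤ Real.log x := Real.log_nonneg (by linarith)
  rcases Nat.eq_or_lt_of_le hGG with h | h
  · subst h
    have : ∀ q ∈ D x, (if IsCoprime (a q) (q : ℤ) then |FS Y Z G G α β (kap q (a q))| else 0) = 0 := by
      intro q _
      rw [FS_empty, abs_zero]; simp
    rw [Finset.sum_eq_zero this]
    positivity
  · have e : ∀ q ∈ D x, (if IsCoprime (a q) (q : ℤ) then |FS Y Z G G' α β (kap q (a q))| else 0) =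
        (if IsCoprime (a q) (q : ℤ) then
          |Dsc2 ⌊4 * ((Y : ℝ) / (G + 1))⌋₊ ⌊4 * (G : ℝ)⌋₊ (alr Y Z G G' α) (rst G G' β) q (a q)|
          else 0) := by
      intro q _
      rw [FS_eq x hx Y Z G G' hY hZ h hG4]
    rw [Finset.sum_congr rfl e]
    have hG0 : 1 ≤ G := by omega
    have hG0' : (1 : ℝ) ≤ G := by exact_mod_cast hG0
    have hGp : (0 : ℝ) < (G : ℝ) + 1 := by positivity
    have hY0 : 0 < (Y : ℝ) := by linarith
    refine (hC x (by linarith) a ha ((Y : ℝ) / (G + 1)) G hG1 hG2 ?_ ?_ (alr Y Z G G' α)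
      (rst G G' β) ?_ ?_ ?_ ?_ hSW).trans ?_
    · rw [div_mul_eq_mul_div, le_div_iff₀ hGp]
      nlinarith
    · rw [div_mul_eq_mul_div, div_le_iff₀ hGp]
      nlinarith
    · intro m hm
      unfold alr at hm
      by_cases hc : Y < m * (G + 1) ∧ m * G' ≤ Z
      · constructor
        · rw [div_lt_iff₀ hGp]
          exact_mod_cast hc.1
        · rw [mul_div_assoc', le_div_iff₀ hGp]
          have h3 : (m : ℝ) * G' ≤ Z := by exact_mod_cast hc.2
          have h4 : (G : ℝ) + 1 ≤ G' := by exact_mod_cast h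
          have h5 : (m : ℝ) * ((G : ℝ) + 1) ≤ m * G' :=
            mul_le_mul_of_nonneg_left h4 (Nat.cast_nonneg m)
          linarith
      · rw [if_neg hc] at hm; exact absurd rfl hm
    · intro n hn
      unfold rst at hn
      by_cases hc : G < n ∧ n ≤ G'
      · constructor
        · exact_mod_cast hc.1
        · have : n ≤ 4 * G := hc.2.trans hG4
          exact_mod_cast this
      · rw [if_neg hc] at hn; exact absurd rfl hn
    · intro m
      unfold alr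
      by_cases hc : Y < m * (G + 1) ∧ m * G' ≤ Z
      · rw [if_pos hc]
        apply hα
        have h3 : (m : ℝ) * G' ≤ Z := by exact_mod_cast hc.2
        have h4 : (3 : ℝ) ≤ G' := by exact_mod_cast hG3
        nlinarith [Nat.cast_nonneg (α := ℝ) m]
      · rw [if_neg hc, abs_zero]; exact hlog
    · intro n
      unfold rst
      by_cases hc : G < n ∧ n ≤ G'
      · rw [if_pos hc]; exact hβ n hc.2
      · rw [if_neg hc, abs_zero]; exact hlog
    · have : C * x ≤ |C| * x := mul_le_mul_of_nonneg_right (le_abs_self C) (by linarith)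
      gcongr

end Pool.Agent.BGV
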