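import Pool.Agent.BGV.BoxB

/-! The estimate for a box sum. -/

set_option autoImplicit false

namespace Pool.Agent.BGV

open Finset Pool.Agent.BV Pool.Agent.BGG

theorem log_pow_le (j : ℕ) (c : ℝ) (hc : 0 < c) :
    ∃ C : ℝ, 0 < C ∧ ∀ x : ℝ, 1 ≤ x → Real.log x ^ j ≤ C * x ^ c := by
  rcases Nat.eq_zero_or_pos j with h | h
  · refine ⟨1, one_pos, fun x hx => ?_⟩
    rw [h, pow_zero, one_mul]
    exact Real.one_le_rpow hx hc.le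
  · have hj : (0 : ℝ) < j := by exact_mod_cast h
    have hcj : 0 < c / j := div_pos hc hj
    refine ⟨((c / j)⁻¹) ^ j, by positivity, fun x hx => ?_⟩
    have h0 : 0 ≤ Real.log x := Real.log_nonneg hx
    have h1 : Real.log x ≤ x ^ (c / j) / (c / j) := Real.log_le_rpow_div (by linarith) hcj
    calc Real.log x ^ j ≤ (x ^ (c / j) / (c / j)) ^ j := pow_le_pow_left₀ h0 h1 j
      _ = ((c / j)⁻¹) ^ j * (x ^ (c / j)) ^ j := by rw [div_eq_mul_inv, mul_pow, mul_comm]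
      _ = ((c / j)⁻¹) ^ j * x ^ c := by
          rw [← Real.rpow_natCast (x ^ (c / j)) j, ← Real.rpow_mul (by linarith)]
          congr 2
          field_simp

/-- the number of boxes -/
theorem boxes_count (L θ : ℝ) (_hL : 1 ≤ L) (hθ : 0 < θ) (hθ1 : θ ≤ 1) (K : ℕ)
    (hK : 2 * L / θ ≤ K) : Real.exp L ≤ (1 + θ) ^ K := by
  have h1 : 1 - (1 + θ)⁻¹ ≤ Real.log (1 + θ) := Real.one_sub_inv_le_log_of_pos (by linarith)
  have h2 : θ / 2 ≤ 1 - (1 + θ)⁻¹ := by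
    have h3 : (1 + θ) * (1 + θ)⁻¹ = 1 := mul_inv_cancel₀ (by linarith)
    have h4 : 0 < (1 + θ)⁻¹ := inv_pos.mpr (by linarith)
    nlinarith
  have h5 : L ≤ K * Real.log (1 + θ) := by
    have h6 : 2 * L ≤ K * θ := by
      rw [div_le_iff₀ hθ] at hK; exact hK
    have h7 : (K : ℝ) * (θ / 2) ≤ K * Real.log (1 + θ) :=
      mul_le_mul_of_nonneg_left (h2.trans h1) (Nat.cast_nonneg K)
    nlinarith
  calc Real.exp L ≤ Real.exp (K * Real.log (1 + θ)) := Real.exp_le_exp.mpr h5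
    _ = (1 + θ) ^ K := by
        rw [mul_comm, Real.exp_mul, Real.exp_log (by linarith), Real.rpow_natCast]

/-! small inequalities (proved outside the long context of `box_est`) -/

private theorem bx_exp2 {x : ℝ} (hx : 10 ^ 6 ≤ x) : Real.exp 2 ≤ x := by
  have h1 : Real.exp 2 = Real.exp 1 * Real.exp 1 := by rw [← Real.exp_add]; norm_num
  have h2 := Real.exp_one_lt_d9
  have h3 := Real.exp_pos 1
  nlinarith

private theorem bx_log6 : Real.log 6 ≤ 2 := by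
  rw [Real.log_le_iff_le_exp (by norm_num)]
  have h1 : Real.exp 2 = Real.exp 1 * Real.exp 1 := by rw [← Real.exp_add]; norm_num
  have h2 := Real.exp_one_gt_d9
  nlinarith

private theorem bx_13 {x : ℝ} (hx : 10 ^ 6 ≤ x) : 12 ≤ x ^ (1 / 3 : ℝ) / 4 := by
  have h1 : (48 : ℝ) = ((48 : ℝ) ^ (3 : ℝ)) ^ (1 / 3 : ℝ) := by
    rw [← Real.rpow_mul (by norm_num)]; norm_num
  have h2 : ((48 : ℝ) ^ (3 : ℝ)) ^ (1 / 3 : ℝ) ≤ x ^ (1 / 3 : ℝ) := by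
    apply Real.rpow_le_rpow (by positivity) _ (by norm_num)
    have : (48 : ℝ) ^ (3 : ℝ) = 110592 := by norm_num
    rw [this]; linarith
  linarith

private theorem bx_half {x : ℝ} (hx : 10 ^ 6 ≤ x) : 4 * x ^ (1 / 2 : ℝ) ≤ x / 100 := by
  have hx0 : 0 < x := by linarith
  have h1 : x = x ^ (1 / 2 : ℝ) * x ^ (1 / 2 : ℝ) := by
    rw [← Real.rpow_add hx0]; norm_num
  have h2 : (1000 : ℝ) ≤ x ^ (1 / 2 : ℝ) := by
    have : (1000 : ℝ) = ((10 : ℝ) ^ 6) ^ (1 / 2 : ℝ) := by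
      rw [← Real.rpow_natCast, ← Real.rpow_mul (by norm_num)]; norm_num
    rw [this]
    exact Real.rpow_le_rpow (by positivity) hx (by norm_num)
  nlinarith

private theorem bx_KN {N1 N2 x t : ℝ} (hx : 0 < x) (h1 : 1 ≤ N1) (h3 : x ≤ t)
    (h4 : N2 ≤ x / 100) : N2 ≤ N1 * t := by nlinarith

private theorem bx_m {m n Z x : ℝ} (hm : 0 ≤ m) (hn : 12 ≤ n) (h : m * n ≤ Z) (hZ : Z ≤ 3 * x) :
    m ≤ x := by nlinarith

private theorem bx_G {θ G G' : ℝ} (h1 : θ ≤ 1) (h2 : G' ≤ (1 + θ) * (G + 1)) (h3 : 12 ≤ G) :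
    G' ≤ 4 * G := by nlinarith

private theorem bx_Y {θ Y : ℝ} (h1 : 0 ≤ θ) (h2 : 0 ≤ Y) : Y ≤ (1 + θ) * Y := by nlinarith

private theorem bx_Y6 {θ Y Y' Z x : ℝ} (h1 : θ ≤ 1) (h2 : 0 ≤ Y) (h3 : Y' ≤ (1 + θ) * Y)
    (h4 : Y ≤ Z) (h5 : Z ≤ 3 * x) : Y' ≤ 6 * x := by nlinarith

private theorem bx_Yd {θ Y Y' Z x : ℝ} (h1 : 0 ≤ θ) (h3 : Y' ≤ (1 + θ) * Y)
    (h4 : Y ≤ Z) (h5 : Z ≤ 3 * x) : Y' - Y ≤ 3 * θ * x + 1 := by nlinarith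

private theorem bx_Z {θ Z : ℝ} (h1 : 0 ≤ θ) (h2 : 0 ≤ Z) : Z / (1 + θ) ≤ Z := by
  rw [div_le_iff₀ (by linarith)]; nlinarith

private theorem bx_Zd {θ Z F x : ℝ} (h1 : 0 ≤ θ) (h2 : 0 ≤ Z) (h3 : Z / (1 + θ) < F + 1)
    (h5 : Z ≤ 3 * x) : Z - F ≤ 3 * θ * x + 1 := by
  have h1θ : 0 < 1 + θ := by linarith
  have e3 : Z - Z / (1 + θ) ≤ θ * Z := by
    have e4 : Z = Z / (1 + θ) * (1 + θ) := by field_simp
    have h6 : Z / (1 + θ) ≤ Z := bx_Z h1 h2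
    nlinarith
  nlinarith

theorem box_est (w : ℝ) (hw0 : 0 < w) (hw : w ≤ 1 / 100) (Acl : Set (ℕ → ℤ)) (D : ℝ → Finset ℕ)
    (hD : ∀ x : ℝ, 2 ≤ x → ∀ q ∈ D x, 1 ≤ q ∧ (q : ℝ) ≤ x ^ (1 / 2 + 2 * w))
    (hB : BILg Acl D) (A : ℕ) (K : ℕ → ℝ) :
    ∃ C x0 : ℝ, 0 ≤ C ∧ 4 ≤ x0 ∧ ∀ x : ℝ, x0 ≤ x → ∀ a ∈ Acl, ∀ Y Z N1 N2 : ℕ, x ≤ (Y : ℝ) + 1 →
      Y ≤ Z → (Z : ℝ) ≤ 3 * x → x ^ (1 / 3 : ℝ) / 4 ≤ N1 → N1 ≤ N2 →
      (N2 : ℝ) ≤ 4 * x ^ (1 / 2 : ℝ) → ∀ α β : ℕ → ℝ,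
      (∀ m : ℕ, (m : ℝ) ≤ x → |α m| ≤ Real.log x) → (∀ n : ℕ, (n : ℝ) ≤ x → |β n| ≤ Real.log x) →
      (∀ G G' : ℕ, N1 ≤ G → G ≤ G' → G' ≤ N2 → G' ≤ 4 * G → SW K x G (rst G G' β)) →
      ∑ q ∈ D x, (if IsCoprime (a q) (q : ℤ) then |BS Y Z N1 N2 α β (kap q (a q))| else 0) ≤
        C * x / (Real.log x) ^ A := by
  obtain ⟨Kt, hKt⟩ := kap_tau_sum
  set A1 : ℕ := A + Kt + 4 with hA1
  obtain ⟨C1, hC1, hFS⟩ := FS_bound Acl D hB (A + A1 + 2) K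
  obtain ⟨C2, hC2, hlp⟩ := log_pow_le (A + Kt + 4) (23 / 100) (by norm_num)
  refine ⟨3 * C1 + (Kt * 4 ^ Kt * 2) * (12 + 6 * C2), 10 ^ 6, by positivity, by norm_num, ?_⟩
  intro x hx a ha Y Z N1 N2 hY hYZ hZ hN1 hN12 hN2 α β hα hβ hSW
  have hx1 : (1 : ℝ) ≤ x := by linarith
  have hx0 : (0 : ℝ) < x := by linarith
  have hx4 : (4 : ℝ) ≤ x := by linarith
  set L := Real.log x with hLdef
  have hL2 : 2 ≤ L := by
    rw [hLdef, Real.le_log_iff_exp_le hx0]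
    exact bx_exp2 hx
  have hL1 : 1 ≤ L := by linarith
  have hL0 : 0 < L := by linarith
  have hLA1 : 1 ≤ L ^ A1 := one_le_pow₀ hL1
  set θ : ℝ := (L ^ A1)⁻¹ with hθdef
  have hθ0 : 0 < θ := inv_pos.mpr (by linarith)
  have hθ1 : θ ≤ 1 := inv_le_one_of_one_le₀ hLA1
  -- sizes
  have hx13 : 12 ≤ x ^ (1 / 3 : ℝ) / 4 := bx_13 hx
  have hN1' : (12 : ℝ) ≤ N1 := hx13.trans hN1
  have hN1n : 12 ≤ N1 := by exact_mod_cast hN1'
  have hx12 : 4 * x ^ (1 / 2 : ℝ) ≤ x / 100 := bx_half hx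
  have hN2x : (N2 : ℝ) ≤ x / 100 := hN2.trans hx12
  have hYr : (Y : ℝ) ≤ Z := by exact_mod_cast hYZ
  have hN2Z : N2 ≤ Z := by
    have : (N2 : ℝ) ≤ Z := by linarith
    exact_mod_cast this
  -- number of boxes
  set Kb : ℕ := ⌈2 * L * L ^ A1⌉₊ with hKb
  have hKb1 : 2 * L / θ ≤ Kb := by
    rw [hθdef, div_inv_eq_mul]; exact Nat.le_ceil _
  have hKb2 : (Kb : ℝ) ≤ 3 * L ^ (A1 + 1) := by
    have h1 : (Kb : ℝ) < 2 * L * L ^ A1 + 1 := Nat.ceil_lt_add_one (by positivity)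
    have h2 : 1 ≤ L ^ (A1 + 1) := one_le_pow₀ hL1
    have h3 : 2 * L * L ^ A1 = 2 * L ^ (A1 + 1) := by ring
    linarith
  have hKe := boxes_count L θ hL1 hθ0 hθ1 Kb hKb1
  rw [hLdef, Real.exp_log hx0] at hKe
  have hKN : (N2 : ℝ) ≤ N1 * (1 + θ) ^ Kb := by
    exact bx_KN hx0 (le_trans (by norm_num) hN1') hKe hN2x
  -- the pointwise bound
  have hpt : ∀ q ∈ D x, (if IsCoprime (a q) (q : ℤ) then |BS Y Z N1 N2 α β (kap q (a q))| else 0) ≤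
      ∑ i ∈ range Kb, (if IsCoprime (a q) (q : ℤ) then
        |FS Y Z (Gs θ N1 N2 i) (Gs θ N1 N2 (i + 1)) α β (kap q (a q))| else 0) +
      L ^ 2 * ((if IsCoprime (a q) (q : ℤ) then
        ∑ k ∈ Ioc Y ⌊(1 + θ) * (Y : ℝ)⌋₊, tau k * |kap q (a q) k| else 0) +
        (if IsCoprime (a q) (q : ℤ) then
        ∑ k ∈ Ioc ⌊(Z : ℝ) / (1 + θ)⌋₊ Z, tau k * |kap q (a q) k| else 0)) := by
    intro q _
    by_cases hc : IsCoprime (a q) (q : ℤ)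
    · simp only [if_pos hc]
      refine BS_le Y Z N1 N2 Kb hN2Z hN12 θ hθ0.le hKN α β (kap q (a q)) (L ^ 2) (by positivity) ?_
      intro m n hn1 hn2 hmn
      have hn3 : (12 : ℝ) ≤ n := by
        have : 12 ≤ n := by omega
        exact_mod_cast this
      have hmn' : (m : ℝ) * n ≤ Z := by exact_mod_cast hmn
      have hm : (m : ℝ) ≤ x := bx_m (Nat.cast_nonneg m) hn3 hmn' hZ
      have hn : (n : ℝ) ≤ x := by
        have : (n : ℝ) ≤ N2 := by exact_mod_cast hn2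
        linarith
      have h1 := hα m hm
      have h2 := hβ n hn
      calc |α m| * |β n| ≤ L * L := mul_le_mul h1 h2 (abs_nonneg _) hL0.le
        _ = L ^ 2 := by ring
    · simp only [if_neg hc]; simp
  refine (Finset.sum_le_sum hpt).trans ?_
  rw [Finset.sum_add_distrib, Finset.sum_comm, ← Finset.mul_sum, Finset.sum_add_distrib]
  -- full boxes
  have hfull : ∑ i ∈ range Kb, ∑ q ∈ D x, (if IsCoprime (a q) (q : ℤ) then
        |FS Y Z (Gs θ N1 N2 i) (Gs θ N1 N2 (i + 1)) α β (kap q (a q))| else 0) ≤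
      3 * C1 * x / L ^ A := by
    have h1 : ∀ i ∈ range Kb, ∑ q ∈ D x, (if IsCoprime (a q) (q : ℤ) then
        |FS Y Z (Gs θ N1 N2 i) (Gs θ N1 N2 (i + 1)) α β (kap q (a q))| else 0) ≤
        C1 * x / L ^ (A + A1 + 2) := by
      intro i _
      have g1 : N1 ≤ Gs θ N1 N2 i := Gs_ge θ hθ0.le N1 N2 hN12 i
      have g2 : Gs θ N1 N2 i ≤ N2 := Gs_le θ N1 N2 hN12 i
      have g3 : Gs θ N1 N2 (i + 1) ≤ N2 := Gs_le θ N1 N2 hN12 (i + 1)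
      have g4 : Gs θ N1 N2 i ≤ Gs θ N1 N2 (i + 1) := Gs_mono θ hθ0.le N1 N2 hN12 i
      have g5 : Gs θ N1 N2 (i + 1) ≤ 4 * Gs θ N1 N2 i := by
        have e1 : ((Gs θ N1 N2 (i + 1) : ℕ) : ℝ) ≤ (1 + θ) * (((Gs θ N1 N2 i : ℕ) : ℝ) + 1) := by
          rw [Gs_succ]; exact nx_le' θ hθ0.le N2 _
        have e2 : (12 : ℝ) ≤ ((Gs θ N1 N2 i : ℕ) : ℝ) := by
          have : 12 ≤ Gs θ N1 N2 i := by omega
          exact_mod_cast this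
        have e3 : ((Gs θ N1 N2 (i + 1) : ℕ) : ℝ) ≤ ((4 * Gs θ N1 N2 i : ℕ) : ℝ) := by
          push_cast; exact bx_G hθ1 e1 e2
        exact_mod_cast e3
      have g1r : (N1 : ℝ) ≤ ((Gs θ N1 N2 i : ℕ) : ℝ) := by exact_mod_cast g1
      have g2r : ((Gs θ N1 N2 i : ℕ) : ℝ) ≤ (N2 : ℝ) := by exact_mod_cast g2
      have g3r : ((Gs θ N1 N2 (i + 1) : ℕ) : ℝ) ≤ (N2 : ℝ) := by exact_mod_cast g3
      refine hFS x hx4 a ha Y Z _ _ hY (by linarith) hZ (hN1.trans g1r) (g2r.trans hN2)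
        (by omega) g4 g5 α β hα ?_ (hSW _ _ g1 g4 g3 g5)
      intro n hn
      apply hβ
      have : (n : ℝ) ≤ ((Gs θ N1 N2 (i + 1) : ℕ) : ℝ) := by exact_mod_cast hn
      linarith
    refine (Finset.sum_le_card_nsmul _ _ _ h1).trans ?_
    rw [Finset.card_range, nsmul_eq_mul]
    have h2 : (0 : ℝ) ≤ C1 * x / L ^ (A + A1 + 2) := by positivity
    calc (Kb : ℝ) * (C1 * x / L ^ (A + A1 + 2)) ≤ (3 * L ^ (A1 + 1)) * (C1 * x / L ^ (A + A1 + 2)) :=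
          mul_le_mul_of_nonneg_right hKb2 h2
      _ = 3 * C1 * x / L ^ A * (1 / L) := by
          have : L ^ (A + A1 + 2) = L ^ (A1 + 1) * L ^ A * L := by ring
          rw [this]; field_simp
      _ ≤ 3 * C1 * x / L ^ A * 1 := by
          apply mul_le_mul_of_nonneg_left _ (by positivity)
          rw [div_le_one hL0]; exact hL1
      _ = 3 * C1 * x / L ^ A := mul_one _
  -- boundary
  set X0 : ℕ := ⌊x ^ (1 / 2 + 2 * w)⌋₊ with hX0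
  have hX0D : ∀ q ∈ D x, 1 ≤ q ∧ q ≤ X0 := by
    intro q hq
    have := hD x (by linarith) q hq
    exact ⟨this.1, Nat.le_floor this.2⟩
  have hX0r : (X0 : ℝ) ≤ x ^ (52 / 100 : ℝ) := by
    refine (Nat.floor_le (by positivity)).trans ?_
    apply Real.rpow_le_rpow_of_exponent_le hx1
    linarith
  have hX0L : 1 + Real.log X0 ≤ 2 * L := by
    have h1 : Real.log X0 ≤ L := by
      rcases Nat.eq_zero_or_pos X0 with h | h
      · rw [h]; simp; exact hL0.le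
      · apply Real.log_le_log (by exact_mod_cast h)
        refine hX0r.trans ?_
        calc x ^ (52 / 100 : ℝ) ≤ x ^ (1 : ℝ) := Real.rpow_le_rpow_of_exponent_le hx1 (by norm_num)
          _ = x := Real.rpow_one x
    linarith
  have hX0L0 : 0 ≤ 1 + Real.log X0 := by
    have := Real.log_natCast_nonneg X0
    linarith
  have hbd : ∀ X Y' : ℕ, X ≤ Y' → 1 ≤ Y' → (Y' : ℝ) ≤ 6 * x → (Y' : ℝ) - X ≤ 3 * θ * x + 1 →
      Kt * (1 + Real.log Y') ^ Kt *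
        (((Y' : ℝ) - X) * (1 + Real.log X0) ^ 2 + X0 * (Y' : ℝ) ^ (1 / 4 : ℝ)) ≤
      Kt * 4 ^ Kt * L ^ Kt * (12 * θ * x * L ^ 2 + 4 * L ^ 2 + 2 * x ^ (77 / 100 : ℝ)) := by
    intro X Y' hXY hY1 hY6 hdiff
    have hY0 : (0 : ℝ) < Y' := by exact_mod_cast hY1
    have h1 : 1 + Real.log Y' ≤ 4 * L := by
      have h2 : Real.log Y' ≤ Real.log (6 * x) := Real.log_le_log hY0 hY6
      rw [Real.log_mul (by norm_num) hx0.ne'] at h2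
      have h3 : Real.log 6 ≤ 2 := bx_log6
      linarith
    have h1' : 0 ≤ 1 + Real.log Y' := by
      have := Real.log_natCast_nonneg Y'
      linarith
    have h4 : (1 + Real.log Y') ^ Kt ≤ 4 ^ Kt * L ^ Kt := by
      rw [← mul_pow]; exact pow_le_pow_left₀ h1' h1 Kt
    have hXr : (X : ℝ) ≤ Y' := by exact_mod_cast hXY
    have h5 : ((Y' : ℝ) - X) * (1 + Real.log X0) ^ 2 ≤ 12 * θ * x * L ^ 2 + 4 * L ^ 2 := by
      have h6 : (1 + Real.log X0) ^ 2 ≤ 4 * L ^ 2 := by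
        calc (1 + Real.log X0) ^ 2 ≤ (2 * L) ^ 2 := pow_le_pow_left₀ hX0L0 hX0L 2
          _ = 4 * L ^ 2 := by ring
      calc ((Y' : ℝ) - X) * (1 + Real.log X0) ^ 2 ≤ (3 * θ * x + 1) * (4 * L ^ 2) :=
            mul_le_mul hdiff h6 (by positivity) (by positivity)
        _ = _ := by ring
    have h7 : (X0 : ℝ) * (Y' : ℝ) ^ (1 / 4 : ℝ) ≤ 2 * x ^ (77 / 100 : ℝ) := by
      have h8 : (Y' : ℝ) ^ (1 / 4 : ℝ) ≤ 2 * x ^ (1 / 4 : ℝ) := by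
        calc (Y' : ℝ) ^ (1 / 4 : ℝ) ≤ (6 * x) ^ (1 / 4 : ℝ) :=
              Real.rpow_le_rpow hY0.le hY6 (by norm_num)
          _ ≤ (16 * x) ^ (1 / 4 : ℝ) := Real.rpow_le_rpow (by positivity) (by linarith) (by norm_num)
          _ = 2 * x ^ (1 / 4 : ℝ) := by
              rw [Real.mul_rpow (by norm_num) hx0.le]
              congr 1
              have : (16 : ℝ) = 2 ^ (4 : ℝ) := by norm_num
              rw [this, ← Real.rpow_mul (by norm_num)]; norm_num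
      calc (X0 : ℝ) * (Y' : ℝ) ^ (1 / 4 : ℝ) ≤ x ^ (52 / 100 : ℝ) * (2 * x ^ (1 / 4 : ℝ)) :=
            mul_le_mul hX0r h8 (by positivity) (by positivity)
        _ = 2 * (x ^ (52 / 100 : ℝ) * x ^ (1 / 4 : ℝ)) := by ring
        _ = 2 * x ^ (77 / 100 : ℝ) := by rw [← Real.rpow_add hx0]; norm_num
    have h9 : 0 ≤ ((Y' : ℝ) - X) * (1 + Real.log X0) ^ 2 + X0 * (Y' : ℝ) ^ (1 / 4 : ℝ) := by
      have : 0 ≤ (Y' : ℝ) - X := by linarith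
      positivity
    calc _ ≤ Kt * (4 ^ Kt * L ^ Kt) *
          (((Y' : ℝ) - X) * (1 + Real.log X0) ^ 2 + X0 * (Y' : ℝ) ^ (1 / 4 : ℝ)) := by
          apply mul_le_mul_of_nonneg_right _ h9
          exact mul_le_mul_of_nonneg_left h4 (Nat.cast_nonneg _)
      _ ≤ Kt * (4 ^ Kt * L ^ Kt) * (12 * θ * x * L ^ 2 + 4 * L ^ 2 + 2 * x ^ (77 / 100 : ℝ)) := by
          apply mul_le_mul_of_nonneg_left _ (by positivity)
          linarith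
      _ = _ := by ring
  have hY0 : (0 : ℝ) ≤ Y := Nat.cast_nonneg _
  have hZ0 : (0 : ℝ) ≤ Z := Nat.cast_nonneg _
  have hYpos : 1 ≤ Y := by
    have : (1 : ℝ) ≤ Y := by linarith
    exact_mod_cast this
  have hb1 : ∑ q ∈ D x, (if IsCoprime (a q) (q : ℤ) then
        ∑ k ∈ Ioc Y ⌊(1 + θ) * (Y : ℝ)⌋₊, tau k * |kap q (a q) k| else 0) ≤
      Kt * 4 ^ Kt * L ^ Kt * (12 * θ * x * L ^ 2 + 4 * L ^ 2 + 2 * x ^ (77 / 100 : ℝ)) := by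
    have e1 : Y ≤ ⌊(1 + θ) * (Y : ℝ)⌋₊ := by
      apply Nat.le_floor; exact bx_Y hθ0.le hY0
    have e2 : ((⌊(1 + θ) * (Y : ℝ)⌋₊ : ℕ) : ℝ) ≤ (1 + θ) * Y := Nat.floor_le (by positivity)
    exact (hKt (D x) X0 hX0D Y _ a e1 (hYpos.trans e1)).trans (hbd _ _ e1 (hYpos.trans e1)
      (bx_Y6 hθ1 hY0 e2 hYr hZ) (bx_Yd hθ0.le e2 hYr hZ))
  have hb2 : ∑ q ∈ D x, (if IsCoprime (a q) (q : ℤ) then
        ∑ k ∈ Ioc ⌊(Z : ℝ) / (1 + θ)⌋₊ Z, tau k * |kap q (a q) k| else 0) ≤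
      Kt * 4 ^ Kt * L ^ Kt * (12 * θ * x * L ^ 2 + 4 * L ^ 2 + 2 * x ^ (77 / 100 : ℝ)) := by
    have e1 : ⌊(Z : ℝ) / (1 + θ)⌋₊ ≤ Z := by
      apply Nat.floor_le_of_le
      exact bx_Z hθ0.le hZ0
    have e2 : (Z : ℝ) / (1 + θ) < (⌊(Z : ℝ) / (1 + θ)⌋₊ : ℝ) + 1 := Nat.lt_floor_add_one _
    have hZ1 : 1 ≤ Z := hYpos.trans hYZ
    have hZ6 : (Z : ℝ) ≤ 6 * x := hZ.trans (mul_le_mul_of_nonneg_right (by norm_num) hx0.le)
    exact (hKt (D x) X0 hX0D _ Z a e1 hZ1).trans (hbd _ _ e1 hZ1 hZ6 (bx_Zd hθ0.le hZ0 e2 hZ))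
  have hlow : L ^ (Kt + 4) * x ^ (77 / 100 : ℝ) ≤ C2 * x / L ^ A := by
    rw [le_div_iff₀ (by positivity)]
    have h1 := hlp x hx1
    calc L ^ (Kt + 4) * x ^ (77 / 100 : ℝ) * L ^ A = L ^ (A + Kt + 4) * x ^ (77 / 100 : ℝ) := by ring
      _ ≤ (C2 * x ^ (23 / 100 : ℝ)) * x ^ (77 / 100 : ℝ) :=
          mul_le_mul_of_nonneg_right h1 (by positivity)
      _ = C2 * (x ^ (23 / 100 : ℝ) * x ^ (77 / 100 : ℝ)) := by ring
      _ = C2 * x := by rw [← Real.rpow_add hx0]; norm_num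
  have hbig : 1 ≤ x ^ (77 / 100 : ℝ) := Real.one_le_rpow hx1 (by norm_num)
  have hθx : L ^ (Kt + 4) * θ = 1 / L ^ A := by
    rw [hθdef, hA1]
    have : L ^ (A + Kt + 4) = L ^ (Kt + 4) * L ^ A := by ring
    rw [this]; field_simp
  have hfin : L ^ 2 * (Kt * 4 ^ Kt * L ^ Kt *
      (12 * θ * x * L ^ 2 + 4 * L ^ 2 + 2 * x ^ (77 / 100 : ℝ)) * 2) ≤
      (Kt * 4 ^ Kt * 2) * (12 + 6 * C2) * x / L ^ A := by
    have hL22 : 1 ≤ L ^ 2 := one_le_pow₀ hL1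
    have h1 : L ^ 2 * (Kt * 4 ^ Kt * L ^ Kt *
      (12 * θ * x * L ^ 2 + 4 * L ^ 2 + 2 * x ^ (77 / 100 : ℝ)) * 2) =
      (Kt * 4 ^ Kt * 2) * (12 * (L ^ (Kt + 4) * θ) * x + 4 * L ^ (Kt + 4) +
        2 * (L ^ (Kt + 2) * x ^ (77 / 100 : ℝ))) := by ring
    rw [h1, hθx]
    have h2 : L ^ (Kt + 4) ≤ L ^ (Kt + 4) * x ^ (77 / 100 : ℝ) :=
      le_mul_of_one_le_right (by positivity) hbig
    have h3 : L ^ (Kt + 2) * x ^ (77 / 100 : ℝ) ≤ L ^ (Kt + 4) * x ^ (77 / 100 : ℝ) := by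
      apply mul_le_mul_of_nonneg_right _ (by positivity)
      exact pow_le_pow_right₀ hL1 (by omega)
    have h4 : 12 * (1 / L ^ A) * x + 4 * L ^ (Kt + 4) + 2 * (L ^ (Kt + 2) * x ^ (77 / 100 : ℝ)) ≤
        (12 + 6 * C2) * x / L ^ A := by
      have e1 : (12 + 6 * C2) * x / L ^ A = 12 * (1 / L ^ A) * x + 6 * (C2 * x / L ^ A) := by ring
      rw [e1]
      linarith
    calc _ ≤ (Kt * 4 ^ Kt * 2) * ((12 + 6 * C2) * x / L ^ A) :=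
          mul_le_mul_of_nonneg_left h4 (by positivity)
      _ = _ := by ring
  have hsum : L ^ 2 * (∑ q ∈ D x, (if IsCoprime (a q) (q : ℤ) then
        ∑ k ∈ Ioc Y ⌊(1 + θ) * (Y : ℝ)⌋₊, tau k * |kap q (a q) k| else 0) +
      ∑ q ∈ D x, (if IsCoprime (a q) (q : ℤ) then
        ∑ k ∈ Ioc ⌊(Z : ℝ) / (1 + θ)⌋₊ Z, tau k * |kap q (a q) k| else 0)) ≤
      (Kt * 4 ^ Kt * 2) * (12 + 6 * C2) * x / L ^ A := by
    refine le_trans ?_ hfin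
    apply mul_le_mul_of_nonneg_left _ (by positivity)
    linarith
  have hend : (3 * C1 + (Kt * 4 ^ Kt * 2) * (12 + 6 * C2)) * x / L ^ A =
      3 * C1 * x / L ^ A + (Kt * 4 ^ Kt * 2) * (12 + 6 * C2) * x / L ^ A := by ring
  rw [hend]
  exact add_le_add hfull hsum

end Pool.Agent.BGV
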