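import Pool.Agent.BGV.Main
import Pool.Agent.BGV.BVbridge
import Pool.Agent.SWz.Main

/-! Bombieri-Vinogradov for `Λ`, and the passage from `BIL D` to `EHs D`, without hypotheses. -/

set_option autoImplicit false

namespace Pool.Agent.BGV

open Finset Pool.Agent.BGG

/-- Bombieri-Vinogradov theorem, every `θ < 1/2`, arbitrary classes. -/
theorem bv (θ : ℝ) (hθ : θ < 1 / 2) : BVs θ :=
  gI_BV θ hθ (bilg_univ θ hθ) Pool.Agent.SWz.swmu Pool.Agent.SWz.swlam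

/-- bilinear estimate implies equidistribution of the primes -/
theorem ehs_of_bil (w : ℝ) (hw0 : 0 < w) (hw : w ≤ 1 / 100) (D : ℝ → Finset ℕ)
    (hD : ∀ x : ℝ, 2 ≤ x → ∀ q ∈ D x, 1 ≤ q ∧ (q : ℝ) ≤ x ^ (1 / 2 + 2 * w))
    (hB : BIL D) : EHs D :=
  gI_const w hw0 hw D hD hB Pool.Agent.SWz.swmu Pool.Agent.SWz.swlam


end Pool.Agent.BGV
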