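import Pool.Agent.BGV.Defs

/-! The kernel `kap` summed over intervals. -/

set_option autoImplicit false

namespace Pool.Agent.BGV

open Finset

/-- the number of elements of an interval in a residue class -/
noncomputable def cnt (A B q r : ℕ) : ℝ := (((Ioc A B).filter (fun n => n ≡ r [MOD q])).card : ℝ)

theorem cnt_near (A B q r : ℕ) (hq : 0 < q) (hAB : A ≤ B) :
    |cnt A B q r - ((B : ℝ) - A) / q| < 1 := by
  have h := Nat.Ioc_filter_modEq_card A B hq r
  have hq' : (0 : ℚ) < q := by exact_mod_cast hq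
  have h1 : (((B : ℚ) - r) / q) - 1 < ⌊((B : ℚ) - r) / q⌋ := Int.sub_one_lt_floor _
  have h2 : (⌊((B : ℚ) - r) / q⌋ : ℚ) ≤ ((B : ℚ) - r) / q := Int.floor_le _
  have h3 : (((A : ℚ) - r) / q) - 1 < ⌊((A : ℚ) - r) / q⌋ := Int.sub_one_lt_floor _
  have h4 : (⌊((A : ℚ) - r) / q⌋ : ℚ) ≤ ((A : ℚ) - r) / q := Int.floor_le _
  have hmono : ⌊((A : ℚ) - r) / q⌋ ≤ ⌊((B : ℚ) - r) / q⌋ := by
    apply Int.floor_le_floor
    have : (A : ℚ) ≤ B := by exact_mod_cast hAB
    gcongr
  rw [max_eq_left (by linarith)] at h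
  have hdiff : ((B : ℚ) - r) / q - ((A : ℚ) - r) / q = ((B : ℚ) - A) / q := by ring
  have h5 : |((((Ioc A B).filter (fun n => n ≡ r [MOD q])).card : ℤ) : ℚ) - ((B : ℚ) - A) / q| < 1 := by
    rw [h]
    push_cast
    rw [abs_lt]
    constructor <;> linarith
  have h6 : ((((((Ioc A B).filter (fun n => n ≡ r [MOD q])).card : ℤ) : ℚ) - ((B : ℚ) - A) / q : ℚ) : ℝ)
      = cnt A B q r - ((B : ℝ) - A) / q := by
    unfold cnt; push_cast; ring
  rw [← h6]
  exact_mod_cast h5

theorem cnt_diff (A B q r r' : ℕ) (hq : 0 < q) : |cnt A B q r - cnt A B q r'| ≤ 1 := by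
  by_cases hAB : A ≤ B
  · have h1 := cnt_near A B q r hq hAB
    have h2 := cnt_near A B q r' hq hAB
    have h3 : |cnt A B q r - cnt A B q r'| < 2 := by
      rw [abs_lt] at *
      constructor <;> linarith [h1.1, h1.2, h2.1, h2.2]
    unfold cnt at *
    set u := ((Ioc A B).filter (fun n => n ≡ r [MOD q])).card with hu
    set v := ((Ioc A B).filter (fun n => n ≡ r' [MOD q])).card with hv
    rw [abs_lt] at h3
    have h4 : (u : ℝ) < ((v + 2 : ℕ) : ℝ) := by push_cast; linarith [h3.2]
    have h5 : (v : ℝ) < ((u + 2 : ℕ) : ℝ) := by push_cast; linarith [h3.1]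
    have h6 : u ≤ v + 1 := by
      have : u < v + 2 := by exact_mod_cast h4
      omega
    have h7 : v ≤ u + 1 := by
      have : v < u + 2 := by exact_mod_cast h5
      omega
    have h8 : (u : ℝ) ≤ v + 1 := by exact_mod_cast h6
    have h9 : (v : ℝ) ≤ u + 1 := by exact_mod_cast h7
    rw [abs_le]; constructor <;> linarith
  · have : Ioc A B = ∅ := Finset.Ioc_eq_empty (by omega)
    simp [cnt, this]

/-- sum of `g` over a residue class in an interval -/
noncomputable def scl (g : ℕ → ℝ) (A B q r : ℕ) : ℝ :=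
  ∑ n ∈ Ioc A B, if n ≡ r [MOD q] then g n else 0

theorem scl_eq (g : ℕ → ℝ) (A B q r : ℕ) :
    scl g A B q r = g 0 * cnt A B q r +
      ∑ j ∈ range B, (g (j + 1) - g j) * cnt (max A j) B q r := by
  have h1 : ∀ n ∈ Ioc A B, (if n ≡ r [MOD q] then g n else 0) =
      g 0 * (if n ≡ r [MOD q] then 1 else 0) + ∑ j ∈ range B, (g (j + 1) - g j) *
        (if j < n ∧ n ≡ r [MOD q] then 1 else 0) := by
    intro n hn
    rw [Finset.mem_Ioc] at hn
    by_cases h : n ≡ r [MOD q]
    · have e1 : ∑ j ∈ range B, (g (j + 1) - g j) * (if j < n ∧ n ≡ r [MOD q] then (1 : ℝ) else 0) =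
        ∑ j ∈ range n, (g (j + 1) - g j) := by
        have : range n = (range B).filter (fun j => j < n) := by
          ext j; simp only [mem_range, mem_filter]; constructor
          · intro hj; exact ⟨by omega, hj⟩
          · intro hj; exact hj.2
        rw [this, Finset.sum_filter]
        refine Finset.sum_congr rfl fun j _ => ?_
        by_cases hj : j < n <;> simp [hj, h]
      rw [e1, Finset.sum_range_sub]
      simp [h]
    · simp [h]
  unfold scl
  rw [Finset.sum_congr rfl h1, Finset.sum_add_distrib, ← Finset.mul_sum, Finset.sum_comm]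
  congr 1
  · congr 1
    unfold cnt
    rw [Finset.card_filter]; push_cast; rfl
  · refine Finset.sum_congr rfl fun j _ => ?_
    rw [← Finset.mul_sum]
    congr 1
    unfold cnt
    rw [Finset.card_filter]
    push_cast
    have : Ioc (max A j) B = (Ioc A B).filter (fun n => j < n) := by
      ext n; simp only [Finset.mem_Ioc, mem_filter, max_lt_iff]; tauto
    rw [this, Finset.sum_filter]
    refine Finset.sum_congr rfl fun n _ => ?_
    by_cases hj : j < n <;> by_cases h : n ≡ r [MOD q] <;> simp [hj, h]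

theorem scl_diff (g : ℕ → ℝ) (hg : Monotone g) (h0 : 0 ≤ g 0) (A B q r r' : ℕ) (hq : 0 < q) :
    |scl g A B q r - scl g A B q r'| ≤ g B := by
  rw [scl_eq, scl_eq]
  have e : g 0 * cnt A B q r + ∑ j ∈ range B, (g (j + 1) - g j) * cnt (max A j) B q r -
      (g 0 * cnt A B q r' + ∑ j ∈ range B, (g (j + 1) - g j) * cnt (max A j) B q r') =
      g 0 * (cnt A B q r - cnt A B q r') + ∑ j ∈ range B, (g (j + 1) - g j) *
        (cnt (max A j) B q r - cnt (max A j) B q r') := by
    have : ∑ j ∈ range B, (g (j + 1) - g j) *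
        (cnt (max A j) B q r - cnt (max A j) B q r') =
        ∑ j ∈ range B, (g (j + 1) - g j) * cnt (max A j) B q r -
        ∑ j ∈ range B, (g (j + 1) - g j) * cnt (max A j) B q r' := by
      rw [← Finset.sum_sub_distrib]
      refine Finset.sum_congr rfl fun j _ => by ring
    rw [this]; ring
  rw [e]
  calc |g 0 * (cnt A B q r - cnt A B q r') + ∑ j ∈ range B, (g (j + 1) - g j) *
        (cnt (max A j) B q r - cnt (max A j) B q r')|
      ≤ |g 0 * (cnt A B q r - cnt A B q r')| + |∑ j ∈ range B, (g (j + 1) - g j) *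
        (cnt (max A j) B q r - cnt (max A j) B q r')| := abs_add_le _ _
    _ ≤ g 0 * 1 + ∑ j ∈ range B, (g (j + 1) - g j) * 1 := by
        apply add_le_add
        · rw [abs_mul, abs_of_nonneg h0]
          exact mul_le_mul_of_nonneg_left (cnt_diff _ _ _ _ _ hq) h0
        · refine (Finset.abs_sum_le_sum_abs _ _).trans (Finset.sum_le_sum fun j _ => ?_)
          have hj : 0 ≤ g (j + 1) - g j := sub_nonneg.mpr (hg (Nat.le_succ j))
          rw [abs_mul, abs_of_nonneg hj]
          exact mul_le_mul_of_nonneg_left (cnt_diff _ _ _ _ _ hq) hj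
    _ = g B := by
        simp only [mul_one]
        rw [Finset.sum_range_sub]; ring

theorem kap_not_coprime {q : ℕ} {a : ℤ} {n : ℕ} (ha : IsCoprime a (q : ℤ)) (h : ¬ n.Coprime q) :
    kap q a n = 0 := by
  have h1 : ¬ ((q : ℤ) ∣ (n : ℤ) - a) := by
    intro hd
    apply h
    obtain ⟨c, hc⟩ := hd
    have : IsCoprime (n : ℤ) (q : ℤ) := by
      have e : (n : ℤ) = a + (q : ℤ) * c := by linarith
      rw [e]
      exact IsCoprime.add_mul_left_left ha c
    exact Nat.isCoprime_iff_coprime.mp this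
  simp [kap, h1, h]

theorem kap_abs_le (q : ℕ) (a : ℤ) (n : ℕ) :
    |kap q a n| ≤ (if (q : ℤ) ∣ (n : ℤ) - a then 1 else 0) +
      (if Nat.Coprime n q then ((q.totient : ℝ))⁻¹ else 0) := by
  unfold kap
  have h1 : (0 : ℝ) ≤ (if (q : ℤ) ∣ (n : ℤ) - a then 1 else 0) := by split_ifs <;> norm_num
  have h2 : (0 : ℝ) ≤ (if Nat.Coprime n q then ((q.totient : ℝ))⁻¹ else 0) := by
    split_ifs
    · positivity
    · norm_num
  rw [abs_le]; constructor <;> linarith

/-- splitting the sum over `(n,q) = 1` into classes -/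
theorem sum_coprime_classes (g : ℕ → ℝ) (A B q : ℕ) (hq : 0 < q) :
    ∑ n ∈ Ioc A B, (if Nat.Coprime n q then g n else 0) =
      ∑ r ∈ (range q).filter (fun r => Nat.Coprime r q), scl g A B q r := by
  unfold scl
  rw [Finset.sum_comm]
  refine Finset.sum_congr rfl fun n _ => ?_
  rw [← Finset.sum_filter]
  by_cases h : Nat.Coprime n q
  · have : ((range q).filter (fun r => Nat.Coprime r q)).filter (fun r => n ≡ r [MOD q]) = {n % q} := by
      ext r
      simp only [mem_filter, mem_range, mem_singleton]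
      constructor
      · rintro ⟨⟨h1, _⟩, h3⟩
        have := h3
        unfold Nat.ModEq at this
        rw [Nat.mod_eq_of_lt h1] at this
        exact this.symm
      · rintro rfl
        refine ⟨⟨Nat.mod_lt _ hq, ?_⟩, (Nat.mod_modEq n q).symm⟩
        rw [Nat.coprime_iff_gcd_eq_one]
        exact ((Nat.mod_modEq n q).gcd_eq).trans h
    rw [this, Finset.sum_singleton, if_pos h]
  · have : ((range q).filter (fun r => Nat.Coprime r q)).filter (fun r => n ≡ r [MOD q]) = ∅ := by
      ext r
      simp only [mem_filter, mem_range]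
      constructor
      · rintro ⟨⟨_, h2⟩, h3⟩
        exfalso; apply h
        have : Nat.gcd n q = Nat.gcd r q := h3.gcd_eq
        rw [Nat.coprime_iff_gcd_eq_one, this]; exact h2
      · intro h'; simp at h'
    rw [this, Finset.sum_empty, if_neg h]

theorem card_filter_coprime (q : ℕ) : ((range q).filter (fun r => Nat.Coprime r q)).card = q.totient := by
  rw [Nat.totient]
  congr 1
  ext r
  simp [Nat.coprime_comm]

/-- sum of a monotone function against `kap` over an interval -/
theorem kap_mono (g : ℕ → ℝ) (hg : Monotone g) (h0 : 0 ≤ g 0) (q : ℕ) (hq : 0 < q) (a : ℤ)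
    (ha : IsCoprime a (q : ℤ)) (m A B : ℕ) :
    |∑ n ∈ Ioc A B, g n * kap q a (m * n)| ≤ g B := by
  have hgB : 0 ≤ g B := h0.trans (hg (Nat.zero_le B))
  by_cases hm : m.Coprime q
  · -- the inverse class
    obtain ⟨r0, hr0⟩ : ∃ r0 : ℕ, ∀ n : ℕ, ((q : ℤ) ∣ ((m * n : ℕ) : ℤ) - a ↔ n ≡ r0 [MOD q]) := by
      have hmz : IsCoprime (m : ℤ) (q : ℤ) := Nat.isCoprime_iff_coprime.mpr hm
      obtain ⟨u, v, huv⟩ := hmz
      refine ⟨((u * a) % q).toNat, fun n => ?_⟩
      have hqz : (0 : ℤ) < q := by exact_mod_cast hq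
      have hnn : 0 ≤ (u * a) % (q : ℤ) := Int.emod_nonneg _ hqz.ne'
      rw [← Int.natCast_modEq_iff, Int.toNat_of_nonneg hnn]
      have e1 : ((n : ℤ) ≡ (u * a) % q [ZMOD q]) ↔ ((n : ℤ) ≡ u * a [ZMOD q]) := by
        constructor
        · intro h; exact h.trans (Int.mod_modEq _ _)
        · intro h; exact h.trans (Int.mod_modEq _ _).symm
      rw [e1]
      constructor
      · intro h
        obtain ⟨c, hc⟩ := h
        rw [Int.modEq_iff_dvd]
        refine ⟨-(v * n) - u * c, ?_⟩
        push_cast at hc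
        have : (n : ℤ) = n * (u * m + v * q) := by rw [huv]; ring
        linear_combination (-1 : ℤ) * this - u * hc
      · intro h
        rw [Int.modEq_iff_dvd] at h
        obtain ⟨c, hc⟩ := h
        push_cast
        refine ⟨-(c * m) - v * a, ?_⟩
        linear_combination (-m : ℤ) * hc + a * huv
    have hcop : ∀ n : ℕ, Nat.Coprime (m * n) q ↔ Nat.Coprime n q := by
      intro n
      constructor
      · intro h; exact Nat.Coprime.coprime_mul_left h
      · intro h; exact Nat.Coprime.mul_left hm h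
    have hφ : (0 : ℝ) < q.totient := by exact_mod_cast Nat.totient_pos.mpr hq
    have e : ∑ n ∈ Ioc A B, g n * kap q a (m * n) =
        (∑ r ∈ (range q).filter (fun r => Nat.Coprime r q),
          (scl g A B q r0 - scl g A B q r)) * ((q.totient : ℝ))⁻¹ := by
      rw [Finset.sum_sub_distrib, Finset.sum_const, card_filter_coprime, ← sum_coprime_classes g A B q hq,
        sub_mul, nsmul_eq_mul]
      have e2 : (q.totient : ℝ) * scl g A B q r0 * ((q.totient : ℝ))⁻¹ = scl g A B q r0 := by
        field_simp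
      rw [e2]
      unfold scl
      rw [Finset.sum_mul, ← Finset.sum_sub_distrib]
      refine Finset.sum_congr rfl fun n _ => ?_
      unfold kap
      rw [mul_sub]
      congr 1
      · by_cases h : n ≡ r0 [MOD q]
        · rw [if_pos h, if_pos ((hr0 n).mpr h), mul_one]
        · rw [if_neg h, if_neg (fun h' => h ((hr0 n).mp h')), mul_zero]
      · by_cases h : Nat.Coprime n q
        · rw [if_pos h, if_pos ((hcop n).mpr h)]
        · rw [if_neg h, if_neg (fun h' => h ((hcop n).mp h'))]; ring
    rw [e, abs_mul, abs_of_pos (inv_pos.mpr hφ)]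
    have h1 : |∑ r ∈ (range q).filter (fun r => Nat.Coprime r q),
          (scl g A B q r0 - scl g A B q r)| ≤ q.totient * g B := by
      refine (Finset.abs_sum_le_sum_abs _ _).trans ?_
      refine (Finset.sum_le_card_nsmul _ _ (g B) fun r _ => scl_diff g hg h0 A B q r0 r hq).trans ?_
      rw [card_filter_coprime, nsmul_eq_mul]
    calc _ ≤ (q.totient * g B) * ((q.totient : ℝ))⁻¹ :=
          mul_le_mul_of_nonneg_right h1 (inv_pos.mpr hφ).le
      _ = g B := by field_simp
  · have : ∀ n ∈ Ioc A B, g n * kap q a (m * n) = 0 := by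
      intro n _
      rw [kap_not_coprime ha, mul_zero]
      intro h; exact hm (Nat.Coprime.coprime_mul_right h)
    rw [Finset.sum_eq_zero this, abs_zero]; exact hgB

theorem kap_one (q : ℕ) (hq : 0 < q) (a : ℤ) (ha : IsCoprime a (q : ℤ)) (m A B : ℕ) :
    |∑ n ∈ Ioc A B, kap q a (m * n)| ≤ 1 := by
  have := kap_mono (fun _ => 1) (fun _ _ _ => le_rfl) (by norm_num) q hq a ha m A B
  simpa using this

theorem kap_log (q : ℕ) (hq : 0 < q) (a : ℤ) (ha : IsCoprime a (q : ℤ)) (m A B : ℕ) :
    |∑ n ∈ Ioc A B, Real.log n * kap q a (m * n)| ≤ Real.log B := by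
  refine kap_mono (fun n => Real.log n) ?_ (by simp) q hq a ha m A B
  intro i j hij
  rcases Nat.eq_zero_or_pos i with h | h
  · simp only [h, Nat.cast_zero, Real.log_zero]
    exact Real.log_natCast_nonneg j
  · exact Real.log_le_log (by exact_mod_cast h) (by exact_mod_cast hij)

end Pool.Agent.BGV
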