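import Pool.Agent.BGV.Vaughan
import Pool.Agent.BGV.Kap

/-! Double sums over `Y < m n ≤ Z`. -/

set_option autoImplicit false

namespace Pool.Agent.BGV

open Finset

/-- sum over pairs with product in `(Y, Z]` -/
noncomputable def P2 (Y Z : ℕ) (F : ℕ → ℕ → ℝ) : ℝ :=
  ∑ m ∈ Icc 1 Z, ∑ n ∈ Icc 1 Z, if Y < m * n ∧ m * n ≤ Z then F m n else 0

theorem sum_anti (Y Z : ℕ) (F : ℕ → ℕ → ℝ) :
    ∑ k ∈ Ioc Y Z, ∑ p ∈ k.divisorsAntidiagonal, F p.1 p.2 = P2 Y Z F := by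
  unfold P2
  rw [← Finset.sum_product', ← Finset.sum_filter, Finset.sum_sigma']
  refine Finset.sum_bij' (fun (s : Σ _ : ℕ, ℕ × ℕ) _ => s.2) (fun p _ => ⟨p.1 * p.2, p⟩) ?_ ?_ ?_ ?_ ?_
  · rintro ⟨k, m, n⟩ h
    simp only [Finset.mem_sigma, Finset.mem_Ioc, Nat.mem_divisorsAntidiagonal] at h
    obtain ⟨⟨h1, h2⟩, h3, h4⟩ := h
    have hm : 1 ≤ m := by
      rcases Nat.eq_zero_or_pos m with h0 | h0
      · subst h0; simp at h3; omega
      · exact h0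
    have hn : 1 ≤ n := by
      rcases Nat.eq_zero_or_pos n with h0 | h0
      · subst h0; simp at h3; omega
      · exact h0
    simp only [Finset.mem_filter, Finset.mem_product, Finset.mem_Icc]
    have h5 : m ≤ m * n := Nat.le_mul_of_pos_right m hn
    have h6 : n ≤ m * n := Nat.le_mul_of_pos_left n hm
    refine ⟨⟨⟨hm, by omega⟩, ⟨hn, by omega⟩⟩, by omega, by omega⟩
  · rintro ⟨m, n⟩ h
    simp only [Finset.mem_filter, Finset.mem_product, Finset.mem_Icc] at h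
    simp only [Finset.mem_sigma, Finset.mem_Ioc, Nat.mem_divisorsAntidiagonal]
    refine ⟨⟨h.2.1, h.2.2⟩, trivial, ?_⟩
    have := Nat.mul_pos h.1.1.1 h.1.2.1
    omega
  · rintro ⟨k, m, n⟩ h
    simp only [Finset.mem_sigma, Finset.mem_Ioc, Nat.mem_divisorsAntidiagonal] at h
    obtain ⟨⟨h1, h2⟩, h3, h4⟩ := h
    subst h3
    rfl
  · rintro ⟨m, n⟩ _; rfl
  · rintro ⟨k, m, n⟩ _; rfl

theorem inner_eq (Y Z m : ℕ) (hm : 1 ≤ m) (G : ℕ → ℝ) :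
    ∑ n ∈ Icc 1 Z, (if Y < m * n ∧ m * n ≤ Z then G n else 0) =
      ∑ n ∈ Ioc (Y / m) (Z / m), G n := by
  rw [← Finset.sum_filter]
  refine Finset.sum_congr ?_ fun _ _ => rfl
  ext n
  simp only [Finset.mem_filter, Finset.mem_Icc, Finset.mem_Ioc]
  rw [Nat.div_lt_iff_lt_mul hm, Nat.le_div_iff_mul_le hm, mul_comm n m]
  constructor
  · rintro ⟨_, h1, h2⟩; exact ⟨h1, h2⟩
  · rintro ⟨h1, h2⟩
    have hn : 1 ≤ n := by
      rcases Nat.eq_zero_or_pos n with h0 | h0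
      · subst h0; simp at h1
      · exact h0
    have : n ≤ m * n := Nat.le_mul_of_pos_left n hm
    exact ⟨⟨hn, by omega⟩, h1, h2⟩

theorem P2_left (Y Z : ℕ) (F : ℕ → ℕ → ℝ) :
    P2 Y Z F = ∑ m ∈ Icc 1 Z, ∑ n ∈ Ioc (Y / m) (Z / m), F m n := by
  unfold P2
  refine Finset.sum_congr rfl fun m hm => ?_
  exact inner_eq Y Z m (Finset.mem_Icc.mp hm).1 (F m)

theorem P2_right (Y Z : ℕ) (F : ℕ → ℕ → ℝ) :
    P2 Y Z F = ∑ n ∈ Icc 1 Z, ∑ m ∈ Ioc (Y / n) (Z / n), F m n := by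
  unfold P2
  rw [Finset.sum_comm]
  refine Finset.sum_congr rfl fun n hn => ?_
  rw [← inner_eq Y Z n (Finset.mem_Icc.mp hn).1 (fun m => F m n)]
  refine Finset.sum_congr rfl fun m _ => ?_
  rw [mul_comm n m]

theorem P2_congr (Y Z : ℕ) (F G : ℕ → ℕ → ℝ)
    (h : ∀ m n, 1 ≤ m → 1 ≤ n → Y < m * n → m * n ≤ Z → F m n = G m n) :
    P2 Y Z F = P2 Y Z G := by
  unfold P2
  refine Finset.sum_congr rfl fun m hm => Finset.sum_congr rfl fun n hn => ?_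
  by_cases hc : Y < m * n ∧ m * n ≤ Z
  · rw [if_pos hc, if_pos hc]
    exact h m n (Finset.mem_Icc.mp hm).1 (Finset.mem_Icc.mp hn).1 hc.1 hc.2
  · rw [if_neg hc, if_neg hc]

theorem P2_add (Y Z : ℕ) (F G : ℕ → ℕ → ℝ) :
    P2 Y Z (fun m n => F m n + G m n) = P2 Y Z F + P2 Y Z G := by
  unfold P2
  rw [← Finset.sum_add_distrib]
  refine Finset.sum_congr rfl fun m _ => ?_
  rw [← Finset.sum_add_distrib]
  refine Finset.sum_congr rfl fun n _ => ?_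
  split_ifs <;> simp

theorem P2_swap (Y Z : ℕ) (F : ℕ → ℕ → ℝ) :
    P2 Y Z F = P2 Y Z (fun m n => F n m) := by
  rw [P2_left, P2_right]

/-- the box sum -/
noncomputable def BS (Y Z N1 N2 : ℕ) (α β : ℕ → ℝ) (W : ℕ → ℝ) : ℝ :=
  ∑ n ∈ Ioc N1 N2, ∑ m ∈ Ioc (Y / n) (Z / n), α m * β n * W (m * n)

/-- a double sum whose second variable is confined to `(N1, N2]` is a box sum -/
theorem P2_eq_BS (Y Z N1 N2 : ℕ) (α β : ℕ → ℝ) (W : ℕ → ℝ) (hN : N2 ≤ Z)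
    (h : ∀ m n, 1 ≤ m → 1 ≤ n → Y < m * n → m * n ≤ Z → ¬ (N1 < n ∧ n ≤ N2) → α m * β n = 0) :
    P2 Y Z (fun m n => α m * β n * W (m * n)) = BS Y Z N1 N2 α β W := by
  rw [P2_right]
  unfold BS
  symm
  refine Finset.sum_subset ?_ ?_
  · intro n hn
    rw [Finset.mem_Ioc] at hn
    rw [Finset.mem_Icc]
    omega
  · intro n hn hn'
    rw [Finset.mem_Icc] at hn
    rw [Finset.mem_Ioc] at hn'
    refine Finset.sum_eq_zero fun m hm => ?_
    rw [Finset.mem_Ioc, Nat.div_lt_iff_lt_mul hn.1, Nat.le_div_iff_mul_le hn.1] at hm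
    have hm1 : 1 ≤ m := by
      rcases Nat.eq_zero_or_pos m with h0 | h0
      · subst h0; simp at hm
      · exact h0
    rw [h m n hm1 hn.1 hm.1 hm.2 hn', zero_mul]

end Pool.Agent.BGV
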