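import Pool.Agent.BGG.Defs
import Pool.Agent.BV.TauB

/-! MP_3509fd_nt, part G-I (helper8): Vaughan's identity and boxes.
Definitions. -/

set_option autoImplicit false

namespace Pool.Agent.BGV

open Finset Pool.Agent.BV

/-- von Mangoldt function -/
noncomputable def vM (n : ℕ) : ℝ := ArithmeticFunction.vonMangoldt n

/-- Moebius function, as a real number -/
noncomputable def mu (n : ℕ) : ℝ := ((ArithmeticFunction.moebius n : ℤ) : ℝ)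

/-- the kernel `1_{n ≡ a (q)} - 1_{(n,q)=1} / φ(q)` -/
noncomputable def kap (q : ℕ) (a : ℤ) (n : ℕ) : ℝ :=
  (if (q : ℤ) ∣ (n : ℤ) - a then 1 else 0) -
    (if Nat.Coprime n q then ((q.totient : ℝ))⁻¹ else 0)

/-- `BGG.BIL` for a set `Acl` of class maps `q ↦ a q` -/
def BILg (Acl : Set (ℕ → ℤ)) (D : ℝ → Finset ℕ) : Prop :=
  ∀ (A : ℕ) (K : ℕ → ℝ), ∃ C : ℝ, ∀ x : ℝ, 2 ≤ x → ∀ a ∈ Acl, ∀ M N : ℝ,
    x ^ (1 / 3 : ℝ) / 4 ≤ N → N ≤ 4 * x ^ (1 / 2 : ℝ) → x / 4 ≤ M * N → M * N ≤ 4 * x →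
    ∀ α β : ℕ → ℝ,
      (∀ m, α m ≠ 0 → M < (m : ℝ) ∧ (m : ℝ) ≤ 4 * M) →
      (∀ n, β n ≠ 0 → N < (n : ℝ) ∧ (n : ℝ) ≤ 4 * N) →
      (∀ m, |α m| ≤ Real.log x) → (∀ n, |β n| ≤ Real.log x) → Pool.Agent.BGG.SW K x N β →
      ∑ q ∈ D x, (if IsCoprime (a q) (q : ℤ) then
        |Pool.Agent.BGG.Dsc2 ⌊4 * M⌋₊ ⌊4 * N⌋₊ α β q (a q)| else 0)
        ≤ C * x / (Real.log x) ^ A

/-- `BGG.EHs` for a set `Acl` of class maps `q ↦ a q` -/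
def EHg (Acl : Set (ℕ → ℤ)) (D : ℝ → Finset ℕ) : Prop :=
  ∀ A : ℕ, ∃ C : ℝ, ∀ x : ℝ, 2 ≤ x → ∀ a ∈ Acl, ∀ y z : ℝ, x ≤ y → y ≤ z → z ≤ 3 * x →
    ∑ q ∈ D x, (if IsCoprime (a q) (q : ℤ) then |Pool.Agent.BGG.LamErr y z q (a q)| else 0) ≤
      C * x / (Real.log x) ^ A

theorem EHs_iff (D : ℝ → Finset ℕ) :
    Pool.Agent.BGG.EHs D ↔ EHg {a | ∃ c : ℤ, a = fun _ => c} D := by
  unfold Pool.Agent.BGG.EHs EHg
  constructor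
  · intro h A
    obtain ⟨C, hC⟩ := h A
    refine ⟨C, fun x hx a ha y z h1 h2 h3 => ?_⟩
    obtain ⟨c, rfl⟩ := ha
    exact hC x hx c y z h1 h2 h3
  · intro h A
    obtain ⟨C, hC⟩ := h A
    exact ⟨C, fun x hx c y z h1 h2 h3 => hC x hx (fun _ => c) ⟨c, rfl⟩ y z h1 h2 h3⟩

theorem BVs_iff (θ : ℝ) :
    Pool.Agent.BGG.BVs θ ↔ EHg Set.univ (fun x => Icc 1 ⌊x ^ θ⌋₊) := by
  unfold Pool.Agent.BGG.BVs EHg
  constructor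
  · intro h A
    obtain ⟨C, hC⟩ := h A
    exact ⟨C, fun x hx a _ y z h1 h2 h3 => hC x hx a y z h1 h2 h3⟩
  · intro h A
    obtain ⟨C, hC⟩ := h A
    exact ⟨C, fun x hx a y z h1 h2 h3 => hC x hx a (Set.mem_univ a) y z h1 h2 h3⟩

theorem BIL_iff (D : ℝ → Finset ℕ) :
    Pool.Agent.BGG.BIL D ↔ BILg {a | ∃ c : ℤ, a = fun _ => c} D := by
  unfold Pool.Agent.BGG.BIL BILg
  constructor
  · intro h A K
    obtain ⟨C, hC⟩ := h A K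
    refine ⟨C, fun x hx a ha => ?_⟩
    obtain ⟨c, rfl⟩ := ha
    exact hC x hx c
  · intro h A K
    obtain ⟨C, hC⟩ := h A K
    exact ⟨C, fun x hx c => hC x hx (fun _ => c) ⟨c, rfl⟩⟩

end Pool.Agent.BGV
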