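import Pool.Agent.BGV.Box

/-! The sums with a smooth variable, and the pieces of Vaughan's identity. -/

set_option autoImplicit false

namespace Pool.Agent.BGV

open Finset Pool.Agent.BV Pool.Agent.BGG

theorem S1_bound (Y Z u q : ℕ) (a : ℤ) (hq : 0 < q) (ha : IsCoprime a (q : ℤ)) :
    |P2 Y Z (fun m n => (if m ≤ u then mu m else 0) * Real.log n * kap q a (m * n))| ≤
      u * Real.log Z := by
  rw [P2_left]
  have hZ : 0 ≤ Real.log Z := Real.log_natCast_nonneg Z
  refine (Finset.abs_sum_le_sum_abs _ _).trans ?_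
  have h1 : ∀ m ∈ Icc 1 Z, |∑ n ∈ Ioc (Y / m) (Z / m),
      (if m ≤ u then mu m else 0) * Real.log n * kap q a (m * n)| ≤
      (if m ∈ Icc 1 u then Real.log Z else 0) := by
    intro m hm
    rw [Finset.mem_Icc] at hm
    by_cases h : m ≤ u
    · rw [if_pos (Finset.mem_Icc.mpr ⟨hm.1, h⟩)]
      have e : ∑ n ∈ Ioc (Y / m) (Z / m), (if m ≤ u then mu m else 0) * Real.log n * kap q a (m * n) =
          mu m * ∑ n ∈ Ioc (Y / m) (Z / m), Real.log n * kap q a (m * n) := by
        rw [Finset.mul_sum]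
        refine Finset.sum_congr rfl fun n _ => ?_
        rw [if_pos h]; ring
      rw [e, abs_mul]
      have h2 := kap_log q hq a ha m (Y / m) (Z / m)
      have h3 : Real.log ((Z / m : ℕ) : ℝ) ≤ Real.log Z := by
        rcases Nat.eq_zero_or_pos (Z / m) with h0 | h0
        · rw [h0]; simpa using hZ
        · exact Real.log_le_log (by exact_mod_cast h0) (by exact_mod_cast Nat.div_le_self Z m)
      calc |mu m| * |∑ n ∈ Ioc (Y / m) (Z / m), Real.log n * kap q a (m * n)|
          ≤ 1 * Real.log Z := mul_le_mul (abs_mu_le m) (h2.trans h3) (abs_nonneg _) zero_le_one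
        _ = Real.log Z := one_mul _
    · rw [if_neg (fun h' => h (Finset.mem_Icc.mp h').2)]
      have : ∑ n ∈ Ioc (Y / m) (Z / m), (if m ≤ u then mu m else 0) * Real.log n * kap q a (m * n) = 0 := by
        refine Finset.sum_eq_zero fun n _ => ?_
        rw [if_neg h]; ring
      rw [this, abs_zero]
  refine (Finset.sum_le_sum h1).trans ?_
  rw [← Finset.sum_filter, Finset.sum_const, nsmul_eq_mul]
  apply mul_le_mul_of_nonneg_right _ hZ
  have : ((Icc 1 Z).filter (fun m => m ∈ Icc 1 u)).card ≤ (Icc 1 u).card :=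
    Finset.card_le_card (fun m hm => (Finset.mem_filter.mp hm).2)
  rw [Nat.card_Icc] at this
  exact_mod_cast (by omega : ((Icc 1 Z).filter (fun m => m ∈ Icc 1 u)).card ≤ u)

theorem S2c_bound (Y Z u c0 q : ℕ) (a : ℤ) (hq : 0 < q) (ha : IsCoprime a (q : ℤ)) :
    |P2 Y Z (fun m n => if c0 < n then al2 u m * kap q a (m * n) else 0)| ≤
      ((Z / (c0 + 1) : ℕ) : ℝ) * Real.log Z := by
  rw [P2_left]
  have hZ : 0 ≤ Real.log Z := Real.log_natCast_nonneg Z
  refine (Finset.abs_sum_le_sum_abs _ _).trans ?_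
  have h1 : ∀ m ∈ Icc 1 Z, |∑ n ∈ Ioc (Y / m) (Z / m),
      (if c0 < n then al2 u m * kap q a (m * n) else 0)| ≤
      (if m ∈ Icc 1 (Z / (c0 + 1)) then Real.log Z else 0) := by
    intro m hm
    rw [Finset.mem_Icc] at hm
    have e : ∑ n ∈ Ioc (Y / m) (Z / m), (if c0 < n then al2 u m * kap q a (m * n) else 0) =
        al2 u m * ∑ n ∈ Ioc (max (Y / m) c0) (Z / m), kap q a (m * n) := by
      have : Ioc (max (Y / m) c0) (Z / m) = (Ioc (Y / m) (Z / m)).filter (fun n => c0 < n) := by
        ext n; simp only [Finset.mem_Ioc, Finset.mem_filter, max_lt_iff]; tauto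
      rw [this, Finset.sum_filter, Finset.mul_sum]
      refine Finset.sum_congr rfl fun n _ => ?_
      split_ifs <;> simp
    rw [e]
    by_cases h : m ≤ Z / (c0 + 1)
    · rw [if_pos (Finset.mem_Icc.mpr ⟨hm.1, h⟩), abs_mul]
      have h2 := kap_one q hq a ha m (max (Y / m) c0) (Z / m)
      have h3 : |al2 u m| ≤ Real.log Z := (abs_al2_le u m).trans
        (Real.log_le_log (by exact_mod_cast hm.1) (by exact_mod_cast hm.2))
      calc |al2 u m| * |∑ n ∈ Ioc (max (Y / m) c0) (Z / m), kap q a (m * n)| ≤ Real.log Z * 1 :=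
            mul_le_mul h3 h2 (abs_nonneg _) hZ
        _ = Real.log Z := mul_one _
    · rw [if_neg (fun h' => h (Finset.mem_Icc.mp h').2)]
      have h2 : Z / m ≤ c0 := by
        by_contra hcon
        push Not at hcon
        apply h
        rw [Nat.le_div_iff_mul_le (by omega)]
        have h3 : (c0 + 1) ≤ Z / m := hcon
        rw [Nat.le_div_iff_mul_le hm.1] at h3
        rw [mul_comm]; exact h3
      have h3 : Ioc (max (Y / m) c0) (Z / m) = ∅ := Finset.Ioc_eq_empty (by
        intro h'; have := lt_of_le_of_lt (le_max_right (Y / m) c0) h'; omega)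
      rw [h3]; simp
  refine (Finset.sum_le_sum h1).trans ?_
  rw [← Finset.sum_filter, Finset.sum_const, nsmul_eq_mul]
  apply mul_le_mul_of_nonneg_right _ hZ
  have : ((Icc 1 Z).filter (fun m => m ∈ Icc 1 (Z / (c0 + 1)))).card ≤ (Icc 1 (Z / (c0 + 1))).card :=
    Finset.card_le_card (fun m hm => (Finset.mem_filter.mp hm).2)
  rw [Nat.card_Icc, Nat.add_sub_cancel] at this
  exact_mod_cast this

/-- a double sum restricted to `N1 < n ≤ N2` is a box sum -/
theorem P2_box (Y Z N1 N2 : ℕ) (α β : ℕ → ℝ) (W : ℕ → ℝ) (hN : N2 ≤ Z) :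
    P2 Y Z (fun m n => if N1 < n ∧ n ≤ N2 then α m * β n * W (m * n) else 0) =
      BS Y Z N1 N2 α β W := by
  rw [P2_right]
  unfold BS
  symm
  have h1 : ∀ n ∈ Icc 1 Z, ∑ m ∈ Ioc (Y / n) (Z / n),
      (if N1 < n ∧ n ≤ N2 then α m * β n * W (m * n) else 0) =
      if n ∈ Ioc N1 N2 then ∑ m ∈ Ioc (Y / n) (Z / n), α m * β n * W (m * n) else 0 := by
    intro n _
    by_cases h : N1 < n ∧ n ≤ N2
    · rw [if_pos (Finset.mem_Ioc.mpr h)]
      refine Finset.sum_congr rfl fun m _ => by rw [if_pos h]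
    · rw [if_neg (fun h' => h (Finset.mem_Ioc.mp h'))]
      exact Finset.sum_eq_zero fun m _ => by rw [if_neg h]
  rw [Finset.sum_congr rfl h1, ← Finset.sum_filter]
  refine Finset.sum_congr ?_ fun _ _ => rfl
  ext n
  simp only [Finset.mem_Ioc, Finset.mem_filter, Finset.mem_Icc]
  constructor
  · rintro ⟨h1, h2⟩; exact ⟨⟨by omega, by omega⟩, h1, h2⟩
  · rintro ⟨_, h⟩; exact h

/-- Vaughan decomposition of the sum of `Λ` against `kap`. -/
theorem main_identity (Y Z u s c0 s3 : ℕ) (q : ℕ) (a : ℤ) (huY : u * u * u ≤ Y) (hu1 : 1 ≤ u)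
    (hus : u ≤ s) (hsc : s ≤ c0) (hsZ : s ≤ Z) (hs3 : Z < (s + 1) * (s3 + 1)) (hs3Z : s3 ≤ Z) :
    ∑ k ∈ Ioc Y Z, vM k * kap q a k =
      P2 Y Z (fun m n => (if m ≤ u then mu m else 0) * Real.log n * kap q a (m * n))
      - BS Y Z u s (al2 u) (fun _ => 1) (kap q a)
      - BS Y Z (min (Y / c0) s3) s3 (fun m => if s < m ∧ m ≤ c0 then 1 else 0) (al2 u) (kap q a)
      - P2 Y Z (fun m n => if c0 < n then al2 u m * kap q a (m * n) else 0)
      + BS Y Z u s (al4 u) mu (kap q a)
      + BS Y Z u s3 (fun m => if s < m then mu m else 0) (al4 u) (kap q a) := by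
  have huY' : u ≤ Y := by nlinarith
  -- pointwise
  have h0 : ∀ k ∈ Ioc Y Z, vM k * kap q a k =
      ∑ p ∈ k.divisorsAntidiagonal,
        (((if p.1 ≤ u then mu p.1 else 0) * Real.log p.2 * kap q a (p.1 * p.2) +
          -(al2 u p.1 * kap q a (p.1 * p.2))) +
          al4 u p.1 * (if u < p.2 then mu p.2 else 0) * kap q a (p.1 * p.2)) := by
    intro k hk
    rw [Finset.mem_Ioc] at hk
    rw [vaughan u k (by omega)]
    rw [Finset.sum_add_distrib, Finset.sum_add_distrib, Finset.sum_neg_distrib]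
    have e : ∀ f : ℕ × ℕ → ℝ, ∑ p ∈ k.divisorsAntidiagonal, f p * kap q a (p.1 * p.2) =
        (∑ p ∈ k.divisorsAntidiagonal, f p) * kap q a k := by
      intro f
      rw [Finset.sum_mul]
      refine Finset.sum_congr rfl fun p hp => ?_
      rw [(Nat.mem_divisorsAntidiagonal.mp hp).1]
    rw [e (fun p => (if p.1 ≤ u then mu p.1 else 0) * Real.log p.2), e (fun p => al2 u p.1),
      e (fun p => al4 u p.1 * (if u < p.2 then mu p.2 else 0))]
    ring
  rw [Finset.sum_congr rfl h0, sum_anti Y Z (fun m n =>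
    (((if m ≤ u then mu m else 0) * Real.log n * kap q a (m * n) +
          -(al2 u m * kap q a (m * n))) +
          al4 u m * (if u < n then mu n else 0) * kap q a (m * n))), P2_add, P2_add]
  -- second sum
  have h2 : P2 Y Z (fun m n => -(al2 u m * kap q a (m * n))) =
      - BS Y Z u s (al2 u) (fun _ => 1) (kap q a)
      - BS Y Z (min (Y / c0) s3) s3 (fun m => if s < m ∧ m ≤ c0 then 1 else 0) (al2 u) (kap q a)
      - P2 Y Z (fun m n => if c0 < n then al2 u m * kap q a (m * n) else 0) := by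
    have e1 : P2 Y Z (fun m n => -(al2 u m * kap q a (m * n))) =
        P2 Y Z (fun m n => (-(if u < n ∧ n ≤ s then al2 u m * 1 * kap q a (m * n) else 0) +
          -(if s < n ∧ n ≤ c0 then al2 u m * kap q a (m * n) else 0)) +
          -(if c0 < n then al2 u m * kap q a (m * n) else 0)) := by
      apply P2_congr
      intro m n hm hn hY _
      by_cases c1 : n ≤ u
      · have : u * u < m := by
          by_contra hcon
          push Not at hcon
          have : m * n ≤ u * u * u := Nat.mul_le_mul hcon c1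
          omega
        rw [al2_zero u m this]; simp
      · by_cases c2 : n ≤ s
        · rw [if_pos ⟨by omega, c2⟩, if_neg (by omega), if_neg (by omega)]; ring
        · by_cases c3 : n ≤ c0
          · rw [if_neg (by omega), if_pos ⟨by omega, c3⟩, if_neg (by omega)]; ring
          · rw [if_neg (by omega), if_neg (by omega), if_pos (by omega)]; ring
    have neg : ∀ F : ℕ → ℕ → ℝ, P2 Y Z (fun m n => -(F m n)) = - P2 Y Z F := by
      intro F
      unfold P2
      rw [← Finset.sum_neg_distrib]
      refine Finset.sum_congr rfl fun m _ => ?_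
      rw [← Finset.sum_neg_distrib]
      refine Finset.sum_congr rfl fun n _ => ?_
      split_ifs <;> simp
    rw [e1, P2_add, P2_add, neg, neg, neg, P2_box Y Z u s (al2 u) (fun _ => 1) (kap q a) hsZ]
    have e2 : P2 Y Z (fun m n => if s < n ∧ n ≤ c0 then al2 u m * kap q a (m * n) else 0) =
        BS Y Z (min (Y / c0) s3) s3 (fun m => if s < m ∧ m ≤ c0 then 1 else 0) (al2 u)
          (kap q a) := by
      rw [P2_swap, ← P2_box Y Z (min (Y / c0) s3) s3 _ _ _ hs3Z]
      apply P2_congr
      intro m n hm hn hY hZ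
      by_cases c1 : s < m ∧ m ≤ c0
      · have hc0 : 0 < c0 := by omega
        have c2 : Y / c0 < n := by
          rw [Nat.div_lt_iff_lt_mul hc0]
          calc Y < m * n := hY
            _ ≤ c0 * n := Nat.mul_le_mul_right n c1.2
            _ = n * c0 := mul_comm _ _
        have c3 : n ≤ s3 := by
          by_contra hcon
          push Not at hcon
          have : (s + 1) * (s3 + 1) ≤ m * n := Nat.mul_le_mul c1.1 hcon
          omega
        rw [if_pos c1, if_pos ⟨lt_of_le_of_lt (min_le_left _ _) c2, c3⟩, if_pos c1, one_mul,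
          mul_comm n m]
      · rw [if_neg c1]
        split_ifs <;> simp
    rw [e2]; ring
  -- third sum
  have h3 : P2 Y Z (fun m n => al4 u m * (if u < n then mu n else 0) * kap q a (m * n)) =
      BS Y Z u s (al4 u) mu (kap q a)
      + BS Y Z u s3 (fun m => if s < m then mu m else 0) (al4 u) (kap q a) := by
    have e1 : P2 Y Z (fun m n => al4 u m * (if u < n then mu n else 0) * kap q a (m * n)) =
        P2 Y Z (fun m n => (if u < n ∧ n ≤ s then al4 u m * mu n * kap q a (m * n) else 0) +
          (if s < n then al4 u m * mu n * kap q a (m * n) else 0)) := by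
      apply P2_congr
      intro m n hm hn hY _
      by_cases c1 : n ≤ u
      · rw [if_neg (by omega), if_neg (by omega), if_neg (by omega)]; ring
      · by_cases c2 : n ≤ s
        · rw [if_pos (by omega), if_pos ⟨by omega, c2⟩, if_neg (by omega)]; ring
        · rw [if_pos (by omega), if_neg (by omega), if_pos (by omega)]; ring
    rw [e1, P2_add, P2_box Y Z u s (al4 u) mu (kap q a) hsZ]
    congr 1
    rw [P2_swap, ← P2_box Y Z u s3 _ _ _ hs3Z]
    apply P2_congr
    intro m n hm hn hY hZ
    by_cases c1 : s < m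
    · have c3 : n ≤ s3 := by
        by_contra hcon
        push Not at hcon
        have : (s + 1) * (s3 + 1) ≤ m * n := Nat.mul_le_mul c1 hcon
        omega
      by_cases c4 : u < n
      · rw [if_pos c1, if_pos ⟨c4, c3⟩, if_pos c1, mul_comm n m]; ring
      · rw [if_pos c1, al4_zero u n (by omega), if_neg (by tauto)]; ring
    · rw [if_neg c1]
      split_ifs <;> simp
  rw [h2, h3]; ring

end Pool.Agent.BGV
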