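import Pool.Agent.BGV.BoxC
import Pool.Agent.BGV.TypeI

/-! Final assembly of part G-I: bilinear estimates imply equidistribution of `Λ`. -/

set_option autoImplicit false

namespace Pool.Agent.BGV

open Finset Pool.Agent.BV Pool.Agent.BGG

/-- prime powers with base dividing `q` -/
theorem noncoprime_sum (Y Z q : ℕ) (hq : 1 ≤ q) :
    ∑ k ∈ Ioc Y Z, (if Nat.Coprime k q then 0 else vM k) ≤ Nat.log 2 Z * Real.log q := by
  have h1 : (Nat.log 2 Z : ℝ) * Real.log q = ∑ k ∈ (q ^ Nat.log 2 Z).divisors, vM k := by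
    unfold vM
    rw [ArithmeticFunction.vonMangoldt_sum]
    push_cast
    rw [Real.log_pow]
  rw [h1]
  have h2 : ∑ k ∈ Ioc Y Z, (if Nat.Coprime k q then 0 else vM k) =
      ∑ k ∈ (Ioc Y Z).filter (fun k => ¬ Nat.Coprime k q ∧ vM k ≠ 0), vM k := by
    rw [Finset.sum_filter]
    refine Finset.sum_congr rfl fun k _ => ?_
    by_cases hc : Nat.Coprime k q
    · simp [hc]
    · by_cases hv : vM k = 0
      · simp [hc, hv]
      · simp [hc, hv]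
  rw [h2]
  apply Finset.sum_le_sum_of_subset_of_nonneg
  · intro k hk
    rw [Finset.mem_filter, Finset.mem_Ioc] at hk
    obtain ⟨⟨hkY, hkZ⟩, hc, hv⟩ := hk
    have hpp : IsPrimePow k := by
      unfold vM at hv
      exact ArithmeticFunction.vonMangoldt_ne_zero_iff.mp hv
    obtain ⟨p, j, hp, hj, hpk⟩ := hpp
    have hp' : p.Prime := Nat.prime_iff.mpr hp
    have hpq : p ∣ q := by
      by_contra hcon
      apply hc
      rw [← hpk]
      exact Nat.Coprime.pow_left j ((Nat.Prime.coprime_iff_not_dvd hp').mpr hcon)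
    rw [Nat.mem_divisors]
    constructor
    · rw [← hpk]
      have hjl : j ≤ Nat.log 2 Z := by
        apply Nat.le_log_of_pow_le (by norm_num)
        calc 2 ^ j ≤ p ^ j := Nat.pow_le_pow_left hp'.two_le j
          _ = k := hpk
          _ ≤ Z := hkZ
      calc p ^ j ∣ p ^ Nat.log 2 Z := pow_dvd_pow p hjl
        _ ∣ q ^ Nat.log 2 Z := pow_dvd_pow_of_dvd hpq _
    · positivity
  · intro k _ _
    exact vM_nonneg k

/-- `LamErr` through `kap` -/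
theorem LamErr_eq (y z : ℝ) (hy : 0 ≤ y) (q : ℕ) (a : ℤ) :
    LamErr y z q a = ∑ k ∈ Ioc ⌊y⌋₊ ⌊z⌋₊, vM k * kap q a k +
      ((∑ k ∈ Ioc ⌊y⌋₊ ⌊z⌋₊, vM k) - (z - y) -
        ∑ k ∈ Ioc ⌊y⌋₊ ⌊z⌋₊, (if Nat.Coprime k q then 0 else vM k)) / q.totient := by
  unfold LamErr
  have h1 : ∑ n ∈ Icc 1 ⌊z⌋₊, (if y < (n : ℝ) ∧ (q : ℤ) ∣ (n : ℤ) - a then
      ArithmeticFunction.vonMangoldt n else 0) =
      ∑ k ∈ Ioc ⌊y⌋₊ ⌊z⌋₊, vM k * (if (q : ℤ) ∣ (k : ℤ) - a then 1 else 0) := by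
    symm
    have hsub : Ioc ⌊y⌋₊ ⌊z⌋₊ ⊆ Icc 1 ⌊z⌋₊ := by
      intro n hn
      rw [Finset.mem_Ioc] at hn
      rw [Finset.mem_Icc]; omega
    rw [← Finset.sum_subset hsub (f := fun n : ℕ => (if y < (n : ℝ) ∧ (q : ℤ) ∣ (n : ℤ) - a then
      ArithmeticFunction.vonMangoldt n else 0))]
    · refine Finset.sum_congr rfl fun n hn => ?_
      rw [Finset.mem_Ioc] at hn
      have hyn : y < n := (Nat.floor_lt hy).mp hn.1
      by_cases hc : (q : ℤ) ∣ (n : ℤ) - a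
      · simp only [if_pos hc]; rw [if_pos ⟨hyn, hc⟩]; simp [vM]
      · simp only [if_neg hc]; rw [if_neg (by tauto)]; simp
    · intro n hn hn'
      rw [Finset.mem_Icc] at hn
      rw [Finset.mem_Ioc] at hn'
      rw [if_neg]
      rintro ⟨h2, _⟩
      exact hn' ⟨(Nat.floor_lt hy).mpr h2, hn.2⟩
  rw [h1]
  have h2 : ∑ k ∈ Ioc ⌊y⌋₊ ⌊z⌋₊, vM k * kap q a k =
      ∑ k ∈ Ioc ⌊y⌋₊ ⌊z⌋₊, vM k * (if (q : ℤ) ∣ (k : ℤ) - a then 1 else 0) -
      (∑ k ∈ Ioc ⌊y⌋₊ ⌊z⌋₊, (vM k - (if Nat.Coprime k q then 0 else vM k))) / q.totient := by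
    rw [Finset.sum_div, ← Finset.sum_sub_distrib]
    refine Finset.sum_congr rfl fun k _ => ?_
    unfold kap
    by_cases hc : Nat.Coprime k q
    · simp only [if_pos hc]; rw [mul_sub, div_eq_mul_inv, sub_zero]
    · simp only [if_neg hc]; simp
  rw [h2, Finset.sum_sub_distrib]
  ring

/-- PNT on an interval from `SWLam` -/
theorem pnt_interval (h : SWLam) (A : ℕ) : ∃ C : ℝ, 0 ≤ C ∧ ∀ x : ℝ, 4 ≤ x → ∀ y z : ℝ,
    x ≤ y → y ≤ z → z ≤ 3 * x →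
    |(∑ k ∈ Ioc ⌊y⌋₊ ⌊z⌋₊, vM k) - (z - y)| ≤ C * x / Real.log x ^ A := by
  obtain ⟨C, hC⟩ := h A
  refine ⟨6 * |C|, by positivity, fun x hx y z hxy hyz hz => ?_⟩
  have hLx : 0 < Real.log x := Real.log_pos (by linarith)
  have hone : ∀ t : ℝ, x ≤ t → t ≤ 3 * x →
      |(∑ n ∈ Icc 1 ⌊t⌋₊, vM n) - t| ≤ 3 * |C| * x / Real.log x ^ A := by
    intro t ht1 ht2
    have h1 := hC t (by linarith) 1 0 le_rfl (by simpa using (isCoprime_one_right (x := (0 : ℤ))))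
    have e : ∑ n ∈ Icc 1 ⌊t⌋₊, (if ((1 : ℕ) : ℤ) ∣ (n : ℤ) - 0 then
        ArithmeticFunction.vonMangoldt n else 0) = ∑ n ∈ Icc 1 ⌊t⌋₊, vM n := by
      refine Finset.sum_congr rfl fun n _ => ?_
      simp [vM]
    rw [e] at h1
    simp only [Nat.totient_one, Nat.cast_one, div_one] at h1
    refine h1.trans ?_
    have hLt : Real.log x ≤ Real.log t := Real.log_le_log (by linarith) ht1
    have ht0 : 0 ≤ t := by linarith
    calc C * t / Real.log t ^ A ≤ |C| * t / Real.log t ^ A := by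
          have : C * t ≤ |C| * t := mul_le_mul_of_nonneg_right (le_abs_self C) ht0
          have h0 : 0 < Real.log t ^ A := pow_pos (by linarith) A
          gcongr
      _ ≤ |C| * (3 * x) / Real.log x ^ A := by gcongr
      _ = 3 * |C| * x / Real.log x ^ A := by ring
  have e2 : ∑ k ∈ Ioc ⌊y⌋₊ ⌊z⌋₊, vM k =
      ∑ n ∈ Icc 1 ⌊z⌋₊, vM n - ∑ n ∈ Icc 1 ⌊y⌋₊, vM n := by
    have hfl : ⌊y⌋₊ ≤ ⌊z⌋₊ := Nat.floor_le_floor hyz
    have e3 : ∀ N : ℕ, ∑ n ∈ Icc 1 N, vM n = ∑ n ∈ Ioc 0 N, vM n := by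
      intro N
      refine Finset.sum_congr ?_ fun _ _ => rfl
      ext n; simp only [Finset.mem_Icc, Finset.mem_Ioc]; omega
    rw [e3, e3, ← Finset.sum_Ioc_consecutive vM (Nat.zero_le _) hfl]
    ring
  rw [e2]
  have h1 := hone z (by linarith) hz
  have h2 := hone y hxy (by linarith)
  calc |∑ n ∈ Icc 1 ⌊z⌋₊, vM n - ∑ n ∈ Icc 1 ⌊y⌋₊, vM n - (z - y)|
      = |((∑ n ∈ Icc 1 ⌊z⌋₊, vM n) - z) - ((∑ n ∈ Icc 1 ⌊y⌋₊, vM n) - y)| := by
        congr 1; ring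
    _ ≤ |(∑ n ∈ Icc 1 ⌊z⌋₊, vM n) - z| + |(∑ n ∈ Icc 1 ⌊y⌋₊, vM n) - y| := abs_sub _ _
    _ ≤ 3 * |C| * x / Real.log x ^ A + 3 * |C| * x / Real.log x ^ A := add_le_add h1 h2
    _ = 6 * |C| * x / Real.log x ^ A := by ring

/-- sum of `1/φ` over the moduli -/
theorem sum_inv_totient (Q : Finset ℕ) (X0 : ℕ) (hQ : ∀ q ∈ Q, 1 ≤ q ∧ q ≤ X0) :
    ∑ q ∈ Q, 1 / (q.totient : ℝ) ≤ (1 + Real.log X0) ^ 2 := by
  have h2 := tau_pow_sum_totient 0 X0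
  simp only [pow_zero, zero_add, pow_one] at h2
  refine le_trans ?_ h2
  apply Finset.sum_le_sum_of_subset_of_nonneg
  · intro q hq; exact Finset.mem_Icc.mpr (hQ q hq)
  · intro q _ _; positivity

end Pool.Agent.BGV
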