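import Pool.Agent.BGV.MainA

/-! Part G-I: bilinear estimates imply equidistribution of `Λ`, for every set of class maps. -/

set_option autoImplicit false

namespace Pool.Agent.BGV

open Finset Pool.Agent.BV Pool.Agent.BGG

theorem abs_log_le {x : ℝ} (hx : 1 ≤ x) (m : ℕ) (hm : (m : ℝ) ≤ x) : Real.log m ≤ Real.log x := by
  rcases Nat.eq_zero_or_pos m with h | h
  · rw [h]; simpa using Real.log_nonneg hx
  · exact Real.log_le_log (by exact_mod_cast h) hm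

/-- trivial bound -/
theorem LamErr_trivial (x0 x : ℝ) (hx : 2 ≤ x) (hx0 : x ≤ x0) (y z : ℝ) (hxy : x ≤ y) (hyz : y ≤ z)
    (hz : z ≤ 3 * x) (q : ℕ) (hq : 1 ≤ q) (a : ℤ) :
    |LamErr y z q a| ≤ 3 * x0 * Real.log (3 * x0) + 2 * x0 := by
  unfold LamErr
  have hφ1 : (1 : ℝ) ≤ q.totient := by exact_mod_cast Nat.totient_pos.mpr hq
  have hzz : 0 ≤ z := by linarith
  have h1 : |∑ n ∈ Icc 1 ⌊z⌋₊, (if y < (n : ℝ) ∧ (q : ℤ) ∣ (n : ℤ) - a then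
      ArithmeticFunction.vonMangoldt n else 0)| ≤ 3 * x0 * Real.log (3 * x0) := by
    refine (Finset.abs_sum_le_sum_abs _ _).trans ?_
    have h2 : ∀ n ∈ Icc 1 ⌊z⌋₊, |(if y < (n : ℝ) ∧ (q : ℤ) ∣ (n : ℤ) - a then
        ArithmeticFunction.vonMangoldt n else 0)| ≤ Real.log (3 * x0) := by
      intro n hn
      rw [Finset.mem_Icc] at hn
      have h3 : (n : ℝ) ≤ z := (Nat.cast_le.mpr hn.2).trans (Nat.floor_le hzz)
      have h4 : Real.log n ≤ Real.log (3 * x0) :=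
        abs_log_le (by linarith) n (by linarith)
      split_ifs
      · rw [abs_of_nonneg ArithmeticFunction.vonMangoldt_nonneg]
        exact ArithmeticFunction.vonMangoldt_le_log.trans h4
      · rw [abs_zero]; exact (Real.log_natCast_nonneg n).trans h4
    refine (Finset.sum_le_card_nsmul _ _ _ h2).trans ?_
    rw [nsmul_eq_mul, Nat.card_Icc, Nat.add_sub_cancel]
    apply mul_le_mul_of_nonneg_right _ (Real.log_nonneg (by linarith))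
    exact (Nat.floor_le hzz).trans (by linarith)
  have h2 : |(z - y) / (q.totient : ℝ)| ≤ 2 * x0 := by
    rw [abs_of_nonneg (div_nonneg (by linarith) (by linarith))]
    calc (z - y) / (q.totient : ℝ) ≤ z - y := div_le_self (by linarith) hφ1
      _ ≤ 2 * x0 := by linarith
  exact (abs_sub _ _).trans (add_le_add h1 h2)

/-- the bound for one modulus -/
theorem LamErr_bound (y z : ℝ) (hy : 0 ≤ y) (q : ℕ) (hq : 1 ≤ q) (a : ℤ)
    (ha : IsCoprime a (q : ℤ)) (u s c0 s3 : ℕ) (huY : u * u * u ≤ ⌊y⌋₊) (hu1 : 1 ≤ u)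
    (hus : u ≤ s) (hsc : s ≤ c0) (hsZ : s ≤ ⌊z⌋₊) (hs3 : ⌊z⌋₊ < (s + 1) * (s3 + 1))
    (hs3Z : s3 ≤ ⌊z⌋₊) (P : ℝ) (hP : |(∑ k ∈ Ioc ⌊y⌋₊ ⌊z⌋₊, vM k) - (z - y)| ≤ P) :
    |LamErr y z q a| ≤
      (u * Real.log ⌊z⌋₊ + ((⌊z⌋₊ / (c0 + 1) : ℕ) : ℝ) * Real.log ⌊z⌋₊) +
      (P + Nat.log 2 ⌊z⌋₊ * Real.log q) * (1 / q.totient) +
      (|BS ⌊y⌋₊ ⌊z⌋₊ u s (al2 u) (fun _ => 1) (kap q a)| +
      |BS ⌊y⌋₊ ⌊z⌋₊ (min (⌊y⌋₊ / c0) s3) s3 (fun m => if s < m ∧ m ≤ c0 then 1 else 0) (al2 u)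
        (kap q a)| +
      |BS ⌊y⌋₊ ⌊z⌋₊ u s (al4 u) mu (kap q a)| +
      |BS ⌊y⌋₊ ⌊z⌋₊ u s3 (fun m => if s < m then mu m else 0) (al4 u) (kap q a)|) := by
  rw [LamErr_eq y z hy, main_identity ⌊y⌋₊ ⌊z⌋₊ u s c0 s3 q a huY hu1 hus hsc hsZ hs3 hs3Z]
  have h1 := S1_bound ⌊y⌋₊ ⌊z⌋₊ u q a hq ha
  have h2 := S2c_bound ⌊y⌋₊ ⌊z⌋₊ u c0 q a hq ha
  have h3 := noncoprime_sum ⌊y⌋₊ ⌊z⌋₊ q hq
  have h3' : 0 ≤ ∑ k ∈ Ioc ⌊y⌋₊ ⌊z⌋₊, (if Nat.Coprime k q then 0 else vM k) :=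
    Finset.sum_nonneg fun k _ => by split_ifs <;> [exact le_rfl; exact vM_nonneg k]
  have hφ : (0 : ℝ) < q.totient := by exact_mod_cast Nat.totient_pos.mpr hq
  set T1 := P2 ⌊y⌋₊ ⌊z⌋₊ (fun m n => (if m ≤ u then mu m else 0) * Real.log n * kap q a (m * n))
  set T2 := P2 ⌊y⌋₊ ⌊z⌋₊ (fun m n => if c0 < n then al2 u m * kap q a (m * n) else 0)
  set B1 := BS ⌊y⌋₊ ⌊z⌋₊ u s (al2 u) (fun _ => 1) (kap q a)
  set B2 := BS ⌊y⌋₊ ⌊z⌋₊ (min (⌊y⌋₊ / c0) s3) s3 (fun m => if s < m ∧ m ≤ c0 then 1 else 0) (al2 u)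
        (kap q a)
  set B3 := BS ⌊y⌋₊ ⌊z⌋₊ u s (al4 u) mu (kap q a)
  set B4 := BS ⌊y⌋₊ ⌊z⌋₊ u s3 (fun m => if s < m then mu m else 0) (al4 u) (kap q a)
  set NC := ∑ k ∈ Ioc ⌊y⌋₊ ⌊z⌋₊, (if Nat.Coprime k q then 0 else vM k)
  have h4 : |((∑ k ∈ Ioc ⌊y⌋₊ ⌊z⌋₊, vM k) - (z - y) - NC) / q.totient| ≤
      (P + Nat.log 2 ⌊z⌋₊ * Real.log q) * (1 / q.totient) := by
    rw [abs_div, abs_of_pos hφ, div_eq_mul_one_div]
    apply mul_le_mul_of_nonneg_right _ (by positivity)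
    calc |(∑ k ∈ Ioc ⌊y⌋₊ ⌊z⌋₊, vM k) - (z - y) - NC| ≤
          |(∑ k ∈ Ioc ⌊y⌋₊ ⌊z⌋₊, vM k) - (z - y)| + |NC| := abs_sub _ _
      _ ≤ P + Nat.log 2 ⌊z⌋₊ * Real.log q := by
          rw [abs_of_nonneg h3']; exact add_le_add hP h3
  have h5 : |T1 - B1 - B2 - T2 + B3 + B4| ≤ |T1| + |B1| + |B2| + |T2| + |B3| + |B4| := by
    have e1 := abs_add_le (T1 - B1 - B2 - T2 + B3) B4
    have e2 := abs_add_le (T1 - B1 - B2 - T2) B3
    have e3 := abs_sub (T1 - B1 - B2) T2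
    have e4 := abs_sub (T1 - B1) B2
    have e5 := abs_sub T1 B1
    linarith
  have h6 := abs_add_le (T1 - B1 - B2 - T2 + B3 + B4)
    (((∑ k ∈ Ioc ⌊y⌋₊ ⌊z⌋₊, vM k) - (z - y) - NC) / q.totient)
  linarith

/-- large `x` -/
private theorem gI_large (w : ℝ) (hw0 : 0 < w) (hw : w ≤ 1 / 100) (D : ℝ → Finset ℕ)
    (hD : ∀ x : ℝ, 2 ≤ x → ∀ q ∈ D x, 1 ≤ q ∧ (q : ℝ) ≤ x ^ (1 / 2 + 2 * w)) (A : ℕ)
    (C1 C2 C3 C4 x : ℝ) (hx20 : 10 ^ 20 ≤ x) (hC2 : 0 ≤ C2) (a : ℕ → ℤ) (y z : ℝ) (hxy : x ≤ y)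
    (hyz : y ≤ z) (hz : z ≤ 3 * x)
    (hbox : ∀ N1 N2 : ℕ, x ^ (1 / 3 : ℝ) / 4 ≤ N1 → N1 ≤ N2 →
      (N2 : ℝ) ≤ 4 * x ^ (1 / 2 : ℝ) → ∀ α β : ℕ → ℝ,
      (∀ m : ℕ, (m : ℝ) ≤ x → |α m| ≤ Real.log x) → (∀ n : ℕ, (n : ℝ) ≤ x → |β n| ≤ Real.log x) →
      (∀ G : ℕ, N1 ≤ G → Piece x ⌊x ^ (1 / 3 : ℝ)⌋₊ G β) →
      ∑ q ∈ D x, (if IsCoprime (a q) (q : ℤ) then
        |BS ⌊y⌋₊ ⌊z⌋₊ N1 N2 α β (kap q (a q))| else 0) ≤ C1 * x / (Real.log x) ^ A)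
    (hP : |(∑ k ∈ Ioc ⌊y⌋₊ ⌊z⌋₊, vM k) - (z - y)| ≤ C2 * x / Real.log x ^ (A + 2))
    (hlp : Real.log x ^ (A + 1) ≤ C3 * x ^ w)
    (hlp4 : Real.log x ^ (A + 4) ≤ C4 * x) :
    ∑ q ∈ D x, (if IsCoprime (a q) (q : ℤ) then |LamErr y z q (a q)| else 0) ≤
      8 * C3 * x / Real.log x ^ A + (4 * C2 + 16 * C4) * x / Real.log x ^ A +
        (C1 * x / Real.log x ^ A + C1 * x / Real.log x ^ A + C1 * x / Real.log x ^ A +
          C1 * x / Real.log x ^ A) := by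
  have hxpos := MainA.pos hx20
  have hx1' := MainA.one hx20
  have hL2 : 2 ≤ Real.log x := by
    rw [Real.le_log_iff_exp_le hxpos]
    exact MainA.exp2 hx20
  have hL1 : 1 ≤ Real.log x := le_trans (by norm_num) hL2
  have hLpos : 0 < Real.log x := lt_of_lt_of_le (by norm_num) hL2
  have hxz : x ≤ z := hxy.trans hyz
  have hy0 : 0 ≤ y := hxpos.le.trans hxy
  have hz0 : 0 ≤ z := hxpos.le.trans hxz
  have hDx := hD x (le_trans (by norm_num) hx20)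
  have hlogZ := MainA.logZ hx20 hxz hz hL2
  have hlogZ0 : 0 ≤ Real.log ((⌊z⌋₊ : ℕ) : ℝ) := Real.log_natCast_nonneg _
  have hnl := MainA.nlogZ hx20 hxz hz hL2
  have hE1 : ∀ w' : ℝ, w' = w → ((⌊x ^ (1 / 3 : ℝ)⌋₊ : ℕ) : ℝ) * Real.log ((⌊z⌋₊ : ℕ) : ℝ) +
      ((⌊z⌋₊ / (⌊x ^ (1 / 2 + 3 * w)⌋₊ + 1) : ℕ) : ℝ) * Real.log ((⌊z⌋₊ : ℕ) : ℝ) ≤
      x ^ (1 / 3 : ℝ) * (2 * Real.log x) + 3 * x ^ (1 / 2 - 3 * w) * (2 * Real.log x) :=
    fun _ _ => MainA.E1a hx20 hz0 hz hlogZ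
  have hu1 := MainA.u1 hx20
  have hus := MainA.us hx20
  have hsc := MainA.sc hx20 hw0
  have huY := MainA.uY hx20 hxy
  have hsZ := MainA.sZ hx20 hxz
  have hs3Z := MainA.s3Z hx20 hxz
  have hs3' := MainA.s3p hx20 hz0 hz
  have hss3 := MainA.ss3 hx20
  have hN13 := MainA.uq hx20
  have hN13' := MainA.r13 hx20 hw0 hw hxy
  have h920 := MainA.r920 hx20 hw0 hw hxy
  have hs4 := MainA.s4 hx20
  have hs34 := MainA.s34 hx20
  have hE1' := hE1 w rfl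
  clear hE1
  have hcard : ((D x).card : ℝ) ≤ x ^ (1 / 2 + 2 * w) := by
    have h1 : D x ⊆ Icc 1 ⌊x ^ (1 / 2 + 2 * w)⌋₊ := by
      intro q hq
      have := hDx q hq
      exact Finset.mem_Icc.mpr ⟨this.1, Nat.le_floor this.2⟩
    have h2 := Finset.card_le_card h1
    rw [Nat.card_Icc, Nat.add_sub_cancel] at h2
    calc ((D x).card : ℝ) ≤ (⌊x ^ (1 / 2 + 2 * w)⌋₊ : ℝ) := by exact_mod_cast h2
      _ ≤ x ^ (1 / 2 + 2 * w) := Nat.floor_le (Real.rpow_nonneg hxpos.le _)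
  generalize hu : ⌊x ^ (1 / 3 : ℝ)⌋₊ = u at *
  generalize hs : ⌊x ^ (1 / 2 : ℝ)⌋₊ = s at *
  generalize hc0 : ⌊x ^ (1 / 2 + 3 * w)⌋₊ = c0 at *
  generalize hs3 : ⌊3 * x ^ (1 / 2 : ℝ)⌋₊ = s3 at *
  have al2b : ∀ m : ℕ, (m : ℝ) ≤ x → |al2 u m| ≤ Real.log x := fun m hm =>
    (abs_al2_le u m).trans (abs_log_le hx1' m hm)
  have al4b : ∀ m : ℕ, (m : ℝ) ≤ x → |al4 u m| ≤ Real.log x := fun m hm =>
    (abs_al4_le u m).trans (abs_log_le hx1' m hm)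
  have b1 := hbox u s hN13 hus hs4 (al2 u)
    (fun _ => 1) al2b (fun n _ => by rw [abs_one]; exact hL1) (fun G _ => Or.inl rfl)
  have b2 := hbox (min (⌊y⌋₊ / c0) s3) s3 hN13'
    (min_le_right _ _) hs34 (fun m => if s < m ∧ m ≤ c0 then 1 else 0) (al2 u)
    (fun m _ => by
      split_ifs
      · rw [abs_one]; exact hL1
      · rw [abs_zero]; exact hLpos.le) al2b
    (fun G hG => Or.inr (Or.inr (Or.inr ⟨rfl, by
      have : ((min (⌊y⌋₊ / c0) s3 : ℕ) : ℝ) ≤ G := by exact_mod_cast hG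
      exact h920.trans this⟩)))
  have b3 := hbox u s hN13 hus hs4 (al4 u)
    mu al4b (fun n _ => (abs_mu_le n).trans hL1) (fun G _ => Or.inr (Or.inl rfl))
  have b4 := hbox u s3 hN13 (hus.trans hss3) hs34
    (fun m => if s < m then mu m else 0) (al4 u)
    (fun m _ => by
      split_ifs
      · exact (abs_mu_le m).trans hL1
      · rw [abs_zero]; exact hLpos.le) al4b
    (fun G _ => Or.inr (Or.inr (Or.inl rfl)))
  have hpt : ∀ q ∈ D x, (if IsCoprime (a q) (q : ℤ) then |LamErr y z q (a q)| else 0) ≤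
      ((x ^ (1 / 3 : ℝ) * (2 * Real.log x) + 3 * x ^ (1 / 2 - 3 * w) * (2 * Real.log x)) +
        (C2 * x / Real.log x ^ (A + 2) + 4 * Real.log x * Real.log x) * (1 / q.totient)) +
      ((if IsCoprime (a q) (q : ℤ) then
          |BS ⌊y⌋₊ ⌊z⌋₊ u s (al2 u) (fun _ => 1) (kap q (a q))| else 0) +
      (if IsCoprime (a q) (q : ℤ) then
          |BS ⌊y⌋₊ ⌊z⌋₊ (min (⌊y⌋₊ / c0) s3) s3 (fun m => if s < m ∧ m ≤ c0 then 1 else 0) (al2 u)
            (kap q (a q))| else 0) +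
      (if IsCoprime (a q) (q : ℤ) then
          |BS ⌊y⌋₊ ⌊z⌋₊ u s (al4 u) mu (kap q (a q))| else 0) +
      (if IsCoprime (a q) (q : ℤ) then
          |BS ⌊y⌋₊ ⌊z⌋₊ u s3 (fun m => if s < m then mu m else 0) (al4 u)
            (kap q (a q))| else 0)) := by
    intro q hq
    have hqD := hDx q hq
    by_cases hc : IsCoprime (a q) (q : ℤ)
    · simp only [if_pos hc]
      refine (LamErr_bound y z hy0 q hqD.1 (a q) hc u s c0 s3 huY hu1 hus hsc hsZ hs3' hs3Z _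
        hP).trans ?_
      apply add_le_add_left
      apply add_le_add hE1'
      apply mul_le_mul_of_nonneg_right _ (by positivity)
      apply add_le_add_right
      exact mul_le_mul hnl (MainA.lq hx20 hw hqD.1 hqD.2) (Real.log_natCast_nonneg q)
        (mul_nonneg (by norm_num) hLpos.le)
    · simp only [if_neg hc]
      have h1 : 0 ≤ x ^ (1 / 3 : ℝ) * (2 * Real.log x) +
          3 * x ^ (1 / 2 - 3 * w) * (2 * Real.log x) := by positivity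
      have h2 : 0 ≤ (C2 * x / Real.log x ^ (A + 2) + 4 * Real.log x * Real.log x) *
          (1 / (q.totient : ℝ)) := by positivity
      simpa using add_nonneg h1 h2
  refine (Finset.sum_le_sum hpt).trans ?_
  simp only [Finset.sum_add_distrib]
  have p1 : ∑ _q ∈ D x, (x ^ (1 / 3 : ℝ) * (2 * Real.log x) +
      3 * x ^ (1 / 2 - 3 * w) * (2 * Real.log x)) ≤ 8 * C3 * x / Real.log x ^ A := by
    rw [Finset.sum_const, nsmul_eq_mul]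
    exact MainA.p1 A hx20 hw hLpos hcard hlp
  have p2 : ∑ q ∈ D x, (C2 * x / Real.log x ^ (A + 2) + 4 * Real.log x * Real.log x) *
      (1 / (q.totient : ℝ)) ≤ (4 * C2 + 16 * C4) * x / Real.log x ^ A := by
    rw [← Finset.mul_sum]
    have e0 : ∀ q ∈ D x, 1 ≤ q ∧ q ≤ ⌊x ^ (1 / 2 + 2 * w)⌋₊ := by
      intro q hq
      have := hDx q hq
      exact ⟨this.1, Nat.le_floor this.2⟩
    have e1 := sum_inv_totient (D x) _ e0
    have h2 : 0 ≤ Real.log (⌊x ^ (1 / 2 + 2 * w)⌋₊ : ℝ) := Real.log_natCast_nonneg _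
    have h1 : Real.log (⌊x ^ (1 / 2 + 2 * w)⌋₊ : ℝ) ≤ Real.log x := by
      apply abs_log_le hx1'
      refine (Nat.floor_le (Real.rpow_nonneg hxpos.le _)).trans ?_
      calc x ^ (1 / 2 + 2 * w) ≤ x ^ (1 : ℝ) :=
            Real.rpow_le_rpow_of_exponent_le hx1' (by linarith)
        _ = x := Real.rpow_one x
    exact MainA.p2 A hxpos hLpos hC2 e1 (add_nonneg zero_le_one h2)
      ((add_le_add hL1 h1).trans_eq (two_mul _).symm) hlp4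
  rw [Finset.sum_add_distrib] at p1
  exact add_le_add (add_le_add p1 p2) (add_le_add (add_le_add (add_le_add b1 b2) b3) b4)

theorem gI (w : ℝ) (hw0 : 0 < w) (hw : w ≤ 1 / 100) (Acl : Set (ℕ → ℤ)) (D : ℝ → Finset ℕ)
    (hD : ∀ x : ℝ, 2 ≤ x → ∀ q ∈ D x, 1 ≤ q ∧ (q : ℝ) ≤ x ^ (1 / 2 + 2 * w))
    (hB : BILg Acl D) (hmu : SWmu) (hLam : SWLam) : EHg Acl D := by
  intro A
  obtain ⟨K, xs, hSW⟩ := sw_pieces hmu hLam
  obtain ⟨C1, x1, hC1, hx1, hbox⟩ := box_est w hw0 hw Acl D hD hB A K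
  obtain ⟨C2, hC2, hpnt⟩ := pnt_interval hLam (A + 2)
  obtain ⟨C3, hC3, hlp⟩ := log_pow_le (A + 1) w hw0
  obtain ⟨C4, hC4, hlp4⟩ := log_pow_le (A + 4) 1 one_pos
  have hx0a : (10 : ℝ) ^ 20 ≤ max (10 ^ 20) (max xs x1) := le_max_left _ _
  have hx0b : xs ≤ max (10 ^ 20) (max xs x1) := (le_max_left _ _).trans (le_max_right _ _)
  have hx0c : x1 ≤ max (10 ^ 20) (max xs x1) := (le_max_right _ _).trans (le_max_right _ _)
  generalize max ((10 : ℝ) ^ 20) (max xs x1) = x0 at hx0a hx0b hx0c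
  have hx0pos : 0 < x0 := lt_of_lt_of_le (by norm_num) hx0a
  have hx01 : 1 < x0 := lt_of_lt_of_le (by norm_num) hx0a
  have hlogx0 : 0 < Real.log x0 := Real.log_pos hx01
  have h4 : 0 ≤ 3 * x0 * Real.log (3 * x0) + 2 * x0 := by
    have : 0 ≤ Real.log (3 * x0) := Real.log_nonneg (by linarith)
    positivity
  have hB0pos : 0 ≤ x0 * (3 * x0 * Real.log (3 * x0) + 2 * x0) := mul_nonneg hx0pos.le h4
  refine ⟨(4 * C1 + 8 * C3 + 4 * C2 + 16 * C4) +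
    x0 * (3 * x0 * Real.log (3 * x0) + 2 * x0) * Real.log x0 ^ A, fun x hx a ha y z hxy hyz hz => ?_⟩
  have hxpos : 0 < x := by linarith
  have hx1' : 1 ≤ x := by linarith
  have hLpos : 0 < Real.log x := Real.log_pos (by linarith)
  rcases le_or_gt x0 x with hbig | hsmall
  · have hx20 : (10 : ℝ) ^ 20 ≤ x := hx0a.trans hbig
    have hYu : y < ((⌊y⌋₊ : ℕ) : ℝ) + 1 := Nat.lt_floor_add_one _
    have hZl : ((⌊z⌋₊ : ℕ) : ℝ) ≤ z := Nat.floor_le (by linarith)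
    have hlp4' := hlp4 x hx1'
    rw [Real.rpow_one] at hlp4'
    have hbox' : ∀ N1 N2 : ℕ, x ^ (1 / 3 : ℝ) / 4 ≤ N1 → N1 ≤ N2 →
        (N2 : ℝ) ≤ 4 * x ^ (1 / 2 : ℝ) → ∀ α β : ℕ → ℝ,
        (∀ m : ℕ, (m : ℝ) ≤ x → |α m| ≤ Real.log x) →
        (∀ n : ℕ, (n : ℝ) ≤ x → |β n| ≤ Real.log x) →
        (∀ G : ℕ, N1 ≤ G → Piece x ⌊x ^ (1 / 3 : ℝ)⌋₊ G β) →
        ∑ q ∈ D x, (if IsCoprime (a q) (q : ℤ) then
          |BS ⌊y⌋₊ ⌊z⌋₊ N1 N2 α β (kap q (a q))| else 0) ≤ C1 * x / (Real.log x) ^ A := by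
      intro N1 N2 h1 h12 h2 α β hα hβ hG
      refine hbox x (hx0c.trans hbig) a ha ⌊y⌋₊ ⌊z⌋₊ N1 N2 (hxy.trans hYu.le)
        (Nat.floor_le_floor hyz) (hZl.trans hz) h1 h12 h2 α β hα hβ ?_
      intro G G' g1 g2 g3 g4
      have g1r : (N1 : ℝ) ≤ G := by exact_mod_cast g1
      have g2r : (G : ℝ) ≤ N2 := by exact_mod_cast g2.trans g3
      have hG4 : (G : ℝ) ≤ x := by
        have h5 := MainA.x100 hx20
        linarith
      exact hSW x (hx0b.trans hbig) _ (MainA.u3 hx20) (MainA.u8 hx20) G G' (h1.trans g1r) hG4 g2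
        g4 β (hG G g1)
    refine (gI_large w hw0 hw D hD A C1 C2 C3 C4 x hx20 hC2 a y z hxy hyz hz hbox'
      (hpnt x (le_trans (by norm_num) hx20) y z hxy hyz hz) (hlp x hx1') hlp4').trans ?_
    have hfin : ((4 * C1 + 8 * C3 + 4 * C2 + 16 * C4) +
        x0 * (3 * x0 * Real.log (3 * x0) + 2 * x0) * Real.log x0 ^ A) * x / Real.log x ^ A =
        8 * C3 * x / Real.log x ^ A + (4 * C2 + 16 * C4) * x / Real.log x ^ A +
        (C1 * x / Real.log x ^ A + C1 * x / Real.log x ^ A + C1 * x / Real.log x ^ A +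
          C1 * x / Real.log x ^ A) +
        x0 * (3 * x0 * Real.log (3 * x0) + 2 * x0) * Real.log x0 ^ A * x / Real.log x ^ A := by
      ring
    rw [hfin]
    have hlast : 0 ≤ x0 * (3 * x0 * Real.log (3 * x0) + 2 * x0) * Real.log x0 ^ A * x /
        Real.log x ^ A := by positivity
    exact le_add_of_nonneg_right hlast
  · -- small x
    have h1 : ∀ q ∈ D x, (if IsCoprime (a q) (q : ℤ) then |LamErr y z q (a q)| else 0) ≤
        3 * x0 * Real.log (3 * x0) + 2 * x0 := by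
      intro q hq
      have hqD := hD x hx q hq
      have h2 := LamErr_trivial x0 x hx hsmall.le y z hxy hyz hz q hqD.1 (a q)
      split_ifs
      · exact h2
      · exact (abs_nonneg _).trans h2
    refine (Finset.sum_le_card_nsmul _ _ _ h1).trans ?_
    rw [nsmul_eq_mul]
    have hcard : ((D x).card : ℝ) ≤ x ^ (1 / 2 + 2 * w) := by
      have h1 : D x ⊆ Icc 1 ⌊x ^ (1 / 2 + 2 * w)⌋₊ := by
        intro q hq
        have := hD x hx q hq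
        exact Finset.mem_Icc.mpr ⟨this.1, Nat.le_floor this.2⟩
      have h2 := Finset.card_le_card h1
      rw [Nat.card_Icc, Nat.add_sub_cancel] at h2
      calc ((D x).card : ℝ) ≤ (⌊x ^ (1 / 2 + 2 * w)⌋₊ : ℝ) := by exact_mod_cast h2
        _ ≤ x ^ (1 / 2 + 2 * w) := Nat.floor_le (Real.rpow_nonneg hxpos.le _)
    have h3 : ((D x).card : ℝ) ≤ x0 := by
      refine hcard.trans ?_
      calc x ^ (1 / 2 + 2 * w) ≤ x ^ (1 : ℝ) :=
            Real.rpow_le_rpow_of_exponent_le hx1' (by linarith)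
        _ = x := Real.rpow_one x
        _ ≤ x0 := hsmall.le
    refine (mul_le_mul_of_nonneg_right h3 h4).trans ?_
    have hLle : Real.log x ≤ Real.log x0 := Real.log_le_log hxpos hsmall.le
    have h6 : Real.log x ^ A ≤ Real.log x0 ^ A := pow_le_pow_left₀ hLpos.le hLle A
    have h7 : (0 : ℝ) < Real.log x ^ A := by positivity
    generalize x0 * (3 * x0 * Real.log (3 * x0) + 2 * x0) = B0 at hB0pos ⊢
    rw [le_div_iff₀ h7]
    have h8 : B0 * Real.log x ^ A ≤ B0 * Real.log x0 ^ A := mul_le_mul_of_nonneg_left h6 hB0pos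
    have h9 : 0 ≤ B0 * Real.log x0 ^ A := mul_nonneg hB0pos (pow_nonneg hlogx0.le A)
    have h10 : B0 * Real.log x0 ^ A ≤ B0 * Real.log x0 ^ A * x := le_mul_of_one_le_right h9 hx1'
    have h11 : 0 ≤ (4 * C1 + 8 * C3 + 4 * C2 + 16 * C4) * x := by positivity
    rw [add_mul]
    exact h8.trans (h10.trans (le_add_of_nonneg_left h11))

/-- one integer `a` for all moduli -/
theorem gI_const (w : ℝ) (hw0 : 0 < w) (hw : w ≤ 1 / 100) (D : ℝ → Finset ℕ)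
    (hD : ∀ x : ℝ, 2 ≤ x → ∀ q ∈ D x, 1 ≤ q ∧ (q : ℝ) ≤ x ^ (1 / 2 + 2 * w))
    (hB : BIL D) (hmu : SWmu) (hLam : SWLam) : EHs D :=
  (EHs_iff D).mpr (gI w hw0 hw _ D hD ((BIL_iff D).mp hB) hmu hLam)

/-- Bombieri-Vinogradov -/
theorem gI_BV (θ : ℝ) (hθ : θ < 1 / 2)
    (hB : BILg Set.univ (fun x => Icc 1 ⌊x ^ θ⌋₊)) (hmu : SWmu) (hLam : SWLam) : BVs θ := by
  refine (BVs_iff θ).mpr (gI (1 / 100) (by norm_num) le_rfl _ _ ?_ hB hmu hLam)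
  intro x hx q hq
  rw [Finset.mem_Icc] at hq
  refine ⟨hq.1, ?_⟩
  have h1 : (q : ℝ) ≤ x ^ θ := (Nat.cast_le.mpr hq.2).trans (Nat.floor_le (by positivity))
  exact h1.trans (Real.rpow_le_rpow_of_exponent_le (by linarith) (by linarith))

end Pool.Agent.BGV
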