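import Pool.Agent.BGV.Final

/-! Sizes of the parameters in `gI` (kept outside the long proof). -/

set_option autoImplicit false

namespace Pool.Agent.BGV

open Finset Pool.Agent.BV Pool.Agent.BGG

namespace MainA

theorem exp2 {x : ℝ} (hx : 10 ^ 20 ≤ x) : Real.exp 2 ≤ x := by
  have h1 : Real.exp 2 = Real.exp 1 * Real.exp 1 := by rw [← Real.exp_add]; norm_num
  have h2 := Real.exp_one_lt_d9
  have h3 := Real.exp_pos 1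
  have h4 : Real.exp 2 ≤ 9 := by nlinarith
  have h5 : (9 : ℝ) ≤ 10 ^ 20 := by norm_num
  exact h4.trans (h5.trans hx)

theorem log3 : Real.log 3 ≤ 2 := by
  rw [Real.log_le_iff_le_exp (by norm_num)]
  have h1 : Real.exp 2 = Real.exp 1 * Real.exp 1 := by rw [← Real.exp_add]; norm_num
  have h2 := Real.exp_one_gt_d9
  nlinarith

theorem p13 {x : ℝ} (hx : 10 ^ 20 ≤ x) : 1000 ≤ x ^ (1 / 3 : ℝ) := by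
  have h : (1000 : ℝ) = ((10 : ℝ) ^ 9) ^ (1 / 3 : ℝ) := by
    rw [← Real.rpow_natCast, ← Real.rpow_mul (by norm_num)]; norm_num
  rw [h]
  exact Real.rpow_le_rpow (by positivity)
    (by linarith [show (10 : ℝ) ^ 9 ≤ 10 ^ 20 by norm_num]) (by norm_num)

theorem p12 {x : ℝ} (hx : 10 ^ 20 ≤ x) : 10 ^ 10 ≤ x ^ (1 / 2 : ℝ) := by
  have h : (10 : ℝ) ^ 10 = ((10 : ℝ) ^ 20) ^ (1 / 2 : ℝ) := by
    rw [← Real.rpow_natCast (10 : ℝ) 20, ← Real.rpow_mul (by norm_num)]; norm_num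
  rw [h]
  exact Real.rpow_le_rpow (by positivity) hx (by norm_num)

theorem pos {x : ℝ} (hx : 10 ^ 20 ≤ x) : 0 < x := lt_of_lt_of_le (by norm_num) hx

theorem one {x : ℝ} (hx : 10 ^ 20 ≤ x) : 1 ≤ x := le_trans (by norm_num) hx

theorem sq12 {x : ℝ} (hx : 0 < x) : x ^ (1 / 2 : ℝ) * x ^ (1 / 2 : ℝ) = x := by
  rw [← Real.rpow_add hx]; norm_num

theorem cube13 {x : ℝ} (hx : 0 ≤ x) : (x ^ (1 / 3 : ℝ)) ^ 3 = x := by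
  rw [← Real.rpow_natCast, ← Real.rpow_mul hx]; norm_num

theorem ul (x : ℝ) (hx : 10 ^ 20 ≤ x) : ((⌊x ^ (1 / 3 : ℝ)⌋₊ : ℕ) : ℝ) ≤ x ^ (1 / 3 : ℝ) :=
  Nat.floor_le (Real.rpow_nonneg (pos hx).le _)

theorem u3 {x : ℝ} (hx : 10 ^ 20 ≤ x) : ((⌊x ^ (1 / 3 : ℝ)⌋₊ : ℕ) : ℝ) ^ 3 ≤ x := by
  calc ((⌊x ^ (1 / 3 : ℝ)⌋₊ : ℕ) : ℝ) ^ 3 ≤ (x ^ (1 / 3 : ℝ)) ^ 3 :=
        pow_le_pow_left₀ (Nat.cast_nonneg _) (ul x hx) 3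
    _ = x := cube13 (pos hx).le

theorem u8 {x : ℝ} (hx : 10 ^ 20 ≤ x) : x ≤ 8 * ((⌊x ^ (1 / 3 : ℝ)⌋₊ : ℕ) : ℝ) ^ 3 := by
  have h0 := Nat.lt_floor_add_one (x ^ (1 / 3 : ℝ))
  have h2 := p13 hx
  have h1 : x ^ (1 / 3 : ℝ) ≤ 2 * ((⌊x ^ (1 / 3 : ℝ)⌋₊ : ℕ) : ℝ) := by linarith
  have h3 := pow_le_pow_left₀ (by linarith : (0 : ℝ) ≤ x ^ (1 / 3 : ℝ)) h1 3
  rw [cube13 (pos hx).le, mul_pow] at h3
  linarith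

theorem uq {x : ℝ} (hx : 10 ^ 20 ≤ x) : x ^ (1 / 3 : ℝ) / 4 ≤ ((⌊x ^ (1 / 3 : ℝ)⌋₊ : ℕ) : ℝ) := by
  have h0 := Nat.lt_floor_add_one (x ^ (1 / 3 : ℝ))
  have h2 := p13 hx
  linarith

theorem u1 {x : ℝ} (hx : 10 ^ 20 ≤ x) : 1 ≤ ⌊x ^ (1 / 3 : ℝ)⌋₊ := by
  have h0 := Nat.lt_floor_add_one (x ^ (1 / 3 : ℝ))
  have h2 := p13 hx
  have : (1 : ℝ) ≤ ((⌊x ^ (1 / 3 : ℝ)⌋₊ : ℕ) : ℝ) := by linarith
  exact_mod_cast this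

theorem uY {x y : ℝ} (hx : 10 ^ 20 ≤ x) (hxy : x ≤ y) :
    ⌊x ^ (1 / 3 : ℝ)⌋₊ * ⌊x ^ (1 / 3 : ℝ)⌋₊ * ⌊x ^ (1 / 3 : ℝ)⌋₊ ≤ ⌊y⌋₊ := by
  apply Nat.le_floor
  have h := u3 hx
  push_cast
  calc ((⌊x ^ (1 / 3 : ℝ)⌋₊ : ℕ) : ℝ) * (⌊x ^ (1 / 3 : ℝ)⌋₊ : ℕ) * (⌊x ^ (1 / 3 : ℝ)⌋₊ : ℕ)
      = ((⌊x ^ (1 / 3 : ℝ)⌋₊ : ℕ) : ℝ) ^ 3 := by ring
    _ ≤ y := h.trans hxy

theorem us {x : ℝ} (hx : 10 ^ 20 ≤ x) : ⌊x ^ (1 / 3 : ℝ)⌋₊ ≤ ⌊x ^ (1 / 2 : ℝ)⌋₊ :=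
  Nat.floor_le_floor (Real.rpow_le_rpow_of_exponent_le (one hx) (by norm_num))

theorem sc {x w : ℝ} (hx : 10 ^ 20 ≤ x) (hw : 0 < w) :
    ⌊x ^ (1 / 2 : ℝ)⌋₊ ≤ ⌊x ^ (1 / 2 + 3 * w)⌋₊ :=
  Nat.floor_le_floor (Real.rpow_le_rpow_of_exponent_le (one hx) (by linarith))

theorem x100 {x : ℝ} (hx : 10 ^ 20 ≤ x) : x ^ (1 / 2 : ℝ) ≤ x / 100 := by
  have h1 := sq12 (pos hx)
  have h2 := p12 hx
  nlinarith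

theorem sl (x : ℝ) (hx : 10 ^ 20 ≤ x) : ((⌊x ^ (1 / 2 : ℝ)⌋₊ : ℕ) : ℝ) ≤ x ^ (1 / 2 : ℝ) :=
  Nat.floor_le (Real.rpow_nonneg (pos hx).le _)

theorem s4 {x : ℝ} (hx : 10 ^ 20 ≤ x) : ((⌊x ^ (1 / 2 : ℝ)⌋₊ : ℕ) : ℝ) ≤ 4 * x ^ (1 / 2 : ℝ) := by
  have h1 := sl x hx
  have h2 := p12 hx
  linarith

theorem s3l (x : ℝ) (hx : 10 ^ 20 ≤ x) :
    ((⌊3 * x ^ (1 / 2 : ℝ)⌋₊ : ℕ) : ℝ) ≤ 3 * x ^ (1 / 2 : ℝ) :=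
  Nat.floor_le (mul_nonneg (by norm_num) (Real.rpow_nonneg (pos hx).le _))

theorem s34 {x : ℝ} (hx : 10 ^ 20 ≤ x) :
    ((⌊3 * x ^ (1 / 2 : ℝ)⌋₊ : ℕ) : ℝ) ≤ 4 * x ^ (1 / 2 : ℝ) := by
  have h1 := s3l x hx
  have h2 := p12 hx
  linarith

theorem sZ {x z : ℝ} (hx : 10 ^ 20 ≤ x) (hz : x ≤ z) : ⌊x ^ (1 / 2 : ℝ)⌋₊ ≤ ⌊z⌋₊ := by
  apply Nat.floor_le_floor
  have h1 := x100 hx
  have h2 := pos hx
  linarith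

theorem s3Z {x z : ℝ} (hx : 10 ^ 20 ≤ x) (hz : x ≤ z) : ⌊3 * x ^ (1 / 2 : ℝ)⌋₊ ≤ ⌊z⌋₊ := by
  apply Nat.floor_le_floor
  have h1 := x100 hx
  have h2 := pos hx
  linarith

theorem ss3 {x : ℝ} (hx : 10 ^ 20 ≤ x) : ⌊x ^ (1 / 2 : ℝ)⌋₊ ≤ ⌊3 * x ^ (1 / 2 : ℝ)⌋₊ := by
  apply Nat.floor_le_floor
  have h2 := p12 hx
  linarith

theorem sx {x : ℝ} (hx : 10 ^ 20 ≤ x) : ((⌊x ^ (1 / 2 : ℝ)⌋₊ : ℕ) : ℝ) ≤ x := by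
  have h0 := sl x hx
  have h1 := x100 hx
  have h2 := pos hx
  linarith

theorem s3x {x : ℝ} (hx : 10 ^ 20 ≤ x) : ((⌊3 * x ^ (1 / 2 : ℝ)⌋₊ : ℕ) : ℝ) ≤ x := by
  have h0 := s3l x hx
  have h1 := x100 hx
  have h2 := pos hx
  linarith

theorem s3p {x z : ℝ} (hx : 10 ^ 20 ≤ x) (hz0 : 0 ≤ z) (hz : z ≤ 3 * x) :
    ⌊z⌋₊ < (⌊x ^ (1 / 2 : ℝ)⌋₊ + 1) * (⌊3 * x ^ (1 / 2 : ℝ)⌋₊ + 1) := by
  have hZl : ((⌊z⌋₊ : ℕ) : ℝ) ≤ z := Nat.floor_le hz0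
  have hsu := Nat.lt_floor_add_one (x ^ (1 / 2 : ℝ))
  have hs3u := Nat.lt_floor_add_one (3 * x ^ (1 / 2 : ℝ))
  have hp := p12 hx
  have hp12 : 0 < x ^ (1 / 2 : ℝ) := by linarith
  have hsq := sq12 (pos hx)
  have : ((⌊z⌋₊ : ℕ) : ℝ) <
      (((⌊x ^ (1 / 2 : ℝ)⌋₊ + 1) * (⌊3 * x ^ (1 / 2 : ℝ)⌋₊ + 1) : ℕ) : ℝ) := by
    push_cast
    calc ((⌊z⌋₊ : ℕ) : ℝ) ≤ 3 * x := by linarith
      _ = x ^ (1 / 2 : ℝ) * (3 * x ^ (1 / 2 : ℝ)) := by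
          have e : x ^ (1 / 2 : ℝ) * (3 * x ^ (1 / 2 : ℝ)) =
            3 * (x ^ (1 / 2 : ℝ) * x ^ (1 / 2 : ℝ)) := by ring
          rw [e, hsq]
      _ < _ := mul_lt_mul'' hsu hs3u hp12.le (by positivity)
  exact_mod_cast this

theorem c0pos {x w : ℝ} (hx : 10 ^ 20 ≤ x) (hw : 0 < w) : 1 ≤ ⌊x ^ (1 / 2 + 3 * w)⌋₊ :=
  (u1 hx).trans ((us hx).trans (sc hx hw))

/-- the lower end of the al2 range -/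
theorem r920 {x y w : ℝ} (hx : 10 ^ 20 ≤ x) (hw0 : 0 < w) (hw : w ≤ 1 / 100) (hxy : x ≤ y) :
    x ^ (9 / 20 : ℝ) ≤
      ((min (⌊y⌋₊ / ⌊x ^ (1 / 2 + 3 * w)⌋₊) ⌊3 * x ^ (1 / 2 : ℝ)⌋₊ : ℕ) : ℝ) := by
  have hxpos := pos hx
  have hx1' := one hx
  have hq1 : x ^ (9 / 20 : ℝ) + 3 ≤ x ^ (47 / 100 : ℝ) := by
    have e1 : x ^ (47 / 100 : ℝ) = x ^ (9 / 20 : ℝ) * x ^ (1 / 50 : ℝ) := by
      rw [← Real.rpow_add hxpos]; norm_num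
    have e2 : (2 : ℝ) ≤ x ^ (1 / 50 : ℝ) := by
      have : (2 : ℝ) = ((2 : ℝ) ^ 50) ^ (1 / 50 : ℝ) := by
        rw [← Real.rpow_natCast, ← Real.rpow_mul (by norm_num)]; norm_num
      rw [this]
      exact Real.rpow_le_rpow (by positivity)
        (by linarith [show (2 : ℝ) ^ 50 ≤ 10 ^ 20 by norm_num]) (by norm_num)
    have e3 : x ^ (1 / 3 : ℝ) ≤ x ^ (9 / 20 : ℝ) :=
      Real.rpow_le_rpow_of_exponent_le hx1' (by norm_num)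
    have e4 := p13 hx
    rw [e1]; nlinarith
  have hq2 : x ^ (47 / 100 : ℝ) ≤ x ^ (1 / 2 : ℝ) :=
    Real.rpow_le_rpow_of_exponent_le hx1' (by norm_num)
  have hc0 := c0pos hx hw0
  have hc0l : ((⌊x ^ (1 / 2 + 3 * w)⌋₊ : ℕ) : ℝ) ≤ x ^ (1 / 2 + 3 * w) :=
    Nat.floor_le (Real.rpow_nonneg hxpos.le _)
  have hs3u := Nat.lt_floor_add_one (3 * x ^ (1 / 2 : ℝ))
  have hYu := Nat.lt_floor_add_one y
  have hp := p12 hx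
  generalize ⌊x ^ (1 / 2 + 3 * w)⌋₊ = c0 at hc0 hc0l ⊢
  push_cast
  apply le_min
  · have hc0pos : (0 : ℝ) < c0 := by exact_mod_cast hc0
    have e1 : ((⌊y⌋₊ : ℕ) : ℝ) / c0 < ((⌊y⌋₊ / c0 : ℕ) : ℝ) + 1 := by
      rw [div_lt_iff₀ hc0pos]
      have h2 : ⌊y⌋₊ < (⌊y⌋₊ / c0 + 1) * c0 := by
        rw [← Nat.div_lt_iff_lt_mul (by exact_mod_cast hc0pos)]
        exact Nat.lt_succ_self _
      exact_mod_cast h2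
    have e2 : x ^ (47 / 100 : ℝ) - 1 ≤ ((⌊y⌋₊ : ℕ) : ℝ) / c0 := by
      rw [le_div_iff₀ hc0pos]
      have e3 : (c0 : ℝ) ≤ x ^ (53 / 100 : ℝ) :=
        hc0l.trans (Real.rpow_le_rpow_of_exponent_le hx1' (by linarith))
      have e4 : x ^ (47 / 100 : ℝ) * x ^ (53 / 100 : ℝ) = x := by
        rw [← Real.rpow_add hxpos]; norm_num
      have e6 : (1 : ℝ) ≤ c0 := by exact_mod_cast hc0
      have e7 := mul_le_mul_of_nonneg_left e3 (Real.rpow_nonneg hxpos.le (47 / 100 : ℝ))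
      rw [e4] at e7
      have e8 : (x ^ (47 / 100 : ℝ) - 1) * c0 = x ^ (47 / 100 : ℝ) * c0 - c0 := by ring
      rw [e8]
      linarith
    linarith
  · linarith

theorem r13 {x y w : ℝ} (hx : 10 ^ 20 ≤ x) (hw0 : 0 < w) (hw : w ≤ 1 / 100) (hxy : x ≤ y) :
    x ^ (1 / 3 : ℝ) / 4 ≤
      ((min (⌊y⌋₊ / ⌊x ^ (1 / 2 + 3 * w)⌋₊) ⌊3 * x ^ (1 / 2 : ℝ)⌋₊ : ℕ) : ℝ) := by
  have h := r920 hx hw0 hw hxy
  have e3 : x ^ (1 / 3 : ℝ) ≤ x ^ (9 / 20 : ℝ) :=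
    Real.rpow_le_rpow_of_exponent_le (one hx) (by norm_num)
  have e4 := p13 hx
  linarith

theorem logZ {x z : ℝ} (hx : 10 ^ 20 ≤ x) (hxz : x ≤ z) (hz : z ≤ 3 * x)
    (hL : 2 ≤ Real.log x) : Real.log ((⌊z⌋₊ : ℕ) : ℝ) ≤ 2 * Real.log x := by
  have hxpos := pos hx
  have hx1 := one hx
  have hZl : ((⌊z⌋₊ : ℕ) : ℝ) ≤ z := Nat.floor_le (hxpos.le.trans hxz)
  have hZpos : (0 : ℝ) < ((⌊z⌋₊ : ℕ) : ℝ) := by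
    have : 1 ≤ ⌊z⌋₊ := Nat.le_floor (by push_cast; linarith)
    exact_mod_cast this
  have h1 : Real.log ((⌊z⌋₊ : ℕ) : ℝ) ≤ Real.log (3 * x) := Real.log_le_log hZpos (by linarith)
  rw [Real.log_mul (by norm_num) hxpos.ne'] at h1
  have h3 := log3
  linarith

theorem nlogZ {x z : ℝ} (hx : 10 ^ 20 ≤ x) (hxz : x ≤ z) (hz : z ≤ 3 * x)
    (hL : 2 ≤ Real.log x) : (Nat.log 2 ⌊z⌋₊ : ℝ) ≤ 4 * Real.log x := by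
  have hlogZ := logZ hx hxz hz hL
  have hx1 := one hx
  have hZ1 : 1 ≤ ⌊z⌋₊ := Nat.le_floor (by push_cast; linarith)
  have h1 : (2 : ℝ) ^ Nat.log 2 ⌊z⌋₊ ≤ ((⌊z⌋₊ : ℕ) : ℝ) := by
    have := Nat.pow_log_le_self 2 (show ⌊z⌋₊ ≠ 0 by omega)
    exact_mod_cast this
  have h2 := Real.log_le_log (by positivity) h1
  rw [Real.log_pow] at h2
  have h3 := Real.log_two_gt_d9
  have h4 : (0 : ℝ) ≤ Nat.log 2 ⌊z⌋₊ := Nat.cast_nonneg _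
  nlinarith

/-- the first error term for one modulus -/
theorem E1a {x w z L : ℝ} (hx : 10 ^ 20 ≤ x) (hz0 : 0 ≤ z) (hz : z ≤ 3 * x)
    (hlZ : Real.log ((⌊z⌋₊ : ℕ) : ℝ) ≤ 2 * L) :
    ((⌊x ^ (1 / 3 : ℝ)⌋₊ : ℕ) : ℝ) * Real.log ((⌊z⌋₊ : ℕ) : ℝ) +
      ((⌊z⌋₊ / (⌊x ^ (1 / 2 + 3 * w)⌋₊ + 1) : ℕ) : ℝ) * Real.log ((⌊z⌋₊ : ℕ) : ℝ) ≤
      x ^ (1 / 3 : ℝ) * (2 * L) + 3 * x ^ (1 / 2 - 3 * w) * (2 * L) := by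
  have hxpos := pos hx
  have hl0 : 0 ≤ Real.log ((⌊z⌋₊ : ℕ) : ℝ) := Real.log_natCast_nonneg _
  have hZl : ((⌊z⌋₊ : ℕ) : ℝ) ≤ z := Nat.floor_le hz0
  have hc0u := Nat.lt_floor_add_one (x ^ (1 / 2 + 3 * w))
  apply add_le_add
  · exact mul_le_mul (ul x hx) hlZ hl0 (Real.rpow_nonneg hxpos.le _)
  · apply mul_le_mul _ hlZ hl0 (by positivity)
    generalize ⌊x ^ (1 / 2 + 3 * w)⌋₊ = c0 at hc0u ⊢
    have e1 : ((⌊z⌋₊ / (c0 + 1) : ℕ) : ℝ) ≤ ((⌊z⌋₊ : ℕ) : ℝ) / ((c0 + 1 : ℕ) : ℝ) :=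
      Nat.cast_div_le
    refine e1.trans ?_
    push_cast
    rw [div_le_iff₀ (by positivity)]
    have e2 : x ^ (1 / 2 - 3 * w) * x ^ (1 / 2 + 3 * w) = x := by
      rw [← Real.rpow_add hxpos]
      have : (1 / 2 - 3 * w + (1 / 2 + 3 * w) : ℝ) = 1 := by ring
      rw [this, Real.rpow_one]
    have e3 : 3 * x ^ (1 / 2 - 3 * w) * x ^ (1 / 2 + 3 * w) ≤
        3 * x ^ (1 / 2 - 3 * w) * ((c0 : ℝ) + 1) :=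
      mul_le_mul_of_nonneg_left hc0u.le (by positivity)
    have e4 : 3 * x ^ (1 / 2 - 3 * w) * x ^ (1 / 2 + 3 * w) = 3 * x := by
      rw [mul_assoc, e2]
    linarith

theorem lq {x w : ℝ} (hx : 10 ^ 20 ≤ x) (hw : w ≤ 1 / 100) {q : ℕ} (hq : 1 ≤ q)
    (hq2 : (q : ℝ) ≤ x ^ (1 / 2 + 2 * w)) : Real.log q ≤ Real.log x := by
  have hqpos : (0 : ℝ) < q := by exact_mod_cast hq
  apply Real.log_le_log hqpos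
  refine hq2.trans ?_
  calc x ^ (1 / 2 + 2 * w) ≤ x ^ (1 : ℝ) :=
        Real.rpow_le_rpow_of_exponent_le (one hx) (by linarith)
    _ = x := Real.rpow_one x

/-- first part of the total error -/
theorem p1 {x w L C3 N : ℝ} (A : ℕ) (hx : 10 ^ 20 ≤ x) (hw : w ≤ 1 / 100) (hL : 0 < L)
    (hN : N ≤ x ^ (1 / 2 + 2 * w)) (e4 : L ^ (A + 1) ≤ C3 * x ^ w) :
    N * (x ^ (1 / 3 : ℝ) * (2 * L) + 3 * x ^ (1 / 2 - 3 * w) * (2 * L)) ≤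
      8 * C3 * x / L ^ A := by
  have hxpos := pos hx
  have e1 : x ^ (1 / 3 : ℝ) ≤ x ^ (1 / 2 - 3 * w) :=
    Real.rpow_le_rpow_of_exponent_le (one hx) (by linarith)
  have e1' := mul_le_mul_of_nonneg_right e1 hL.le
  have e2 : x ^ (1 / 3 : ℝ) * (2 * L) + 3 * x ^ (1 / 2 - 3 * w) * (2 * L) ≤
      8 * L * x ^ (1 / 2 - 3 * w) := by
    linarith
  have e3 : 0 ≤ x ^ (1 / 3 : ℝ) * (2 * L) + 3 * x ^ (1 / 2 - 3 * w) * (2 * L) := by positivity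
  calc N * _ ≤ x ^ (1 / 2 + 2 * w) * (8 * L * x ^ (1 / 2 - 3 * w)) :=
        mul_le_mul hN e2 e3 (by positivity)
    _ = 8 * L * (x ^ (1 / 2 + 2 * w) * x ^ (1 / 2 - 3 * w)) := by ring
    _ = 8 * L * x ^ (1 - w) := by
        rw [← Real.rpow_add hxpos]; congr 2; ring
    _ ≤ 8 * C3 * x / L ^ A := by
        rw [le_div_iff₀ (by positivity)]
        have e5 : x ^ w * x ^ (1 - w) = x := by
          rw [← Real.rpow_add hxpos]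
          have : (w + (1 - w) : ℝ) = 1 := by ring
          rw [this, Real.rpow_one]
        calc 8 * L * x ^ (1 - w) * L ^ A = 8 * L ^ (A + 1) * x ^ (1 - w) := by ring
          _ ≤ 8 * (C3 * x ^ w) * x ^ (1 - w) := by gcongr
          _ = 8 * C3 * (x ^ w * x ^ (1 - w)) := by ring
          _ = 8 * C3 * x := by rw [e5]

/-- second part of the total error -/
theorem p2 {x L C2 C4 S T : ℝ} (A : ℕ) (hx0 : 0 < x) (hL : 0 < L) (hC2 : 0 ≤ C2)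
    (hS : S ≤ T ^ 2) (hT0 : 0 ≤ T) (hT : T ≤ 2 * L) (e4 : L ^ (A + 4) ≤ C4 * x) :
    (C2 * x / L ^ (A + 2) + 4 * L * L) * S ≤ (4 * C2 + 16 * C4) * x / L ^ A := by
  have e2 : T ^ 2 ≤ 4 * L ^ 2 := by
    calc T ^ 2 ≤ (2 * L) ^ 2 := pow_le_pow_left₀ hT0 hT 2
      _ = 4 * L ^ 2 := by ring
  have e3 : 0 ≤ C2 * x / L ^ (A + 2) + 4 * L * L := by positivity
  calc (C2 * x / L ^ (A + 2) + 4 * L * L) * S ≤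
        (C2 * x / L ^ (A + 2) + 4 * L * L) * (4 * L ^ 2) :=
        mul_le_mul_of_nonneg_left (hS.trans e2) e3
    _ = 4 * C2 * x / L ^ A + 16 * L ^ 4 := by
        have : L ^ (A + 2) = L ^ A * L ^ 2 := by ring
        rw [this]; field_simp; ring
    _ ≤ 4 * C2 * x / L ^ A + 16 * (C4 * x / L ^ A) := by
        have : L ^ 4 ≤ C4 * x / L ^ A := by
          rw [le_div_iff₀ (by positivity)]
          calc L ^ 4 * L ^ A = L ^ (A + 4) := by ring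
            _ ≤ C4 * x := e4
        linarith
    _ = (4 * C2 + 16 * C4) * x / L ^ A := by ring

end MainA

end Pool.Agent.BGV
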