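import Pool.Agent.BGV.Vaughan
import Pool.Agent.BGV.Conv
import Pool.Agent.SWz.ProgA

/-! Siegel-Walfisz for the pieces of Vaughan's identity: basic lemmas (helper45). -/

set_option autoImplicit false

namespace Pool.Agent.BGV

open Finset Pool.Agent.BGG

/-- Prime powers of the primes dividing `s`. -/
theorem SWpA_nc (s : ℕ) (hs : 1 ≤ s) (N : ℕ) (hN : 1 ≤ N) :
    ∑ n ∈ (Icc 1 N).filter (fun n => ¬ Nat.Coprime n s), vM n ≤
      (s.divisors.card : ℝ) * Real.log N := by
  set T := s.primeFactors.biUnion fun p => (Icc 1 (Nat.log p N)).image fun k => p ^ k with hT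
  have h2 : ∑ n ∈ (Icc 1 N).filter (fun n => ¬ Nat.Coprime n s), vM n ≤
      ∑ n ∈ T, vM n := by
    rw [← Finset.sum_filter_ne_zero]
    refine Finset.sum_le_sum_of_subset_of_nonneg ?_ fun _ _ _ => vM_nonneg _
    intro n hn
    simp only [mem_filter, mem_Icc] at hn
    obtain ⟨⟨⟨hn1, hn2⟩, hn3⟩, hn4⟩ := hn
    have hpp : IsPrimePow n := by
      by_contra hcon
      exact hn4 (ArithmeticFunction.vonMangoldt_eq_zero_iff.mpr hcon)
    obtain ⟨p, k, hp, hk, rfl⟩ := (isPrimePow_nat_iff n).mp hpp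
    have hpr : p ∣ s := by
      by_contra hcon
      exact hn3 (Nat.Coprime.pow_left k ((Nat.Prime.coprime_iff_not_dvd hp).mpr hcon))
    rw [hT, mem_biUnion]
    refine ⟨p, Nat.mem_primeFactors.mpr ⟨hp, hpr, by omega⟩, ?_⟩
    rw [mem_image]
    exact ⟨k, mem_Icc.mpr ⟨hk, Nat.le_log_of_pow_le hp.one_lt hn2⟩, rfl⟩
  have h3 : ∑ n ∈ T, vM n ≤ ∑ p ∈ s.primeFactors, Real.log N := by
    rw [hT, Finset.sum_biUnion]
    swap
    · intro p hp q hq hne
      simp only [Function.onFun]
      rw [Finset.disjoint_left]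
      intro n h1 h2
      rw [mem_image] at h1 h2
      obtain ⟨a, ha, rfl⟩ := h1
      obtain ⟨c, hc, hcc⟩ := h2
      rw [mem_Icc] at ha
      have hpp := Nat.prime_of_mem_primeFactors hp
      have hqq := Nat.prime_of_mem_primeFactors hq
      have : p ∣ q ^ c := by
        rw [hcc]; exact dvd_pow_self p (by omega)
      exact hne ((Nat.prime_dvd_prime_iff_eq hpp hqq).mp (hpp.dvd_of_dvd_pow this))
    refine Finset.sum_le_sum fun p hp => ?_
    have hpp := Nat.prime_of_mem_primeFactors hp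
    rw [Finset.sum_image (fun a _ b _ h => Nat.pow_right_injective hpp.two_le h)]
    have e1 : ∑ k ∈ Icc 1 (Nat.log p N), vM (p ^ k) =
        ∑ k ∈ Icc 1 (Nat.log p N), Real.log p := by
      refine Finset.sum_congr rfl fun k hk => ?_
      rw [mem_Icc] at hk
      unfold vM
      rw [ArithmeticFunction.vonMangoldt_apply_pow (by omega),
        ArithmeticFunction.vonMangoldt_apply_prime hpp]
    rw [e1, Finset.sum_const, Nat.card_Icc, nsmul_eq_mul, Nat.add_sub_cancel]
    have e2 : ((p ^ Nat.log p N : ℕ) : ℝ) ≤ N := by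
      exact_mod_cast Nat.pow_log_le_self p (by omega)
    have hp0 : (0 : ℝ) < p := by exact_mod_cast hpp.pos
    calc (Nat.log p N : ℝ) * Real.log p = Real.log ((p ^ Nat.log p N : ℕ) : ℝ) := by
          push_cast
          rw [Real.log_pow]
      _ ≤ Real.log N := by
          apply Real.log_le_log
          · push_cast; positivity
          · exact e2
  have hlog : 0 ≤ Real.log N := Real.log_natCast_nonneg N
  have h4 : (s.primeFactors.card : ℝ) ≤ (s.divisors.card : ℝ) := by
    have : s.primeFactors.card ≤ s.divisors.card :=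
      Finset.card_le_card fun p hp =>
        Nat.mem_divisors.mpr ⟨Nat.dvd_of_mem_primeFactors hp, by omega⟩
    exact_mod_cast this
  rw [Finset.sum_const, nsmul_eq_mul] at h3
  calc _ ≤ (s.primeFactors.card : ℝ) * Real.log N := h2.trans h3
    _ ≤ (s.divisors.card : ℝ) * Real.log N := by gcongr

/-- If all reduced classes have nearly the same sum, each is near the average. -/
theorem SWpA_avg (X r : ℕ) (hr : 1 ≤ r) (f : ℕ → ℝ) (M0 E : ℝ)
    (h : ∀ c : ℤ, IsCoprime c (r : ℤ) →
      |(∑ n ∈ Icc 1 X, if (r : ℤ) ∣ (n : ℤ) - c then f n else 0) - M0| ≤ E) (b : ℤ)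
    (hb : IsCoprime b (r : ℤ)) :
    |(∑ n ∈ Icc 1 X, if (r : ℤ) ∣ (n : ℤ) - b then f n else 0) -
      (∑ n ∈ Icc 1 X, if Nat.Coprime n r then f n else 0) / (r.totient : ℝ)| ≤ 2 * E := by
  have hφ : (0 : ℝ) < r.totient := by exact_mod_cast Nat.totient_pos.mpr hr
  have h1 : (∑ n ∈ Icc 1 X, if Nat.Coprime n r then f n else 0) =
      ∑ c ∈ (Finset.range r).filter (fun c => r.Coprime c),
        ∑ n ∈ Icc 1 X, if (r : ℤ) ∣ (n : ℤ) - (c : ℤ) then f n else 0 := by
    rw [Finset.sum_comm]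
    apply Finset.sum_congr rfl
    intro n _
    by_cases hn : Nat.Coprime n r
    · rw [if_pos hn, Finset.sum_eq_single (n % r)]
      · rw [if_pos]
        rw [← Nat.modEq_iff_dvd]
        exact Nat.mod_modEq n r
      · intro c hc hne
        rw [if_neg]
        intro h2
        apply hne
        rw [← Nat.modEq_iff_dvd] at h2
        rw [mem_filter, mem_range] at hc
        have : c % r = n % r := h2
        rw [Nat.mod_eq_of_lt hc.1] at this
        exact this
      · intro h2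
        exfalso
        apply h2
        rw [mem_filter, mem_range]
        refine ⟨Nat.mod_lt _ hr, ?_⟩
        rw [Nat.coprime_comm]
        have : Nat.gcd (n % r) r = Nat.gcd n r := by
          rw [← Nat.gcd_rec, Nat.gcd_comm]
        unfold Nat.Coprime at hn ⊢
        rw [this, hn]
    · rw [if_neg hn]
      symm
      apply Finset.sum_eq_zero
      intro c hc
      rw [if_neg]
      intro h2
      apply hn
      rw [← Nat.modEq_iff_dvd] at h2
      rw [mem_filter, mem_range] at hc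
      have : Nat.gcd n r = Nat.gcd c r := (h2.gcd_eq).symm
      unfold Nat.Coprime
      rw [this, Nat.gcd_comm]
      exact hc.2
  have h2 : |(∑ n ∈ Icc 1 X, if Nat.Coprime n r then f n else 0) - r.totient * M0| ≤
      r.totient * E := by
    rw [h1, Nat.totient_eq_card_coprime]
    rw [← nsmul_eq_mul, ← nsmul_eq_mul, ← Finset.sum_const, ← Finset.sum_const,
      ← Finset.sum_sub_distrib]
    refine (Finset.abs_sum_le_sum_abs _ _).trans (Finset.sum_le_sum ?_)
    intro c hc
    apply h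
    rw [mem_filter] at hc
    exact Nat.isCoprime_iff_coprime.mpr hc.2.symm
  have h3 := h b hb
  have h4 : |(∑ n ∈ Icc 1 X, if Nat.Coprime n r then f n else 0) / (r.totient : ℝ) - M0| ≤ E := by
    have : (∑ n ∈ Icc 1 X, if Nat.Coprime n r then f n else 0) / (r.totient : ℝ) - M0 =
        ((∑ n ∈ Icc 1 X, if Nat.Coprime n r then f n else 0) - r.totient * M0) /
          (r.totient : ℝ) := by
      field_simp
    rw [this, abs_div, abs_of_pos hφ, div_le_iff₀ hφ, mul_comm E]
    exact h2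
  rw [abs_le] at h3 h4 ⊢
  constructor <;> linarith [h3.1, h3.2, h4.1, h4.2]

/-- Number of elements of a class in an interval. -/
theorem SWpA_card (m : ℕ) (hm : 1 ≤ m) (v : ℤ) (G G' : ℕ) (hG : G ≤ G') :
    |(((Ioc G G').filter (fun n : ℕ => (m : ℤ) ∣ (n : ℤ) - v)).card : ℝ) -
      ((G' : ℝ) - G) / m| ≤ 1 := by
  have hm0 : (0 : ℝ) < m := by exact_mod_cast hm
  have hm1 : (0 : ℤ) < m := by exact_mod_cast hm
  obtain ⟨w, hw⟩ : ∃ w : ℕ, (m : ℤ) ∣ (w : ℤ) - v := by
    refine ⟨(v % m).toNat, ?_⟩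
    rw [Int.toNat_of_nonneg (Int.emod_nonneg _ hm1.ne')]
    have := Int.emod_add_mul_ediv v m
    exact ⟨-(v / m), by linarith⟩
  have h1 : (Ioc G G').filter (fun n : ℕ => (m : ℤ) ∣ (n : ℤ) - v) =
      (Ioc G G').filter (fun n : ℕ => n ≡ w [MOD m]) := by
    apply Finset.filter_congr
    intro n _
    constructor
    · intro h
      apply Nat.ModEq.symm
      rw [Nat.modEq_iff_dvd]
      have : ((n : ℤ) - w) = ((n : ℤ) - v) - ((w : ℤ) - v) := by ring
      rw [this]
      exact dvd_sub h hw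
    · intro h
      have h2 := (Nat.modEq_iff_dvd.mp h.symm)
      have : ((n : ℤ) - v) = ((n : ℤ) - w) + ((w : ℤ) - v) := by ring
      rw [this]
      exact dvd_add h2 hw
  rw [h1]
  have h2 := Nat.Ioc_filter_modEq_card G G' (show 0 < m from hm) w
  have hle : ⌊((G : ℚ) - w) / (m : ℚ)⌋ ≤ ⌊((G' : ℚ) - w) / (m : ℚ)⌋ := by
    apply Int.floor_le_floor
    have : (G : ℚ) ≤ G' := by exact_mod_cast hG
    have hm2 : (0 : ℚ) < m := by exact_mod_cast hm
    gcongr
  rw [max_eq_left (by linarith)] at h2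
  have h3 : ((((Ioc G G').filter (fun n : ℕ => n ≡ w [MOD m])).card : ℤ) : ℚ) =
      ((⌊((G' : ℚ) - w) / (m : ℚ)⌋ - ⌊((G : ℚ) - w) / (m : ℚ)⌋ : ℤ) : ℚ) := by
    rw [h2]
  have a1 := Int.floor_le (((G' : ℚ) - w) / (m : ℚ))
  have a2 := Int.lt_floor_add_one (((G' : ℚ) - w) / (m : ℚ))
  have a3 := Int.floor_le (((G : ℚ) - w) / (m : ℚ))
  have a4 := Int.lt_floor_add_one (((G : ℚ) - w) / (m : ℚ))
  have a5 : ((G' : ℚ) - w) / (m : ℚ) - ((G : ℚ) - w) / (m : ℚ) = ((G' : ℚ) - G) / m := by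
    rw [← sub_div]; congr 1; ring
  push_cast at h3
  have h4 : |((((Ioc G G').filter (fun n : ℕ => n ≡ w [MOD m])).card : ℚ)) -
      ((G' : ℚ) - G) / m| ≤ 1 := by
    rw [h3, abs_le]
    constructor <;> linarith
  have h5 : ((|((((Ioc G G').filter (fun n : ℕ => n ≡ w [MOD m])).card : ℚ)) -
      ((G' : ℚ) - G) / m| : ℚ) : ℝ) ≤ ((1 : ℚ) : ℝ) := by exact_mod_cast h4
  push_cast at h5
  exact h5

end Pool.Agent.BGV
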