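import Pool.Agent.BGV.SWpA

/-! Siegel-Walfisz for the pieces of Vaughan's identity: the constant sequence, and sums of the
von Mangoldt function over a progression with a coprimality condition (helper45). -/

set_option autoImplicit false

namespace Pool.Agent.BGV

open Finset Pool.Agent.BGG

theorem SWpB_moeb (n s : ℕ) (hs : s ≠ 0) :
    (if Nat.Coprime n s then (1 : ℝ) else 0) = ∑ d ∈ s.divisors, if d ∣ n then mu d else 0 := by
  have h1 : ∑ d ∈ (Nat.gcd n s).divisors, (ArithmeticFunction.moebius d : ℤ) =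
      if Nat.gcd n s = 1 then 1 else 0 := by
    have := congrArg (fun f : ArithmeticFunction ℤ => f (Nat.gcd n s))
      ArithmeticFunction.moebius_mul_coe_zeta
    simp only [ArithmeticFunction.coe_mul_zeta_apply, ArithmeticFunction.one_apply] at this
    exact this
  have h2 : (Nat.gcd n s).divisors = s.divisors.filter (fun d => d ∣ n) := by
    ext d
    simp only [Nat.mem_divisors, mem_filter]
    constructor
    · rintro ⟨h, _⟩
      exact ⟨⟨h.trans (Nat.gcd_dvd_right n s), hs⟩, h.trans (Nat.gcd_dvd_left n s)⟩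
    · rintro ⟨⟨h, _⟩, h'⟩
      exact ⟨Nat.dvd_gcd h' h, Nat.gcd_ne_zero_right hs⟩
  rw [h2, Finset.sum_filter] at h1
  have h3 : ((∑ d ∈ s.divisors, if d ∣ n then (ArithmeticFunction.moebius d : ℤ) else 0 : ℤ) : ℝ) =
      ((if Nat.gcd n s = 1 then 1 else 0 : ℤ) : ℝ) := by rw [h1]
  push_cast at h3
  unfold mu Nat.Coprime
  rw [h3]

theorem SWpB_one (r s : ℕ) (hr : 1 ≤ r) (hs : 1 ≤ s) (G G' : ℕ) (hG : G ≤ G') (c : ℤ)
    (hc : IsCoprime c (r : ℤ)) :
    |(∑ n ∈ Ioc G G', if (r : ℤ) ∣ (n : ℤ) - c ∧ Nat.Coprime n s then (1 : ℝ) else 0) -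
      ∑ d ∈ s.divisors, (if Nat.Coprime d r then mu d * (((G' : ℝ) - G) / ((d * r : ℕ) : ℝ)) else 0)|
      ≤ s.divisors.card := by
  have hs0 : s ≠ 0 := by omega
  have h1 : (∑ n ∈ Ioc G G', if (r : ℤ) ∣ (n : ℤ) - c ∧ Nat.Coprime n s then (1 : ℝ) else 0) =
      ∑ d ∈ s.divisors, mu d *
        (((Ioc G G').filter (fun n : ℕ => (r : ℤ) ∣ (n : ℤ) - c ∧ d ∣ n)).card : ℝ) := by
    have : ∀ n ∈ Ioc G G', (if (r : ℤ) ∣ (n : ℤ) - c ∧ Nat.Coprime n s then (1 : ℝ) else 0) =
        ∑ d ∈ s.divisors, mu d * (if (r : ℤ) ∣ (n : ℤ) - c ∧ d ∣ n then 1 else 0) := by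
      intro n _
      have h := SWpB_moeb n s hs0
      by_cases h2 : (r : ℤ) ∣ (n : ℤ) - c
      · simp only [h2, true_and]
        rw [h]
        apply Finset.sum_congr rfl
        intro d _
        split_ifs <;> simp
      · simp [h2]
    rw [Finset.sum_congr rfl this, Finset.sum_comm]
    apply Finset.sum_congr rfl
    intro d _
    rw [← Finset.mul_sum, Finset.card_filter]
    push_cast
    rfl
  rw [h1, ← Finset.sum_sub_distrib, Finset.card_eq_sum_ones, Nat.cast_sum]
  refine (Finset.abs_sum_le_sum_abs _ _).trans (Finset.sum_le_sum ?_)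
  intro d hd
  rw [Nat.mem_divisors] at hd
  have hd0 : 1 ≤ d := Nat.pos_of_dvd_of_pos hd.1 hs
  by_cases hdr : Nat.Coprime d r
  · rw [if_pos hdr, ← mul_sub, abs_mul]
    obtain ⟨v, hv⟩ : ∃ v : ℤ, ∀ n : ℕ, ((r : ℤ) ∣ (n : ℤ) - c ∧ d ∣ n) ↔
        ((d * r : ℕ) : ℤ) ∣ (n : ℤ) - v := by
      have hco : IsCoprime (d : ℤ) (r : ℤ) := Nat.isCoprime_iff_coprime.mpr hdr
      obtain ⟨a, a', haa⟩ := hco
      refine ⟨c * (a * d), fun n => ?_⟩
      have hr1 : (r : ℤ) ∣ (n : ℤ) - c ↔ (r : ℤ) ∣ (n : ℤ) - c * (a * d) := by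
        have e : (n : ℤ) - c * (a * d) = ((n : ℤ) - c) + r * (c * a') := by
          have : a * d = 1 - a' * r := by linarith
          rw [this]; ring
        rw [e]
        constructor
        · intro h; exact dvd_add h (dvd_mul_right _ _)
        · intro h
          have := dvd_sub h (dvd_mul_right (r : ℤ) (c * a'))
          simpa using this
      have hd1 : d ∣ n ↔ (d : ℤ) ∣ (n : ℤ) - c * (a * d) := by
        rw [← Int.natCast_dvd_natCast]
        have e : (n : ℤ) - c * (a * d) = (n : ℤ) + d * (-(c * a)) := by ring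
        rw [e]
        constructor
        · intro h; exact dvd_add h (dvd_mul_right _ _)
        · intro h
          have := dvd_sub h (dvd_mul_right (d : ℤ) (-(c * a)))
          simpa using this
      rw [hr1, hd1]
      push_cast
      constructor
      · rintro ⟨h3, h4⟩
        exact (Nat.isCoprime_iff_coprime.mpr hdr).mul_dvd h4 h3
      · intro h3
        exact ⟨(dvd_mul_left _ _).trans h3, (dvd_mul_right _ _).trans h3⟩
    have h5 : (Ioc G G').filter (fun n : ℕ => (r : ℤ) ∣ (n : ℤ) - c ∧ d ∣ n) =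
        (Ioc G G').filter (fun n : ℕ => ((d * r : ℕ) : ℤ) ∣ (n : ℤ) - v) :=
      Finset.filter_congr fun n _ => hv n
    rw [h5]
    have h6 := SWpA_card (d * r) (Nat.mul_pos hd0 hr) v G G' hG
    calc _ ≤ 1 * 1 := mul_le_mul (abs_mu_le d) h6 (abs_nonneg _) (by norm_num)
      _ = _ := by norm_num
  · rw [if_neg hdr]
    have : (Ioc G G').filter (fun n : ℕ => (r : ℤ) ∣ (n : ℤ) - c ∧ d ∣ n) = ∅ := by
      rw [Finset.filter_eq_empty_iff]
      rintro n _ ⟨h3, h4⟩
      apply hdr
      rw [← Nat.isCoprime_iff_coprime]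
      -- gcd (d, r) divides n and n - c, so c
      have h5 : IsCoprime (n : ℤ) (r : ℤ) := by
        obtain ⟨e, he⟩ := h3
        obtain ⟨a, a', haa⟩ := hc
        refine ⟨a, a' - a * e, ?_⟩
        have : (n : ℤ) = c + r * e := by linarith
        rw [this]
        linear_combination haa
      exact h5.of_isCoprime_of_dvd_left (Int.natCast_dvd_natCast.mpr h4)
    rw [this]
    simp

end Pool.Agent.BGV
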