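import Pool.Agent.BGV.Defs

/-! Vaughan's identity. -/

set_option autoImplicit false

namespace Pool.Agent.BGV

open Finset

/-- `μ_{≤ u} * Λ_{≤ u}` -/
noncomputable def al2 (u m : ℕ) : ℝ :=
  ∑ p ∈ m.divisorsAntidiagonal, (if p.1 ≤ u ∧ p.2 ≤ u then mu p.1 * vM p.2 else 0)

/-- `μ_{> u} * 1` -/
noncomputable def al3 (u m : ℕ) : ℝ :=
  ∑ b ∈ m.divisors, (if u < b then mu b else 0)

/-- `Λ_{> s} * 1` -/
noncomputable def al4 (s m : ℕ) : ℝ :=
  ∑ c ∈ m.divisors, (if s < c then vM c else 0)

namespace VaughanAux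

open ArithmeticFunction

noncomputable def muL (u : ℕ) : ArithmeticFunction ℝ := ⟨fun n => if n ≤ u then mu n else 0, by simp [mu]⟩
noncomputable def muG (u : ℕ) : ArithmeticFunction ℝ := ⟨fun n => if u < n then mu n else 0, by simp⟩
noncomputable def vmL (u : ℕ) : ArithmeticFunction ℝ := ⟨fun n => if n ≤ u then vM n else 0, by simp [vM]⟩
noncomputable def vmG (u : ℕ) : ArithmeticFunction ℝ := ⟨fun n => if u < n then vM n else 0, by simp⟩

theorem mu_split (u : ℕ) : muL u + muG u = ((ArithmeticFunction.moebius : ArithmeticFunction ℤ) : ArithmeticFunction ℝ) := by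
  ext n
  simp only [muL, muG, ArithmeticFunction.add_apply, ArithmeticFunction.coe_mk,
    ArithmeticFunction.intCoe_apply, mu]
  by_cases h : n ≤ u
  · simp [h, not_lt.mpr h]
  · simp [h, not_le.mp h]

theorem vm_split (u : ℕ) : vmL u + vmG u = ArithmeticFunction.vonMangoldt := by
  ext n
  simp only [vmL, vmG, ArithmeticFunction.add_apply, ArithmeticFunction.coe_mk, vM]
  by_cases h : n ≤ u
  · simp [h, not_lt.mpr h]
  · simp [h, not_le.mp h]

theorem ident (u s : ℕ) :
    vmG u = muL u * ArithmeticFunction.log - (muL u * vmL u) * (ArithmeticFunction.zeta : ArithmeticFunction ℝ)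
      + (muG u * (ArithmeticFunction.zeta : ArithmeticFunction ℝ)) * (vmG u - vmG s)
      + muG u * (vmG s * (ArithmeticFunction.zeta : ArithmeticFunction ℝ)) := by
  have h1 : (muL u + muG u) * (ArithmeticFunction.zeta : ArithmeticFunction ℝ) = 1 := by
    rw [mu_split]; exact ArithmeticFunction.coe_moebius_mul_coe_zeta
  have h2 : (vmL u + vmG u) * (ArithmeticFunction.zeta : ArithmeticFunction ℝ) = ArithmeticFunction.log := by
    rw [vm_split]; exact ArithmeticFunction.vonMangoldt_mul_zeta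
  linear_combination (-(vmG u)) * h1 + (muL u) * h2

theorem sub_app (f g : ArithmeticFunction ℝ) (n : ℕ) : (f - g) n = f n - g n := by
  rw [sub_eq_add_neg, ArithmeticFunction.add_apply, ArithmeticFunction.neg_apply, sub_eq_add_neg]

theorem muG_zeta (u m : ℕ) : (muG u * (ArithmeticFunction.zeta : ArithmeticFunction ℝ)) m = al3 u m := by
  rw [ArithmeticFunction.coe_mul_zeta_apply]
  simp [muG, al3]

theorem vmG_zeta (s m : ℕ) : (vmG s * (ArithmeticFunction.zeta : ArithmeticFunction ℝ)) m = al4 s m := by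
  rw [ArithmeticFunction.coe_mul_zeta_apply]
  simp [vmG, al4]

theorem muvm (u m : ℕ) : (muL u * vmL u) m = al2 u m := by
  rw [ArithmeticFunction.mul_apply, al2]
  refine Finset.sum_congr rfl fun p _ => ?_
  by_cases h1 : p.1 ≤ u <;> by_cases h2 : p.2 ≤ u <;> simp [muL, vmL, h1, h2]

end VaughanAux

/-- Vaughan's identity with `U = V = u`. -/
theorem vaughan (u n : ℕ) (hn : u < n) :
    vM n = ∑ p ∈ n.divisorsAntidiagonal, (if p.1 ≤ u then mu p.1 else 0) * Real.log p.2
      - ∑ p ∈ n.divisorsAntidiagonal, al2 u p.1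
      + ∑ p ∈ n.divisorsAntidiagonal, al4 u p.1 * (if u < p.2 then mu p.2 else 0) := by
  have h := congrArg (fun f : ArithmeticFunction ℝ => f n) (VaughanAux.ident u u)
  simp only [ArithmeticFunction.add_apply, VaughanAux.sub_app] at h
  have e0 : VaughanAux.vmG u n = vM n := by simp [VaughanAux.vmG, hn]
  rw [e0] at h
  rw [h]
  have e3 : (VaughanAux.muG u * (ArithmeticFunction.zeta : ArithmeticFunction ℝ) *
      (VaughanAux.vmG u - VaughanAux.vmG u)) n = 0 := by
    rw [sub_self, mul_zero]; rfl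
  rw [e3, add_zero]
  congr 1
  · congr 1
    rw [ArithmeticFunction.mul_apply]
    refine Finset.sum_congr rfl fun p hp => ?_
    have hp1 : p.2 ≠ 0 := by
      have := Nat.mem_divisorsAntidiagonal.mp hp
      rintro h0; rw [h0, mul_zero] at this; exact this.2 this.1.symm
    rw [VaughanAux.muvm]
    simp [ArithmeticFunction.zeta, hp1]
  · rw [mul_comm, ArithmeticFunction.mul_apply]
    refine Finset.sum_congr rfl fun p hp => ?_
    rw [VaughanAux.vmG_zeta]
    simp [VaughanAux.muG]

theorem al4_zero (u m : ℕ) (h : m ≤ u) : al4 u m = 0 := by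
  unfold al4
  refine Finset.sum_eq_zero fun c hc => ?_
  have : c ≤ m := Nat.divisor_le hc
  rw [if_neg (by omega)]

theorem al2_zero (u m : ℕ) (h : u * u < m) : al2 u m = 0 := by
  unfold al2
  refine Finset.sum_eq_zero fun p hp => ?_
  rw [if_neg]
  rintro ⟨h1, h2⟩
  have h3 := (Nat.mem_divisorsAntidiagonal.mp hp).1
  have : p.1 * p.2 ≤ u * u := Nat.mul_le_mul h1 h2
  omega

theorem vM_nonneg (n : ℕ) : 0 ≤ vM n := ArithmeticFunction.vonMangoldt_nonneg

theorem abs_mu_le (n : ℕ) : |mu n| ≤ 1 := by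
  unfold mu
  have := ArithmeticFunction.abs_moebius_le_one (n := n)
  exact_mod_cast this

theorem abs_al4_le (u m : ℕ) : |al4 u m| ≤ Real.log m := by
  unfold al4
  rw [← ArithmeticFunction.vonMangoldt_sum]
  refine (Finset.abs_sum_le_sum_abs _ _).trans (Finset.sum_le_sum fun c _ => ?_)
  split_ifs
  · rw [abs_of_nonneg (vM_nonneg c)]; exact le_rfl
  · rw [abs_zero]; exact ArithmeticFunction.vonMangoldt_nonneg

theorem abs_al2_le (u m : ℕ) : |al2 u m| ≤ Real.log m := by
  unfold al2
  rw [← ArithmeticFunction.vonMangoldt_sum]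
  have e : ∑ i ∈ m.divisors, ArithmeticFunction.vonMangoldt i =
      ∑ p ∈ m.divisorsAntidiagonal, ArithmeticFunction.vonMangoldt p.2 := by
    rw [Nat.sum_divisorsAntidiagonal' (fun _ j => ArithmeticFunction.vonMangoldt j)]
  rw [e]
  refine (Finset.abs_sum_le_sum_abs _ _).trans (Finset.sum_le_sum fun p _ => ?_)
  split_ifs
  · rw [abs_mul, abs_of_nonneg (vM_nonneg p.2)]
    calc |mu p.1| * vM p.2 ≤ 1 * vM p.2 :=
          mul_le_mul_of_nonneg_right (abs_mu_le _) (vM_nonneg _)
      _ = _ := one_mul _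
  · rw [abs_zero]; exact ArithmeticFunction.vonMangoldt_nonneg

end Pool.Agent.BGV
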